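import Pool.Agent.MP_dce662.Thm

/-!
Edge cuts of the windmill.
-/

set_option autoImplicit false

namespace Pool.Agent.MP_dce662

open Finset

open scoped Classical in
/-- number of edges leaving the set `s` -/
noncomputable def cutN {V : Type} [Fintype V] (G : SimpleGraph V) (s : V → Bool) : ℕ :=
  ∑ v, ∑ w, if G.Adj v w ∧ s v = true ∧ s w = false then 1 else 0

/-- cuts with at least two vertices on both sides have at least four edges -/
def CutCond {V : Type} [Fintype V] (G : SimpleGraph V) : Prop :=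
  ∀ s : V → Bool, (∃ a b, a ≠ b ∧ s a = true ∧ s b = true) →
    (∃ a b, a ≠ b ∧ s a = false ∧ s b = false) → 4 ≤ cutN G s

/-- mismatch -/
def mm (a b : Bool) : ℕ := (xor a b).toNat

section general

variable {V : Type} [Fintype V] {G : SimpleGraph V}

theorem cutN_not (s : V → Bool) : cutN G (fun v => !s v) = cutN G s := by
  classical
  unfold cutN
  rw [Finset.sum_comm]
  refine Finset.sum_congr rfl (fun v _ => Finset.sum_congr rfl (fun w _ => ?_))
  refine if_congr ?_ rfl rfl
  constructor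
  · rintro ⟨h1, h2, h3⟩
    exact ⟨h1.symm, by simpa using h3, by simpa using h2⟩
  · rintro ⟨h1, h2, h3⟩
    exact ⟨h1.symm, by simpa using h3, by simpa using h2⟩

open scoped Classical in
theorem out_eq {v a b c : V} (h : N3 G v a b c) (F : V → ℕ) :
    (∑ w, if G.Adj v w then F w else 0) = F a + F b + F c := by
  have h1 : (∑ w, if G.Adj v w then F w else 0) = ∑ w ∈ ({a, b, c} : Finset V), F w := by
    rw [← Finset.sum_filter]
    refine Finset.sum_congr ?_ (fun _ _ => rfl)
    ext w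
    simp only [mem_filter, mem_univ, true_and, mem_insert, mem_singleton]
    exact h.1 w
  rw [h1, Finset.sum_insert, Finset.sum_insert, Finset.sum_singleton]
  · ring
  · simpa using h.2.2.2
  · simp only [mem_insert, mem_singleton, not_or]
    exact ⟨h.2.1, h.2.2.1⟩

/-- the cut around one vertex -/
theorem cutN_single (hc : Cub G) (s : V → Bool) (v : V) (hv : s v = true)
    (ho : ∀ w, w ≠ v → s w = false) : cutN G s = 3 := by
  classical
  unfold cutN
  rw [Finset.sum_eq_single v]
  · obtain ⟨a, b, c, hn⟩ := hc v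
    have h1 := out_eq hn (fun w => if s w = false then 1 else 0)
    have h2 : (∑ w, if G.Adj v w ∧ s v = true ∧ s w = false then 1 else 0) =
        ∑ w, if G.Adj v w then (if s w = false then 1 else 0) else 0 := by
      refine Finset.sum_congr rfl (fun w _ => ?_)
      by_cases h : G.Adj v w <;> simp [h, hv]
    rw [h2, h1]
    have na : a ≠ v := ((hn.1 a).2 (Or.inl rfl)).ne'
    have nb : b ≠ v := ((hn.1 b).2 (Or.inr (Or.inl rfl))).ne'
    have nc : c ≠ v := ((hn.1 c).2 (Or.inr (Or.inr rfl))).ne'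
    rw [ho a na, ho b nb, ho c nc]
    rfl
  · intro w _ hw
    refine Finset.sum_eq_zero (fun w' _ => ?_)
    rw [if_neg]
    rintro ⟨-, h, -⟩
    rw [ho w hw] at h
    cases h
  · intro h
    exact absurd (Finset.mem_univ v) h

end general

section pole

variable {V : Type} [Fintype V] {R : Rooted V}

open scoped Classical in
theorem split (hR : R.Labelled) (F : V → V → ℕ) :
    (∑ v, ∑ w, if v ≠ R.x ∧ v ≠ R.y ∧ R.G.Adj v w then F v w else 0) =
      (∑ v, ∑ w, if v ≠ R.x ∧ v ≠ R.y ∧ w ≠ R.x ∧ w ≠ R.y ∧ R.G.Adj v w then F v w else 0)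
        + (F R.x0 R.x + F R.x1 R.x) + (F R.y0 R.y + F R.y1 R.y) := by
  have nx := hR.n3x
  have ny := hR.n3y
  have hxy := hR.1.ne
  have key : ∀ v w, (if v ≠ R.x ∧ v ≠ R.y ∧ R.G.Adj v w then F v w else 0) =
      (if v ≠ R.x ∧ v ≠ R.y ∧ w ≠ R.x ∧ w ≠ R.y ∧ R.G.Adj v w then F v w else 0)
      + (if w = R.x then (if v = R.x0 ∨ v = R.x1 then F v R.x else 0) else 0)
      + (if w = R.y then (if v = R.y0 ∨ v = R.y1 then F v R.y else 0) else 0) := by
    intro v w
    by_cases hwx : w = R.x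
    · subst hwx
      rw [if_neg (c := v ≠ R.x ∧ v ≠ R.y ∧ R.x ≠ R.x ∧ R.x ≠ R.y ∧ R.G.Adj v R.x)
        (fun h => h.2.2.1 rfl), if_pos rfl, if_neg hxy, zero_add, add_zero]
      refine if_congr ?_ rfl rfl
      rw [← hR.2.2.2.1 v]
      constructor
      · rintro ⟨h1, h2, h3⟩
        exact ⟨h3.symm, h2⟩
      · rintro ⟨h1, h2⟩
        exact ⟨h1.ne', h2, h1.symm⟩
    · by_cases hwy : w = R.y
      · subst hwy
        rw [if_neg (c := v ≠ R.x ∧ v ≠ R.y ∧ R.y ≠ R.x ∧ R.y ≠ R.y ∧ R.G.Adj v R.y)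
          (fun h => h.2.2.2.1 rfl), if_neg hwx, if_pos rfl, zero_add, zero_add]
        refine if_congr ?_ rfl rfl
        rw [← hR.2.2.2.2 v]
        constructor
        · rintro ⟨h1, h2, h3⟩
          exact ⟨h3.symm, h1⟩
        · rintro ⟨h1, h2⟩
          exact ⟨h2, h1.ne', h1.symm⟩
      · rw [if_neg hwx, if_neg hwy, add_zero, add_zero]
        refine if_congr ?_ rfl rfl
        constructor
        · rintro ⟨h1, h2, h3⟩
          exact ⟨h1, h2, hwx, hwy, h3⟩
        · rintro ⟨h1, h2, -, -, h3⟩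
          exact ⟨h1, h2, h3⟩
  simp_rw [key, Finset.sum_add_distrib]
  have e1 : (∑ v, ∑ w, if w = R.x then (if v = R.x0 ∨ v = R.x1 then F v R.x else 0) else 0) =
      F R.x0 R.x + F R.x1 R.x := by
    have : ∀ v, (∑ w, if w = R.x then (if v = R.x0 ∨ v = R.x1 then F v R.x else 0) else 0) =
        if v = R.x0 ∨ v = R.x1 then F v R.x else 0 := fun v => by
      rw [Finset.sum_ite_eq' Finset.univ R.x, if_pos (Finset.mem_univ _)]
    simp_rw [this]
    rw [← Finset.sum_filter]
    have hf : (Finset.univ.filter fun v => v = R.x0 ∨ v = R.x1) = {R.x0, R.x1} := by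
      ext v
      simp
    rw [hf, Finset.sum_pair hR.2.1]
  have e2 : (∑ v, ∑ w, if w = R.y then (if v = R.y0 ∨ v = R.y1 then F v R.y else 0) else 0) =
      F R.y0 R.y + F R.y1 R.y := by
    have : ∀ v, (∑ w, if w = R.y then (if v = R.y0 ∨ v = R.y1 then F v R.y else 0) else 0) =
        if v = R.y0 ∨ v = R.y1 then F v R.y else 0 := fun v => by
      rw [Finset.sum_ite_eq' Finset.univ R.y, if_pos (Finset.mem_univ _)]
    simp_rw [this]
    rw [← Finset.sum_filter]
    have hf : (Finset.univ.filter fun v => v = R.y0 ∨ v = R.y1) = {R.y0, R.y1} := by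
      ext v
      simp
    rw [hf, Finset.sum_pair hR.2.2.1]
  rw [e1, e2]

open scoped Classical in
/-- the internal cut of a pole -/
noncomputable def inCut (R : Rooted V) (s : V → Bool) : ℕ :=
  ∑ v, ∑ w, if v ≠ R.x ∧ v ≠ R.y ∧ w ≠ R.x ∧ w ≠ R.y ∧ R.G.Adj v w then
    (if s v = true ∧ s w = false then 1 else 0) else 0

/-- the cut of the whole graph in terms of the internal cut -/
theorem cutN_eq (hR : R.Labelled) (s : V → Bool) :
    cutN R.G s = inCut R s + (mm (s R.x0) (s R.x) + mm (s R.x1) (s R.x)) +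
      (mm (s R.y0) (s R.y) + mm (s R.y1) (s R.y)) + mm (s R.x) (s R.y) := by
  classical
  have hxy := hR.1.ne
  have hs := split hR (fun v w => if s v = true ∧ s w = false then 1 else 0)
  have key : ∀ v w, (if R.G.Adj v w ∧ s v = true ∧ s w = false then 1 else 0) =
      (if v ≠ R.x ∧ v ≠ R.y ∧ R.G.Adj v w then (if s v = true ∧ s w = false then 1 else 0) else 0)
      + (if v = R.x then (if R.G.Adj R.x w then (if s R.x = true ∧ s w = false then 1 else 0) else 0)
          else 0)
      + (if v = R.y then (if R.G.Adj R.y w then (if s R.y = true ∧ s w = false then 1 else 0) else 0)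
          else 0) := by
    intro v w
    by_cases hvx : v = R.x
    · subst hvx
      rw [if_neg (c := R.x ≠ R.x ∧ R.x ≠ R.y ∧ R.G.Adj R.x w) (fun h => h.1 rfl), if_pos rfl,
        if_neg hxy, zero_add, add_zero]
      by_cases h : R.G.Adj R.x w <;> simp [h]
    · by_cases hvy : v = R.y
      · subst hvy
        rw [if_neg (c := R.y ≠ R.x ∧ R.y ≠ R.y ∧ R.G.Adj R.y w) (fun h => h.2.1 rfl), if_neg hvx,
          if_pos rfl, zero_add, zero_add]
        by_cases h : R.G.Adj R.y w <;> simp [h]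
      · rw [if_neg hvx, if_neg hvy, add_zero, add_zero]
        by_cases h : R.G.Adj v w <;> simp [h, hvx, hvy]
  unfold cutN
  simp_rw [key, Finset.sum_add_distrib]
  rw [hs]
  have e1 : (∑ v, ∑ w, if v = R.x then (if R.G.Adj R.x w then
      (if s R.x = true ∧ s w = false then 1 else 0) else 0) else 0) =
      (if s R.x = true ∧ s R.y = false then 1 else 0) +
      (if s R.x = true ∧ s R.x0 = false then 1 else 0) +
      (if s R.x = true ∧ s R.x1 = false then 1 else 0) := by
    rw [Finset.sum_eq_single R.x]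
    · simp only [if_true]
      exact out_eq hR.n3x (fun w => if s R.x = true ∧ s w = false then 1 else 0)
    · intro v _ hv
      simp [hv]
    · intro h
      exact absurd (Finset.mem_univ _) h
  have e2 : (∑ v, ∑ w, if v = R.y then (if R.G.Adj R.y w then
      (if s R.y = true ∧ s w = false then 1 else 0) else 0) else 0) =
      (if s R.y = true ∧ s R.x = false then 1 else 0) +
      (if s R.y = true ∧ s R.y0 = false then 1 else 0) +
      (if s R.y = true ∧ s R.y1 = false then 1 else 0) := by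
    rw [Finset.sum_eq_single R.y]
    · simp only [if_true]
      exact out_eq hR.n3y (fun w => if s R.y = true ∧ s w = false then 1 else 0)
    · intro v _ hv
      simp [hv]
    · intro h
      exact absurd (Finset.mem_univ _) h
  rw [e1, e2]
  have hin : (∑ v, ∑ w, if v ≠ R.x ∧ v ≠ R.y ∧ w ≠ R.x ∧ w ≠ R.y ∧ R.G.Adj v w then
    (if s v = true ∧ s w = false then 1 else 0) else 0) = inCut R s := rfl
  rw [hin]
  generalize inCut R s = h
  unfold mm
  generalize s R.x = a
  generalize s R.y = b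
  generalize s R.x0 = c
  generalize s R.x1 = d
  generalize s R.y0 = e
  generalize s R.y1 = f
  cases a <;> cases b <;> cases c <;> cases d <;> cases e <;> cases f <;> simp

/-- the three possibilities for a pole -/
theorem pole_cases (hR : R.Labelled) (hc : Cub R.G) (hcut : CutCond R.G)
    (htri : ∀ u v w, R.G.Adj u v → R.G.Adj v w → R.G.Adj w u → False) (s : V → Bool) :
    (∀ v, v ≠ R.x → v ≠ R.y → s v = false) ∨ (∀ v, v ≠ R.x → v ≠ R.y → s v = true) ∨
      2 ≤ inCut R s := by
  classical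
  by_cases h1 : ∀ v, v ≠ R.x → v ≠ R.y → s v = false
  · exact Or.inl h1
  by_cases h2 : ∀ v, v ≠ R.x → v ≠ R.y → s v = true
  · exact Or.inr (Or.inl h2)
  right
  right
  push Not at h1 h2
  obtain ⟨a, ax, ay, ha⟩ := h1
  obtain ⟨b, bx, by', hb⟩ := h2
  simp only [ne_eq, Bool.not_eq_false, Bool.not_eq_true] at ha hb
  have hxy := hR.1.ne
  have nx := hR.n3x
  have ny := hR.n3y
  have x0n := x0_ne hR
  have x1n := x1_ne hR
  have y0n := y0_ne hR
  have y1n := y1_ne hR
  -- the four attachment vertices are distinct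
  have hdist : ∀ p q : V, R.G.Adj R.x p → R.G.Adj R.y q → p ≠ q := by
    intro p q hp hq e
    subst e
    exact htri R.x R.y p hR.1 hq hp.symm
  have d1 : R.x0 ≠ R.y0 := hdist _ _ ((nx.1 _).2 (Or.inr (Or.inl rfl))) ((ny.1 _).2 (Or.inr (Or.inl rfl)))
  have d2 : R.x0 ≠ R.y1 := hdist _ _ ((nx.1 _).2 (Or.inr (Or.inl rfl))) ((ny.1 _).2 (Or.inr (Or.inr rfl)))
  have d3 : R.x1 ≠ R.y0 := hdist _ _ ((nx.1 _).2 (Or.inr (Or.inr rfl))) ((ny.1 _).2 (Or.inr (Or.inl rfl)))
  have d4 : R.x1 ≠ R.y1 := hdist _ _ ((nx.1 _).2 (Or.inr (Or.inr rfl))) ((ny.1 _).2 (Or.inr (Or.inr rfl)))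
  have d5 := hR.2.1
  have d6 := hR.2.2.1
  -- extensions by a constant at the two roots
  let e : Bool → V → Bool := fun t v => if v = R.x ∨ v = R.y then t else s v
  have ex : ∀ t, e t R.x = t := fun t => if_pos (Or.inl rfl)
  have ey : ∀ t, e t R.y = t := fun t => if_pos (Or.inr rfl)
  have ev : ∀ t v, v ≠ R.x → v ≠ R.y → e t v = s v := fun t v h h' => if_neg (by tauto)
  have hin : ∀ t, inCut R (e t) = inCut R s := by
    intro t
    unfold inCut
    refine Finset.sum_congr rfl (fun v _ => Finset.sum_congr rfl (fun w _ => ?_))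
    by_cases h : v ≠ R.x ∧ v ≠ R.y ∧ w ≠ R.x ∧ w ≠ R.y ∧ R.G.Adj v w
    · rw [if_pos h, if_pos h, ev t v h.1 h.2.1, ev t w h.2.2.1 h.2.2.2.1]
    · rw [if_neg h, if_neg h]
  have hcutT : ∀ t, cutN R.G (e t) = inCut R s + (mm (s R.x0) t + mm (s R.x1) t) +
      (mm (s R.y0) t + mm (s R.y1) t) := by
    intro t
    rw [cutN_eq hR, hin, ex, ey, ev t _ x0n.1 x0n.2, ev t _ x1n.1 x1n.2, ev t _ y0n.1 y0n.2,
      ev t _ y1n.1 y1n.2]
    have : mm t t = 0 := by cases t <;> rfl
    rw [this, add_zero]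
  have hF := hcutT false
  have hT := hcutT true
  have hsum : ∀ t : Bool, mm t false + mm t true = 1 := by decide
  have q1 := hsum (s R.x0)
  have q2 := hsum (s R.x1)
  have q3 := hsum (s R.y0)
  have q4 := hsum (s R.y1)
  -- at most one attachment vertex
  have hone : ∀ (t : Bool) (v : V), (∀ w, w ≠ R.x → w ≠ R.y → w ≠ v → s w = t) →
      mm (s R.x0) t + mm (s R.x1) t + (mm (s R.y0) t + mm (s R.y1) t) ≤ 1 := by
    intro t v h
    have mt : mm t t = 0 := by cases t <;> rfl
    have ml : ∀ r, mm r t ≤ 1 := by cases t <;> decide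
    by_cases e1 : R.x0 = v
    · rw [h R.x1 x1n.1 x1n.2 (fun e => d5 (e1.trans e.symm)),
        h R.y0 y0n.1 y0n.2 (fun e => d1 (e1.trans e.symm)),
        h R.y1 y1n.1 y1n.2 (fun e => d2 (e1.trans e.symm)), mt]
      exact ml _
    · rw [h R.x0 x0n.1 x0n.2 e1, mt]
      by_cases e2 : R.x1 = v
      · rw [h R.y0 y0n.1 y0n.2 (fun e => d3 (e2.trans e.symm)),
          h R.y1 y1n.1 y1n.2 (fun e => d4 (e2.trans e.symm)), mt]
        have := ml (s R.x1)
        omega
      · rw [h R.x1 x1n.1 x1n.2 e2, mt]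
        by_cases e3 : R.y0 = v
        · rw [h R.y1 y1n.1 y1n.2 (fun e => d6 (e3.trans e.symm)), mt]
          have := ml (s R.y0)
          omega
        · rw [h R.y0 y0n.1 y0n.2 e3, mt]
          have := ml (s R.y1)
          omega
  by_cases hA : ∀ w, w ≠ R.x → w ≠ R.y → w ≠ a → s w = false
  · -- only one vertex
    have h3 : cutN R.G (e false) = 3 := by
      refine cutN_single hc (e false) a (by rw [ev _ _ ax ay, ha]) (fun w hw => ?_)
      by_cases hwx : w = R.x
      · rw [hwx, ex]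
      · by_cases hwy : w = R.y
        · rw [hwy, ey]
        · rw [ev _ _ hwx hwy]
          exact hA w hwx hwy hw
    have := hone false a hA
    omega
  · push Not at hA
    obtain ⟨a', ax', ay', aa', ha'⟩ := hA
    simp only [ne_eq, Bool.not_eq_false] at ha'
    by_cases hB : ∀ w, w ≠ R.x → w ≠ R.y → w ≠ b → s w = true
    · have h3 : cutN R.G (e true) = 3 := by
        rw [← cutN_not]
        refine cutN_single hc (fun v => !e true v) b (by simp only [ev _ _ bx by', hb]; rfl)
          (fun w hw => ?_)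
        by_cases hwx : w = R.x
        · simp only [hwx, ex]; rfl
        · by_cases hwy : w = R.y
          · simp only [hwy, ey]; rfl
          · simp only [ev _ _ hwx hwy, hB w hwx hwy hw]; rfl
      have := hone true b hB
      omega
    · push Not at hB
      obtain ⟨b', bx', by'', bb', hb'⟩ := hB
      simp only [ne_eq, Bool.not_eq_true] at hb'
      have c1 := hcut (e false) ⟨a, a', fun e => aa' e.symm, by rw [ev _ _ ax ay, ha],
        by rw [ev _ _ ax' ay', ha']⟩ ⟨R.x, R.y, hxy, ex _, ey _⟩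
      have c2 := hcut (e true) ⟨R.x, R.y, hxy, ex _, ey _⟩
        ⟨b, b', fun e => bb' e.symm, by rw [ev _ _ bx by', hb], by rw [ev _ _ bx' by'', hb']⟩
      omega

/-- if everything outside of one pole has the same value `t` -/
theorem pole_const (hR : R.Labelled) (hcut : CutCond R.G) (s : V → Bool) (t : Bool)
    (h : ∃ a b, a ≠ b ∧ a ≠ R.x ∧ a ≠ R.y ∧ b ≠ R.x ∧ b ≠ R.y ∧ s a ≠ t ∧ s b ≠ t) :
    4 ≤ inCut R s + (mm (s R.x0) t + mm (s R.x1) t) + (mm (s R.y0) t + mm (s R.y1) t) := by
  classical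
  obtain ⟨a, b, hab, ax, ay, bx, by', ha, hb⟩ := h
  have hxy := hR.1.ne
  have x0n := x0_ne hR
  have x1n := x1_ne hR
  have y0n := y0_ne hR
  have y1n := y1_ne hR
  let e : Bool → V → Bool := fun t v => if v = R.x ∨ v = R.y then t else s v
  have ex : ∀ t, e t R.x = t := fun t => if_pos (Or.inl rfl)
  have ey : ∀ t, e t R.y = t := fun t => if_pos (Or.inr rfl)
  have ev : ∀ t v, v ≠ R.x → v ≠ R.y → e t v = s v := fun t v h h' => if_neg (by tauto)
  have hin : ∀ t, inCut R (e t) = inCut R s := by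
    intro t
    unfold inCut
    refine Finset.sum_congr rfl (fun v _ => Finset.sum_congr rfl (fun w _ => ?_))
    by_cases h : v ≠ R.x ∧ v ≠ R.y ∧ w ≠ R.x ∧ w ≠ R.y ∧ R.G.Adj v w
    · rw [if_pos h, if_pos h, ev t v h.1 h.2.1, ev t w h.2.2.1 h.2.2.2.1]
    · rw [if_neg h, if_neg h]
  have hcutT : ∀ t, cutN R.G (e t) = inCut R s + (mm (s R.x0) t + mm (s R.x1) t) +
      (mm (s R.y0) t + mm (s R.y1) t) := by
    intro t
    rw [cutN_eq hR, hin, ex, ey, ev t _ x0n.1 x0n.2, ev t _ x1n.1 x1n.2, ev t _ y0n.1 y0n.2,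
      ev t _ y1n.1 y1n.2]
    have : mm t t = 0 := by cases t <;> rfl
    rw [this, add_zero]
  rw [← hcutT]
  cases t with
  | false =>
    exact hcut (e false) ⟨a, b, hab, by rw [ev _ _ ax ay]; simpa using ha,
      by rw [ev _ _ bx by']; simpa using hb⟩ ⟨R.x, R.y, hxy, ex _, ey _⟩
  | true =>
    exact hcut (e true) ⟨R.x, R.y, hxy, ex _, ey _⟩ ⟨a, b, hab, by rw [ev _ _ ax ay]; simpa using ha,
      by rw [ev _ _ bx by']; simpa using hb⟩

end pole

end Pool.Agent.MP_dce662
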