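import Pool.Agent.MP_dce662.Labels

/-!
The case analysis for the windmill: in a labelling that is tight outside of `c_0` and `a_0`
the two edges from `a_0` to the poles are double.
-/

set_option autoImplicit false

namespace Pool.Agent.MP_dce662

open Finset

/-- the boolean core: `true` means double -/
def coreHyp (x00 x01 y00 y01 x10 x11 y10 y11 x20 x21 y20 y21 : Bool) : Bool :=
    !(x20 && y00) && !(x21 && y01) && !(!(x20 || y00) && !(x21 || y01)) &&
    !(x00 && y10) && !(x01 && y11) && !(!(x00 || y10) && !(x01 || y11)) &&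
    !(((x20 || y00) && (x21 || y01)) && ((x00 || y10) && (x01 || y11))) &&
    (xor x00 x01 == xor y00 y01) && (xor x10 x11 == xor y10 y11) &&
    (xor x20 x21 == xor y20 y21) && !(x11 && y21) &&
    (((x20 || y00) && (x21 || y01)) == !(xor (xor x20 x21) (xor x00 x01))) &&
    (((x00 || y10) && (x01 || y11)) == !(xor (xor x10 x11) (xor x00 x01))) &&
    ((x00 || x01 || y00 || y01) || (x10 || x11 || y10 || y11)) &&
    ((x00 || x01 || y00 || y01) || (x20 || x21 || y20 || y21)) &&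
    ((x20 || x21 || y20 || y21) || (x10 || x11 || y10 || y11)) &&
    ((x00 || x01 || y00 || y01) || !(xor x10 x11)) &&
    ((x00 || x01 || y00 || y01) || !(xor x20 x21)) &&
    ((x10 || x11 || y10 || y11) || !(xor x00 x01)) &&
    ((x10 || x11 || y10 || y11) || !(xor x20 x21)) &&
    ((x20 || x21 || y20 || y21) || !(xor x00 x01)) &&
    ((x20 || x21 || y20 || y21) || !(xor x10 x11))

theorem boolCore : ∀ x00 x01 y00 y01 x10 x11 y10 y11 x20 x21 y20 y21 : Bool,
    (!(coreHyp x00 x01 y00 y01 x10 x11 y10 y11 x20 x21 y20 y21) || (x10 && y20)) = true := by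
  decide +kernel

theorem VR.le2 {A B C : Finset ℕ} (h : VR A B C) : A.card ≤ 2 ∧ B.card ≤ 2 ∧ C.card ≤ 2 := by
  have := h.cards
  omega

theorem toBool {c : ℕ} (h : c = 1 ∨ c = 2) : ∃ b : Bool, c = 1 + b.toNat := by
  rcases h with rfl | rfl
  · exact ⟨false, rfl⟩
  · exact ⟨true, rfl⟩

/-- the two vertices `a`, `b` and `c` at one arm of the windmill -/
theorem armCore (x x' y y' : Bool) (a b c : ℕ)
    (va : 1 + x.toNat + (1 + y.toNat) + a = 4) (vb : 1 + x'.toNat + (1 + y'.toNat) + b = 4)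
    (vc : a + b + c = 4) (ap : 1 ≤ a) (bp : 1 ≤ b) (cp : 1 ≤ c) :
    (!(x && y)) = true ∧ (!(x' && y')) = true ∧ (!(!(x || y) && !(x' || y'))) = true ∧
      c = 1 + ((x || y) && (x' || y')).toNat := by
  cases x <;> cases y <;> cases x' <;> cases y' <;>
    simp only [Bool.toNat_false, Bool.toNat_true, Bool.and_self, Bool.and_true, Bool.and_false,
      Bool.or_self, Bool.or_true, Bool.or_false, Bool.not_true, Bool.not_false,
      Bool.false_eq_true, false_and, true_and] at va vb vc ⊢ <;>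
    omega

theorem parityCore (x x' y y' : Bool) (z k m : ℕ) (e : z + 2 * k = 1 + x.toNat + (1 + x'.toNat))
    (f : z + 2 * m = 1 + y.toNat + (1 + y'.toNat)) :
    (xor x x' == xor y y') = true := by
  cases x <;> cases x' <;> cases y <;> cases y' <;>
    simp only [Bool.toNat_false, Bool.toNat_true] at e f ⊢ <;> first
    | rfl
    | (exfalso; omega)

/-- size of the sum of two pole sums -/
theorem sumCore (x x' w w' b : Bool) (z z' k k' u l : ℕ)
    (e : z + 2 * k = 1 + x.toNat + (1 + x'.toNat)) (f : z' + 2 * k' = 1 + w.toNat + (1 + w'.toNat))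
    (h : u + 2 * l = z + z') (hu : u = 1 + b.toNat) :
    (b == !(xor (xor x x') (xor w w'))) = true := by
  cases x <;> cases x' <;> cases w <;> cases w' <;> cases b <;>
    simp only [Bool.toNat_false, Bool.toNat_true] at e f hu ⊢ <;> first
    | rfl
    | (exfalso; omega)

theorem noneCore (x x' y y' w w' v v' : Bool) (z z' u : ℕ)
    (s : 1 + x.toNat = 1 → 1 + x'.toNat = 1 → 1 + y.toNat = 1 → 1 + y'.toNat = 1 → z = 0)
    (s' : 1 + w.toNat = 1 → 1 + w'.toNat = 1 → 1 + v.toNat = 1 → 1 + v'.toNat = 1 → z' = 0)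
    (o' : 1 + w.toNat ≠ 1 + w'.toNat → z' = 3)
    (hu : 1 ≤ u) (hu2 : u ≤ 2) (g : z' ≤ u + z) (h : u ≤ z + z') :
    ((x || x' || y || y') || (w || w' || v || v')) = true ∧
      ((x || x' || y || y') || !(xor w w')) = true := by
  cases x <;> cases x' <;> cases y <;> cases y' <;>
    simp only [Bool.true_or, Bool.or_true, Bool.or_false, Bool.false_or, and_self]
  have hz : z = 0 := s rfl rfl rfl rfl
  subst hz
  constructor
  · cases w <;> cases w' <;> cases v <;> cases v' <;> first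
      | rfl
      | (exfalso
         have := s' rfl rfl rfl rfl
         omega)
  · cases w <;> cases w' <;> first
      | rfl
      | (exfalso
         have := o' (by decide)
         omega)

theorem caseAnalysis
    {X00 X01 Y00 Y01 X10 X11 Y10 Y11 X20 X21 Y20 Y21 A1 B1 U1 A2 B2 U2 B0 U0 : Finset ℕ}
    (F0 : PoleFacts X00 X01 Y00 Y01) (F1 : PoleFacts X10 X11 Y10 Y11)
    (F2 : PoleFacts X20 X21 Y20 Y21)
    (a1 : VR X20 Y00 A1) (b1 : VR X21 Y01 B1) (c1 : VR A1 B1 U1)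
    (a2 : VR X00 Y10 A2) (b2 : VR X01 Y11 B2) (c2 : VR A2 B2 U2)
    (b0 : VR X11 Y21 B0) (u : VR U0 U1 U2) : X10.card = 2 ∧ Y20.card = 2 := by
  classical
  -- the sums
  have hU1 : U1 = symmDiff (symmDiff X20 X21) (symmDiff X00 X01) := by
    rw [← c1.1.2.2.2, ← a1.1.2.2.2, ← b1.1.2.2.2, F0.sd, symmDiff_symmDiff_symmDiff_comm]
  have hU2 : U2 = symmDiff (symmDiff X00 X01) (symmDiff X10 X11) := by
    rw [← c2.1.2.2.2, ← a2.1.2.2.2, ← b2.1.2.2.2, F1.sd, symmDiff_symmDiff_symmDiff_comm]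
  have hU0 : U0 = symmDiff (symmDiff X20 X21) (symmDiff X10 X11) := by
    have h := u.swap12.swap23.swap12.1.2.2.2
    have h' : U0 = symmDiff U1 U2 := by
      have := u.1.2.2.2
      rw [← this, symmDiff_comm U1, symmDiff_assoc, symmDiff_self, symmDiff_bot]
    rw [h', hU1, hU2, symmDiff_assoc, symmDiff_symmDiff_cancel_left]
  set Z0 := symmDiff X00 X01 with hZ0
  set Z1 := symmDiff X10 X11 with hZ1
  set Z2 := symmDiff X20 X21 with hZ2
  obtain ⟨k0, e0⟩ := card_symmDiff_parity X00 X01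
  obtain ⟨m0, f0⟩ := card_symmDiff_parity Y00 Y01
  obtain ⟨k1, e1⟩ := card_symmDiff_parity X10 X11
  obtain ⟨m1, f1⟩ := card_symmDiff_parity Y10 Y11
  obtain ⟨k2, e2⟩ := card_symmDiff_parity X20 X21
  obtain ⟨m2, f2⟩ := card_symmDiff_parity Y20 Y21
  rw [← F0.sd] at f0
  rw [← F1.sd] at f1
  rw [← F2.sd] at f2
  rw [← hZ0] at e0 f0
  rw [← hZ1] at e1 f1
  rw [← hZ2] at e2 f2
  obtain ⟨l1, w1⟩ := card_symmDiff_parity Z2 Z0
  obtain ⟨l2, w2⟩ := card_symmDiff_parity Z0 Z1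
  obtain ⟨l0, w0⟩ := card_symmDiff_parity Z2 Z1
  rw [← hU1] at w1
  rw [← hU2] at w2
  rw [← hU0] at w0
  have tri : ∀ A B C : Finset ℕ, C = symmDiff A B → A.card ≤ C.card + B.card := by
    intro A B C h
    obtain ⟨k, hk⟩ := card_symmDiff_parity C B
    have : A = symmDiff C B := by rw [h, symmDiff_assoc, symmDiff_self, symmDiff_bot]
    rw [← this] at hk
    omega
  have g1 := tri Z2 Z0 U1 hU1
  have g1' := tri Z0 Z2 U1 (by rw [hU1, symmDiff_comm])
  have g2 := tri Z0 Z1 U2 hU2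
  have g2' := tri Z1 Z0 U2 (by rw [hU2, symmDiff_comm])
  have g0 := tri Z2 Z1 U0 hU0
  have g0' := tri Z1 Z2 U0 (by rw [hU0, symmDiff_comm])
  have s0 : X00.card = 1 → X01.card = 1 → Y00.card = 1 → Y01.card = 1 → Z0.card = 0 :=
    fun h1 h2 h3 h4 => by rw [Finset.card_eq_zero]; exact F0.single h1 h2 h3 h4
  have s1 : X10.card = 1 → X11.card = 1 → Y10.card = 1 → Y11.card = 1 → Z1.card = 0 :=
    fun h1 h2 h3 h4 => by rw [Finset.card_eq_zero]; exact F1.single h1 h2 h3 h4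
  have s2 : X20.card = 1 → X21.card = 1 → Y20.card = 1 → Y21.card = 1 → Z2.card = 0 :=
    fun h1 h2 h3 h4 => by rw [Finset.card_eq_zero]; exact F2.single h1 h2 h3 h4
  have o0 := F0.odd
  have o1 := F1.odd
  have o2 := F2.odd
  rw [← hZ0] at o0
  rw [← hZ1] at o1
  rw [← hZ2] at o2
  have va1 := a1.2
  have vb1 := b1.2
  have vc1 := c1.2
  have va2 := a2.2
  have vb2 := b2.2
  have vc2 := c2.2
  have vb0 := b0.2
  have vu := u.2
  have pA1 := a1.1.2.2.1.card_pos
  have pB1 := b1.1.2.2.1.card_pos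
  have pU1 := c1.1.2.2.1.card_pos
  have pA2 := a2.1.2.2.1.card_pos
  have pB2 := b2.1.2.2.1.card_pos
  have pU2 := c2.1.2.2.1.card_pos
  have pB0 := b0.1.2.2.1.card_pos
  have pU0 := u.1.1.card_pos
  obtain ⟨x00, h00⟩ := toBool F0.cX0
  obtain ⟨x01, h01⟩ := toBool F0.cX1
  obtain ⟨y00, i00⟩ := toBool F0.cY0
  obtain ⟨y01, i01⟩ := toBool F0.cY1
  obtain ⟨x10, h10⟩ := toBool F1.cX0
  obtain ⟨x11, h11⟩ := toBool F1.cX1
  obtain ⟨y10, i10⟩ := toBool F1.cY0
  obtain ⟨y11, i11⟩ := toBool F1.cY1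
  obtain ⟨x20, h20⟩ := toBool F2.cX0
  obtain ⟨x21, h21⟩ := toBool F2.cX1
  obtain ⟨y20, i20⟩ := toBool F2.cY0
  obtain ⟨y21, i21⟩ := toBool F2.cY1
  rw [h00, h01] at e0 o0
  rw [i00, i01] at f0
  rw [h10, h11] at e1 o1
  rw [i10, i11] at f1
  rw [h20, h21] at e2 o2
  rw [i20, i21] at f2
  rw [h00, h01, i00, i01] at s0
  rw [h10, h11, i10, i11] at s1
  rw [h20, h21, i20, i21] at s2
  rw [h20, i00] at va1
  rw [h21, i01] at vb1
  rw [h00, i10] at va2
  rw [h01, i11] at vb2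
  rw [h11, i21] at vb0
  obtain ⟨r1, r2, r3, r4⟩ := armCore x20 x21 y00 y01 _ _ _ va1 vb1 vc1 pA1 pB1 pU1
  obtain ⟨t1, t2, t3, t4⟩ := armCore x00 x01 y10 y11 _ _ _ va2 vb2 vc2 pA2 pB2 pU2
  have q0 := parityCore _ _ _ _ _ _ _ e0 f0
  have q1 := parityCore _ _ _ _ _ _ _ e1 f1
  have q2 := parityCore _ _ _ _ _ _ _ e2 f2
  have j1 := sumCore _ _ _ _ _ _ _ _ _ _ _ e2 e0 w1 r4
  have j2 := sumCore _ _ _ _ _ _ _ _ _ _ _ e1 e0 (by rw [add_comm Z1.card]; exact w2) t4
  have d11 : (!(x11 && y21)) = true := by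
    cases x11 <;> cases y21 <;> first
      | rfl
      | (exfalso
         simp only [Bool.toNat_true] at vb0
         omega)
  have dU : (!(((x20 || y00) && (x21 || y01)) && ((x00 || y10) && (x01 || y11)))) = true := by
    generalize ((x20 || y00) && (x21 || y01)) = p at r4 ⊢
    generalize ((x00 || y10) && (x01 || y11)) = q at t4 ⊢
    cases p <;> cases q <;> first
      | rfl
      | (exfalso
         simp only [Bool.toNat_true] at r4 t4
         omega)
  obtain ⟨u0le, u1le, u2le⟩ := u.le2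
  have W2 : U2.card ≤ Z0.card + Z1.card := by rw [← w2]; exact Nat.le_add_right _ _
  have W1 : U1.card ≤ Z2.card + Z0.card := by rw [← w1]; exact Nat.le_add_right _ _
  have W0 : U0.card ≤ Z2.card + Z1.card := by rw [← w0]; exact Nat.le_add_right _ _
  obtain ⟨n1, n2⟩ := noneCore _ _ _ _ _ _ _ _ _ _ _ s0 s1 o1 pU2 u2le g2' W2
  obtain ⟨n3, n4⟩ := noneCore _ _ _ _ _ _ _ _ _ _ _ s0 s2 o2 pU1 u1le g1 (by rw [add_comm]; exact W1)
  obtain ⟨n5, n6⟩ := noneCore _ _ _ _ _ _ _ _ _ _ _ s1 s0 o0 pU2 u2le g2 (by rw [add_comm]; exact W2)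
  obtain ⟨n7, n8⟩ := noneCore _ _ _ _ _ _ _ _ _ _ _ s1 s2 o2 pU0 u0le g0 (by rw [add_comm]; exact W0)
  obtain ⟨n9, n10⟩ := noneCore _ _ _ _ _ _ _ _ _ _ _ s2 s0 o0 pU1 u1le g1' W1
  obtain ⟨n11, n12⟩ := noneCore _ _ _ _ _ _ _ _ _ _ _ s2 s1 o1 pU0 u0le g0' W0
  have hcore : coreHyp x00 x01 y00 y01 x10 x11 y10 y11 x20 x21 y20 y21 = true := by
    unfold coreHyp
    rw [r1, r2, r3, t1, t2, t3, dU, q0, q1, q2, d11, j1, j2, n1, n3, n11, n2, n4, n6, n8, n10, n12]
    rfl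
  have hfin := boolCore x00 x01 y00 y01 x10 x11 y10 y11 x20 x21 y20 y21
  rw [hcore] at hfin
  simp only [Bool.not_true, Bool.false_or, Bool.and_eq_true] at hfin
  obtain ⟨rfl, rfl⟩ := hfin
  exact ⟨h10, i20⟩

end Pool.Agent.MP_dce662
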