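import Pool.Agent.MP_dce662.Snark

/-!
Cycle covers and labellings.
-/

set_option autoImplicit false

namespace Pool.Agent.MP_dce662

open Finset

variable {V : Type}

open scoped Classical in
/-- the label sets of a family of subgraphs -/
noncomputable def labC {G : SimpleGraph V} {k : ℕ} (C : Fin k → G.Subgraph) (v w : V) : Finset ℕ :=
  ((Finset.univ : Finset (Fin k)).filter (fun i => (C i).Adj v w)).map Fin.valEmbedding

theorem mem_labC {G : SimpleGraph V} {k : ℕ} (C : Fin k → G.Subgraph) (v w : V) (l : ℕ) :
    l ∈ labC C v w ↔ ∃ h : l < k, (C ⟨l, h⟩).Adj v w := by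
  classical
  unfold labC
  simp only [mem_map, mem_filter, mem_univ, true_and, Fin.valEmbedding_apply]
  constructor
  · rintro ⟨i, hi, rfl⟩
    exact ⟨i.2, hi⟩
  · rintro ⟨h, hi⟩
    exact ⟨⟨l, h⟩, hi, rfl⟩

open scoped Classical in
theorem card_labC {G : SimpleGraph V} {k : ℕ} (C : Fin k → G.Subgraph) (v w : V) :
    (labC C v w).card = ∑ i, if (C i).Adj v w then 1 else 0 := by
  unfold labC
  rw [Finset.card_map, Finset.card_filter]

theorem labC_symm {G : SimpleGraph V} {k : ℕ} (C : Fin k → G.Subgraph) (v w : V) :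
    labC C v w = labC C w v := by
  ext l
  rw [mem_labC, mem_labC]
  simp only [SimpleGraph.Subgraph.adj_comm]

/-- number of neighbours in a subgraph -/
theorem ncard_nbr {G : SimpleGraph V} (C : G.Subgraph) {v a b c : V} (hn : N3 G v a b c) :
    (C.neighborSet v).ncard =
      @ite _ (C.Adj v a) (Classical.propDecidable _) 1 0 +
      @ite _ (C.Adj v b) (Classical.propDecidable _) 1 0 +
      @ite _ (C.Adj v c) (Classical.propDecidable _) 1 0 := by
  classical
  have hs : C.neighborSet v = (({a, b, c} : Finset V).filter (fun w => C.Adj v w) : Finset V) := by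
    ext w
    simp only [SimpleGraph.Subgraph.mem_neighborSet, coe_filter, mem_insert, mem_singleton]
    constructor
    · intro h
      exact ⟨(hn.1 w).1 (C.adj_sub h), h⟩
    · intro h
      exact h.2
  rw [hs, Set.ncard_coe_finset]
  have n1 := hn.2.1
  have n2 := hn.2.2.1
  have n3 := hn.2.2.2
  by_cases h1 : C.Adj v a <;> by_cases h2 : C.Adj v b <;> by_cases h3 : C.Adj v c <;>
    simp [Finset.filter_insert, Finset.filter_singleton, h1, h2, h3, n1, n2, n3]

theorem even_nbr {G : SimpleGraph V} {C : G.Subgraph} (h : IsCycleSubgraph G C) (v : V) :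
    Even (C.neighborSet v).ncard := by
  by_cases hv : v ∈ C.verts
  · exact h.2 v hv
  · have : C.neighborSet v = ∅ := by
      ext w
      simp only [SimpleGraph.Subgraph.mem_neighborSet, Set.mem_empty_iff_false, iff_false]
      intro h'
      exact hv (C.edge_vert h')
    rw [this, Set.ncard_empty]
    exact ⟨0, rfl⟩

theorem labC_cover {G : SimpleGraph V} (hc : Cub G) {k : ℕ} {C : Fin k → G.Subgraph}
    (hC : IsCycleCover G C) (v : V) : CoverAt G (labC C) v := by
  classical
  obtain ⟨a, b, c, hn⟩ := hc v
  have hne : ∀ w, G.Adj v w → (labC C v w).Nonempty := by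
    intro w hw
    obtain ⟨i, hi⟩ := hC.2 s(v, w) hw
    exact ⟨i.1, (mem_labC C v w i.1).2 ⟨i.2, hi⟩⟩
  refine ⟨a, b, c, hn, hne a ((hn.1 a).2 (Or.inl rfl)), hne b ((hn.1 b).2 (Or.inr (Or.inl rfl))),
    hne c ((hn.1 c).2 (Or.inr (Or.inr rfl))), ?_⟩
  ext l
  rw [Finset.mem_symmDiff, mem_labC, mem_labC, mem_labC]
  by_cases hl : l < k
  · have he := even_nbr (hC.1 ⟨l, hl⟩) v
    rw [ncard_nbr _ hn] at he
    by_cases h1 : (C ⟨l, hl⟩).Adj v a <;> by_cases h2 : (C ⟨l, hl⟩).Adj v b <;>
      by_cases h3 : (C ⟨l, hl⟩).Adj v c <;> simp [h1, h2, h3, hl] at he ⊢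
    all_goals exact absurd he (by decide)
  · simp [hl]

/-- twice the number of edges of a subgraph -/
theorem two_edges [Fintype V] {G : SimpleGraph V} (C : G.Subgraph) :
    ∑ v, (C.neighborSet v).ncard = 2 * C.edgeSet.ncard := by
  classical
  have h := C.spanningCoe.sum_degrees_eq_twice_card_edges
  have h1 : ∀ v, C.spanningCoe.degree v = (C.neighborSet v).ncard := by
    intro v
    have e : C.neighborSet v = (C.spanningCoe.neighborFinset v : Set V) := by
      ext w
      simp
    rw [e, Set.ncard_coe_finset, SimpleGraph.card_neighborFinset_eq_degree]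
  have h2 : C.spanningCoe.edgeFinset.card = C.edgeSet.ncard := by
    have e : C.edgeSet = (C.spanningCoe.edgeFinset : Set (Sym2 V)) := by
      rw [SimpleGraph.coe_edgeFinset, SimpleGraph.Subgraph.edgeSet_spanningCoe]
    rw [e, Set.ncard_coe_finset]
  rw [← h2, ← h]
  exact Finset.sum_congr rfl (fun v _ => (h1 v).symm)

/-- the number of edges of a cubic graph -/
theorem two_edges_cub [Fintype V] {G : SimpleGraph V} (hc : Cub G) :
    2 * G.edgeSet.ncard = 3 * Fintype.card V := by
  classical
  have h := G.sum_degrees_eq_twice_card_edges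
  have h1 : ∀ v, G.degree v = 3 := by
    intro v
    have e : G.neighborSet v = (G.neighborFinset v : Set V) := by
      ext w
      simp
    have := cub_isCubic hc v
    rw [e, Set.ncard_coe_finset, SimpleGraph.card_neighborFinset_eq_degree] at this
    exact this
  have h2 : G.edgeFinset.card = G.edgeSet.ncard := by
    have e : G.edgeSet = (G.edgeFinset : Set (Sym2 V)) := by
      rw [SimpleGraph.coe_edgeFinset]
    rw [e, Set.ncard_coe_finset]
  rw [← h2, ← h]
  simp only [h1, Finset.sum_const, Finset.card_univ, smul_eq_mul]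
  ring

open scoped Classical in
/-- the contribution of one vertex -/
theorem vertex_count {G : SimpleGraph V} (hc : Cub G) {k : ℕ} {C : Fin k → G.Subgraph}
    (hC : IsCycleCover G C) (v : V) :
    4 + 2 * (if TightAt G (labC C) v then 0 else 1) ≤ ∑ i, ((C i).neighborSet v).ncard := by
  obtain ⟨a, b, c, hn, hcr⟩ := labC_cover hc hC v
  have hsum : ∑ i, ((C i).neighborSet v).ncard =
      (labC C v a).card + (labC C v b).card + (labC C v c).card := by
    simp only [ncard_nbr _ hn, Finset.sum_add_distrib, card_labC]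
  rw [hsum]
  have h1 := hcr.1.card_pos
  have h2 := hcr.2.1.card_pos
  have h3 := hcr.2.2.1.card_pos
  obtain ⟨m, hm⟩ := card_symmDiff_parity (labC C v a) (labC C v b)
  rw [hcr.2.2.2] at hm
  by_cases ht : TightAt G (labC C) v
  · rw [if_pos ht]
    omega
  · rw [if_neg ht]
    have hne : (labC C v a).card + (labC C v b).card + (labC C v c).card ≠ 4 := by
      intro h4
      exact ht ⟨a, b, c, hn, hcr, h4⟩
    omega

/-- the length of a cycle cover in terms of the number of vertices which are not tight -/
theorem length_bound [Fintype V] {G : SimpleGraph V} (hc : Cub G) {k : ℕ} {C : Fin k → G.Subgraph}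
    (hC : IsCycleCover G C) :
    4 * Fintype.card V + 2 * {v | ¬ TightAt G (labC C) v}.ncard ≤
      2 * ∑ i, (C i).edgeSet.ncard := by
  classical
  have h1 : 2 * ∑ i, (C i).edgeSet.ncard = ∑ v, ∑ i, ((C i).neighborSet v).ncard := by
    rw [Finset.sum_comm, Finset.mul_sum]
    exact Finset.sum_congr rfl (fun i _ => (two_edges (C i)).symm)
  have h2 : ({v | ¬ TightAt G (labC C) v} : Set V).ncard =
      ∑ v, (if TightAt G (labC C) v then 0 else 1) := by
    have e : ({v | ¬ TightAt G (labC C) v} : Set V) =
        ((Finset.univ.filter (fun v => ¬ TightAt G (labC C) v) : Finset V) : Set V) := by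
      ext v
      simp
    rw [e, Set.ncard_coe_finset, Finset.card_filter]
    refine Finset.sum_congr rfl (fun v _ => ?_)
    by_cases h : TightAt G (labC C) v <;> simp [h]
  rw [h1, h2]
  have h3 := Finset.sum_le_sum (fun v (_ : v ∈ (Finset.univ : Finset V)) => vertex_count hc hC v)
  rw [Finset.sum_add_distrib, ← Finset.mul_sum] at h3
  simp only [Finset.sum_const, Finset.card_univ, smul_eq_mul] at h3
  omega

/-- every edge lies on a cycle -/
theorem exists_cycle [Fintype V] {G : SimpleGraph V} (hc : Cub G) (hcut : CutCond G)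
    {e : Sym2 V} (he : e ∈ G.edgeSet) : ∃ (u : V) (p : G.Walk u u), p.IsCycle ∧ e ∈ p.edges := by
  classical
  by_contra hno
  push Not at hno
  have hb : G.IsBridge e := (SimpleGraph.isBridge_iff_forall_cycle_notMem he).2 hno
  induction e using Sym2.ind with
  | _ x y =>
    rw [SimpleGraph.isBridge_iff] at hb
    set H := G.deleteEdges {s(x, y)} with hH
    let s : V → Bool := fun v => decide (H.Reachable x v)
    have hsx : s x = true := decide_eq_true (SimpleGraph.Reachable.refl x)
    have hsy : s y = false := decide_eq_false hb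
    have hle : cutN G s ≤ 1 := by
      unfold cutN
      have hz : ∀ v w, (if G.Adj v w ∧ s v = true ∧ s w = false then 1 else 0) ≤
          (if v = x then (if w = y then 1 else 0) else 0) := by
        intro v w
        by_cases h : G.Adj v w ∧ s v = true ∧ s w = false
        · obtain ⟨h1, h2, h3⟩ := h
          have h2' : H.Reachable x v := of_decide_eq_true h2
          have h3' : ¬ H.Reachable x w := of_decide_eq_false h3
          have hna : ¬ H.Adj v w := fun ha => h3' (h2'.trans ha.reachable)
          rw [hH, SimpleGraph.deleteEdges_adj] at hna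
          have hin : s(v, w) = s(x, y) := by
            by_contra hne
            exact hna ⟨h1, hne⟩
          rcases Sym2.eq_iff.1 hin with ⟨e1, e2⟩ | ⟨e1, e2⟩
          · rw [if_pos e1, if_pos e2]
            split_ifs <;> omega
          · rw [e1, hsy] at h2
            cases h2
        · rw [if_neg h]
          exact Nat.zero_le _
      refine (Finset.sum_le_sum (fun v _ => Finset.sum_le_sum (fun w _ => hz v w))).trans ?_
      have : ∀ v, (∑ w, if v = x then (if w = y then 1 else 0) else 0) =
          if v = x then 1 else 0 := by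
        intro v
        by_cases h : v = x
        · simp [h]
        · simp [h]
      simp_rw [this]
      simp
    by_cases hA : ∃ a b, a ≠ b ∧ s a = true ∧ s b = true
    · by_cases hB : ∃ a b, a ≠ b ∧ s a = false ∧ s b = false
      · have := hcut s hA hB
        omega
      · have h3 : cutN G (fun v => !s v) = 3 := by
          refine cutN_single hc _ y (by simp only [hsy]; rfl) (fun w hw => ?_)
          by_contra hne
          refine hB ⟨w, y, hw, ?_, hsy⟩
          simpa using hne
        rw [cutN_not] at h3
        omega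
    · have h3 : cutN G s = 3 := by
        refine cutN_single hc _ x hsx (fun w hw => ?_)
        by_contra hne
        refine hA ⟨w, x, hw, ?_, hsx⟩
        simpa using hne
      omega

/-- there is a cycle cover -/
theorem exists_cover [Fintype V] {G : SimpleGraph V} (hc : Cub G) (hcut : CutCond G) :
    ∃ (k : ℕ) (C : Fin k → G.Subgraph), IsCycleCover G C := by
  classical
  choose u p hp hmem using fun e : G.edgeSet => exists_cycle hc hcut e.2
  let φ := (Fintype.equivFin G.edgeSet).symm
  refine ⟨Fintype.card G.edgeSet, fun i => (p (φ i)).toSubgraph, fun i => ⟨?_, ?_⟩, ?_⟩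
  · exact (p (φ i)).toSubgraph_connected
  · intro v hv
    rw [(hp (φ i)).ncard_neighborSet_toSubgraph_eq_two
      ((SimpleGraph.Walk.mem_verts_toSubgraph _).1 hv)]
    exact ⟨1, rfl⟩
  · intro e he
    refine ⟨φ.symm ⟨e, he⟩, ?_⟩
    show e ∈ (p (φ (φ.symm ⟨e, he⟩))).toSubgraph.edgeSet
    rw [Equiv.apply_symm_apply]
    exact (SimpleGraph.Walk.mem_edges_toSubgraph _).2 (hmem ⟨e, he⟩)

/-- the lower bound for the length of a shortest cycle cover -/
theorem scc_bound [Fintype V] {G : SimpleGraph V} (hc : Cub G) (hcut : CutCond G) (n : ℕ)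
    (hn : ∀ L : V → V → Finset ℕ, (∀ v w, L v w = L w v) → (∀ v, CoverAt G L v) →
      n ≤ {v | ¬ TightAt G L v}.ncard) :
    (4 / 3 : ℚ) * G.edgeSet.ncard + n ≤ scc G := by
  have hmem : scc G ∈ {n | ∃ (k : ℕ) (C : Fin k → G.Subgraph), IsCycleCover G C ∧
      n = ∑ i, (C i).edgeSet.ncard} := by
    refine Nat.sInf_mem ?_
    obtain ⟨k, C, hC⟩ := exists_cover hc hcut
    exact ⟨_, k, C, hC, rfl⟩
  obtain ⟨k, C, hC, he⟩ := hmem
  have h1 := length_bound hc hC
  have h2 := hn (labC C) (labC_symm C) (labC_cover hc hC)
  have h3 := two_edges_cub hc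
  rw [← he] at h1
  have h1' : (4 * Fintype.card V + 2 * n : ℚ) ≤ 2 * scc G := by
    have : 4 * Fintype.card V + 2 * n ≤ 2 * scc G := by omega
    exact_mod_cast this
  have h3' : (2 * G.edgeSet.ncard : ℚ) = 3 * Fintype.card V := by exact_mod_cast h3
  linarith

end Pool.Agent.MP_dce662
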