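import Pool.Agent.MP_dce662.WindCut

/-!
The windmill satisfies the cut condition.
-/

set_option autoImplicit false

namespace Pool.Agent.MP_dce662

open Finset

/-- mismatches at one pole with constant value `σ` -/
def arm (σ a b a' b' : Bool) : ℕ := mm σ a + mm σ b + mm σ a' + mm σ b'

/-- mismatches in the hub -/
def tree (u a0 a1 a2 b0 b1 b2 c0 c1 c2 : Bool) : ℕ :=
  (mm c0 a0 + mm c0 b0 + mm c0 u) + (mm c1 a1 + mm c1 b1 + mm c1 u) +
    (mm c2 a2 + mm c2 b2 + mm c2 u)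

/-- number of hub vertices with value different from `t` -/
def cnt (t u a0 a1 a2 b0 b1 b2 c0 c1 c2 : Bool) : ℕ :=
  mm u t + (mm a0 t + mm a1 t + mm a2 t) + (mm b0 t + mm b1 t + mm b2 t) +
    (mm c0 t + mm c1 t + mm c2 t)

theorem coreA : ∀ σ0 σ1 σ2 u a0 a1 a2 b0 b1 b2 c0 c1 c2 : Bool,
    (Nat.ble 4 (arm σ0 a2 b2 a1 b1 + arm σ1 a0 b0 a2 b2 + arm σ2 a1 b1 a0 b0 +
      tree u a0 a1 a2 b0 b1 b2 c0 c1 c2) ||
      (σ1 == σ0 && σ2 == σ0 && Nat.ble (cnt σ0 u a0 a1 a2 b0 b1 b2 c0 c1 c2) 1)) = true := by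
  decide +kernel

theorem coreB0 : ∀ σ1 σ2 u a0 a1 a2 b0 b1 b2 c0 c1 c2 : Bool,
    (Nat.ble 2 (arm σ1 a0 b0 a2 b2 + arm σ2 a1 b1 a0 b0 +
      tree u a0 a1 a2 b0 b1 b2 c0 c1 c2) ||
      (σ1 == u && σ2 == u && Nat.ble (cnt u u a0 a1 a2 b0 b1 b2 c0 c1 c2) 0)) = true := by
  decide +kernel

theorem coreB1 : ∀ σ0 σ2 u a0 a1 a2 b0 b1 b2 c0 c1 c2 : Bool,
    (Nat.ble 2 (arm σ0 a2 b2 a1 b1 + arm σ2 a1 b1 a0 b0 +
      tree u a0 a1 a2 b0 b1 b2 c0 c1 c2) ||
      (σ0 == u && σ2 == u && Nat.ble (cnt u u a0 a1 a2 b0 b1 b2 c0 c1 c2) 0)) = true := by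
  decide +kernel

theorem coreB2 : ∀ σ0 σ1 u a0 a1 a2 b0 b1 b2 c0 c1 c2 : Bool,
    (Nat.ble 2 (arm σ0 a2 b2 a1 b1 + arm σ1 a0 b0 a2 b2 +
      tree u a0 a1 a2 b0 b1 b2 c0 c1 c2) ||
      (σ0 == u && σ1 == u && Nat.ble (cnt u u a0 a1 a2 b0 b1 b2 c0 c1 c2) 0)) = true := by
  decide +kernel

variable {V : Type} [Fintype V] {R : Rooted V}

omit [Fintype V] in
/-- hub count as a sum -/
theorem cnt_eq (s : WV R → Bool) (t : Bool) :
    cnt t (s (hub R Hub.u)) (s (hub R (Hub.a 0))) (s (hub R (Hub.a 1))) (s (hub R (Hub.a 2)))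
      (s (hub R (Hub.b 0))) (s (hub R (Hub.b 1))) (s (hub R (Hub.b 2)))
      (s (hub R (Hub.c 0))) (s (hub R (Hub.c 1))) (s (hub R (Hub.c 2))) =
      ∑ k : Hub, mm (s (hub R k)) t := by
  rw [sum_hub]
  rfl

theorem mm_ne {a b : Bool} (h : a ≠ b) : mm a b = 1 := by
  revert h
  cases a <;> cases b <;> decide

omit [Fintype V] in
theorem two_hub (s : WV R → Bool) (t : Bool) {k l : Hub} (hkl : k ≠ l) (hk : s (hub R k) ≠ t)
    (hl : s (hub R l) ≠ t) : 2 ≤ ∑ k : Hub, mm (s (hub R k)) t := by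
  have h1 : ∑ k ∈ ({k, l} : Finset Hub), mm (s (hub R k)) t ≤ ∑ k : Hub, mm (s (hub R k)) t :=
    Finset.sum_le_sum_of_subset (Finset.subset_univ _)
  rw [Finset.sum_pair hkl, mm_ne hk, mm_ne hl] at h1
  exact h1

omit [Fintype V] in
theorem one_hub (s : WV R → Bool) (t : Bool) {k : Hub} (hk : s (hub R k) ≠ t) :
    1 ≤ ∑ k : Hub, mm (s (hub R k)) t := by
  have h1 : ∑ k ∈ ({k} : Finset Hub), mm (s (hub R k)) t ≤ ∑ k : Hub, mm (s (hub R k)) t :=
    Finset.sum_le_sum_of_subset (Finset.subset_univ _)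
  rw [Finset.sum_singleton, mm_ne hk] at h1
  exact h1

open scoped Classical in
theorem cutCond_wind (hR : R.Labelled) (hc : Cub R.G) (hcut : CutCond R.G)
    (htri : ∀ u v w, R.G.Adj u v → R.G.Adj v w → R.G.Adj w u → False) : CutCond (WG R) := by
  intro s hA hB
  by_contra hlt
  rw [not_le] at hlt
  have hw := wind_cut hR hc s
  rw [hw] at hlt
  have x0n := x0_ne hR
  have x1n := x1_ne hR
  have y0n := y0_ne hR
  have y1n := y1_ne hR
  -- two vertices with value different from `t`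
  have htwo : ∀ t : Bool, ∃ p q : WV R, p ≠ q ∧ s p ≠ t ∧ s q ≠ t := by
    intro t
    cases t with
    | false =>
      obtain ⟨a, b, hab, ha, hb⟩ := hA
      exact ⟨a, b, hab, by rw [ha]; decide, by rw [hb]; decide⟩
    | true =>
      obtain ⟨a, b, hab, ha, hb⟩ := hB
      exact ⟨a, b, hab, by rw [ha]; decide, by rw [hb]; decide⟩
  have hcases : ∀ i, (∃ σ : Bool, ∀ v, v ≠ R.x → v ≠ R.y → rs s i v = σ) ∨
      2 ≤ inCut R (rs s i) := by
    intro i
    rcases pole_cases hR hc hcut htri (rs s i) with h | h | h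
    · exact Or.inl ⟨false, h⟩
    · exact Or.inl ⟨true, h⟩
    · exact Or.inr h
  -- if all vertices outside of the `i`-th pole have value `t`
  have hconst : ∀ (i : Fin 3) (t : Bool), (∀ k, s (hub R k) = t) →
      (∀ j, j ≠ i → ∀ v, v ≠ R.x → v ≠ R.y → rs s j v = t) →
      4 ≤ inCut R (rs s i) + (mm (rs s i R.x0) t + mm (rs s i R.x1) t) +
        (mm (rs s i R.y0) t + mm (rs s i R.y1) t) := by
    intro i t hhub hj
    apply pole_const hR hcut (rs s i) t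
    have hloc : ∀ p : WV R, s p ≠ t → ∃ (v : V) (hx : v ≠ R.x) (hy : v ≠ R.y),
        p = inn R i v hx hy := by
      intro p hp
      rcases p with ⟨j, ⟨v, hx, hy⟩⟩ | k
      · by_cases hji : j = i
        · subst hji
          exact ⟨v, hx, hy, rfl⟩
        · exfalso
          apply hp
          rw [← hj j hji v hx hy, rs_eq s j hx hy]
      · exact absurd (hhub k) hp
    obtain ⟨p, q, hpq, hp, hq⟩ := htwo t
    obtain ⟨v, hx, hy, rfl⟩ := hloc p hp
    obtain ⟨w, hx', hy', rfl⟩ := hloc q hq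
    refine ⟨v, w, ?_, hx, hy, hx', hy', ?_, ?_⟩
    · rintro rfl
      exact hpq rfl
    · rw [rs_eq s i hx hy]
      exact hp
    · rw [rs_eq s i hx' hy']
      exact hq
  have hub0 : ∀ t : Bool, (∑ k : Hub, mm (s (hub R k)) t) ≤ 0 → ∀ k, s (hub R k) = t := by
    intro t h k
    by_contra hne
    have := one_hub s t hne
    omega
  rcases hcases 0 with ⟨σ0, h0⟩ | h0 <;> rcases hcases 1 with ⟨σ1, h1⟩ | h1 <;>
    rcases hcases 2 with ⟨σ2, h2⟩ | h2
  · -- all trivial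
    rw [h0 _ x0n.1 x0n.2, h0 _ x1n.1 x1n.2, h0 _ y0n.1 y0n.2, h0 _ y1n.1 y1n.2,
      h1 _ x0n.1 x0n.2, h1 _ x1n.1 x1n.2, h1 _ y0n.1 y0n.2, h1 _ y1n.1 y1n.2,
      h2 _ x0n.1 x0n.2, h2 _ x1n.1 x1n.2, h2 _ y0n.1 y0n.2, h2 _ y1n.1 y1n.2] at hlt
    have hcore := coreA σ0 σ1 σ2 (s (hub R Hub.u)) (s (hub R (Hub.a 0))) (s (hub R (Hub.a 1)))
      (s (hub R (Hub.a 2))) (s (hub R (Hub.b 0))) (s (hub R (Hub.b 1))) (s (hub R (Hub.b 2)))
      (s (hub R (Hub.c 0))) (s (hub R (Hub.c 1))) (s (hub R (Hub.c 2)))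
    rw [Bool.or_eq_true, Nat.ble_eq] at hcore
    rcases hcore with hcore | hcore
    · unfold arm tree at hcore
      omega
    · rw [Bool.and_eq_true, Bool.and_eq_true, beq_iff_eq, beq_iff_eq, Nat.ble_eq, cnt_eq] at hcore
      obtain ⟨⟨rfl, rfl⟩, hcnt⟩ := hcore
      obtain ⟨p, q, hpq, hp, hq⟩ := htwo σ2
      have hloc : ∀ p : WV R, s p ≠ σ2 → ∃ k, p = hub R k := by
        intro p hp
        rcases p with ⟨j, ⟨v, hx, hy⟩⟩ | k
        · exfalso
          apply hp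
          have : rs s j v = σ2 := by
            fin_cases j
            · exact h0 v hx hy
            · exact h1 v hx hy
            · exact h2 v hx hy
          rw [← this, rs_eq s j hx hy]
        · exact ⟨k, rfl⟩
      obtain ⟨k, rfl⟩ := hloc p hp
      obtain ⟨l, rfl⟩ := hloc q hq
      have := two_hub s σ2 (fun e => hpq (by rw [e])) hp hq
      omega
  · -- pole 2
    rw [h0 _ x0n.1 x0n.2, h0 _ x1n.1 x1n.2, h0 _ y0n.1 y0n.2, h0 _ y1n.1 y1n.2,
      h1 _ x0n.1 x0n.2, h1 _ x1n.1 x1n.2, h1 _ y0n.1 y0n.2, h1 _ y1n.1 y1n.2] at hlt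
    have hcore := coreB2 σ0 σ1 (s (hub R Hub.u)) (s (hub R (Hub.a 0))) (s (hub R (Hub.a 1)))
      (s (hub R (Hub.a 2))) (s (hub R (Hub.b 0))) (s (hub R (Hub.b 1))) (s (hub R (Hub.b 2)))
      (s (hub R (Hub.c 0))) (s (hub R (Hub.c 1))) (s (hub R (Hub.c 2)))
    rw [Bool.or_eq_true, Nat.ble_eq] at hcore
    rcases hcore with hcore | hcore
    · unfold arm tree at hcore
      omega
    · rw [Bool.and_eq_true, Bool.and_eq_true, beq_iff_eq, beq_iff_eq, Nat.ble_eq, cnt_eq] at hcore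
      obtain ⟨⟨rfl, rfl⟩, hcnt⟩ := hcore
      have hk := hub0 _ hcnt
      have h4 := hconst 2 (s (hub R Hub.u)) hk (by
        intro j hj v hx hy
        fin_cases j
        · exact h0 v hx hy
        · exact h1 v hx hy
        · exact absurd rfl hj)
      rw [hk (Hub.a 0), hk (Hub.a 1), hk (Hub.b 0), hk (Hub.b 1)] at hlt
      omega
  · -- pole 1
    rw [h0 _ x0n.1 x0n.2, h0 _ x1n.1 x1n.2, h0 _ y0n.1 y0n.2, h0 _ y1n.1 y1n.2,
      h2 _ x0n.1 x0n.2, h2 _ x1n.1 x1n.2, h2 _ y0n.1 y0n.2, h2 _ y1n.1 y1n.2] at hlt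
    have hcore := coreB1 σ0 σ2 (s (hub R Hub.u)) (s (hub R (Hub.a 0))) (s (hub R (Hub.a 1)))
      (s (hub R (Hub.a 2))) (s (hub R (Hub.b 0))) (s (hub R (Hub.b 1))) (s (hub R (Hub.b 2)))
      (s (hub R (Hub.c 0))) (s (hub R (Hub.c 1))) (s (hub R (Hub.c 2)))
    rw [Bool.or_eq_true, Nat.ble_eq] at hcore
    rcases hcore with hcore | hcore
    · unfold arm tree at hcore
      omega
    · rw [Bool.and_eq_true, Bool.and_eq_true, beq_iff_eq, beq_iff_eq, Nat.ble_eq, cnt_eq] at hcore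
      obtain ⟨⟨rfl, rfl⟩, hcnt⟩ := hcore
      have hk := hub0 _ hcnt
      have h4 := hconst 1 (s (hub R Hub.u)) hk (by
        intro j hj v hx hy
        fin_cases j
        · exact h0 v hx hy
        · exact absurd rfl hj
        · exact h2 v hx hy)
      rw [hk (Hub.a 0), hk (Hub.a 2), hk (Hub.b 0), hk (Hub.b 2)] at hlt
      omega
  · omega
  · -- pole 0
    rw [h1 _ x0n.1 x0n.2, h1 _ x1n.1 x1n.2, h1 _ y0n.1 y0n.2, h1 _ y1n.1 y1n.2,
      h2 _ x0n.1 x0n.2, h2 _ x1n.1 x1n.2, h2 _ y0n.1 y0n.2, h2 _ y1n.1 y1n.2] at hlt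
    have hcore := coreB0 σ1 σ2 (s (hub R Hub.u)) (s (hub R (Hub.a 0))) (s (hub R (Hub.a 1)))
      (s (hub R (Hub.a 2))) (s (hub R (Hub.b 0))) (s (hub R (Hub.b 1))) (s (hub R (Hub.b 2)))
      (s (hub R (Hub.c 0))) (s (hub R (Hub.c 1))) (s (hub R (Hub.c 2)))
    rw [Bool.or_eq_true, Nat.ble_eq] at hcore
    rcases hcore with hcore | hcore
    · unfold arm tree at hcore
      omega
    · rw [Bool.and_eq_true, Bool.and_eq_true, beq_iff_eq, beq_iff_eq, Nat.ble_eq, cnt_eq] at hcore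
      obtain ⟨⟨rfl, rfl⟩, hcnt⟩ := hcore
      have hk := hub0 _ hcnt
      have h4 := hconst 0 (s (hub R Hub.u)) hk (by
        intro j hj v hx hy
        fin_cases j
        · exact absurd rfl hj
        · exact h1 v hx hy
        · exact h2 v hx hy)
      rw [hk (Hub.a 1), hk (Hub.a 2), hk (Hub.b 1), hk (Hub.b 2)] at hlt
      omega
  · omega
  · omega
  · omega

/-- no triangles and no four-cycles -/
def C34 {V : Type} (G : SimpleGraph V) : Prop :=
  (∀ u v w, G.Adj u v → G.Adj v w → G.Adj w u → False) ∧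
    ∀ u v w z, u ≠ w → v ≠ z → G.Adj u v → G.Adj v w → G.Adj w z → G.Adj z u → False

theorem girth_of_c34 {V : Type} {G : SimpleGraph V} (h : C34 G) : GirthAtLeastFive G := by
  intro v w hw
  by_contra hlt
  have h3 := hw.three_le_length
  have hn := hw.support_nodup
  match w, hw, hlt, h3, hn with
  | .nil, _, _, h3, _ => simp at h3
  | .cons _ .nil, _, _, h3, _ => simp at h3
  | .cons _ (.cons _ .nil), _, _, h3, _ => simp at h3
  | .cons h1 (.cons h2 (.cons h3' .nil)), _, _, _, _ => exact h.1 _ _ _ h1 h2 h3'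
  | .cons h1 (.cons h2 (.cons h3' (.cons h4 .nil))), _, _, _, hn =>
    simp only [SimpleGraph.Walk.support_cons, SimpleGraph.Walk.support_nil, List.tail_cons,
      List.nodup_cons, List.mem_cons, List.not_mem_nil, or_false, not_or] at hn
    exact h.2 _ _ _ _ (fun e => hn.2.1.2 e.symm) (fun e => hn.1.2.1 e) h1 h2 h3' h4
  | .cons _ (.cons _ (.cons _ (.cons _ (.cons _ p)))), _, hlt, _, _ =>
    simp only [SimpleGraph.Walk.length_cons] at hlt
    omega

end Pool.Agent.MP_dce662
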