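import Mathlib

/-!
Definitions for the problem on shortest cycle covers of windmill snarks.
-/

set_option autoImplicit false

namespace Pool.Agent.MP_dce662

/-- Every vertex has exactly three neighbours. -/
def IsCubic {V : Type} (G : SimpleGraph V) : Prop := ∀ v, (G.neighborSet v).ncard = 3

/-- Every cycle has length at least five. -/
def GirthAtLeastFive {V : Type} (G : SimpleGraph V) : Prop :=
  ∀ (v : V) (w : G.Walk v v), w.IsCycle → 5 ≤ w.length

/-- There is a proper colouring of the edges with three colours. -/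
def ThreeEdgeColorable {V : Type} (G : SimpleGraph V) : Prop :=
  ∃ f : Sym2 V → Fin 3, ∀ e ∈ G.edgeSet, ∀ e' ∈ G.edgeSet, e ≠ e' →
    (∃ v, v ∈ e ∧ v ∈ e') → f e ≠ f e'

/-- The edges with exactly one end in `S`. -/
def edgeCut {V : Type} (G : SimpleGraph V) (S : Set V) : Set (Sym2 V) :=
  {e | e ∈ G.edgeSet ∧ ∃ u ∈ S, ∃ v ∉ S, e = s(u, v)}

/-- No edge cut with fewer than four edges separates two cycles. -/
def CyclicallyFourEdgeConnected {V : Type} (G : SimpleGraph V) : Prop :=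
  ∀ S : Set V, ¬ (G.induce S).IsAcyclic → ¬ (G.induce Sᶜ).IsAcyclic → 4 ≤ (edgeCut G S).ncard

/-- A snark. -/
def IsSnark {V : Type} (G : SimpleGraph V) : Prop :=
  IsCubic G ∧ ¬ ThreeEdgeColorable G ∧ GirthAtLeastFive G ∧ CyclicallyFourEdgeConnected G

/-- A `k`-cover: `k` distinct perfect matchings whose union contains every edge. -/
def HasMatchingCover {V : Type} (G : SimpleGraph V) (k : ℕ) : Prop :=
  ∃ M : Fin k → G.Subgraph, Function.Injective M ∧ (∀ i, (M i).IsPerfectMatching) ∧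
    ∀ e ∈ G.edgeSet, ∃ i, e ∈ (M i).edgeSet

/-- The excessive index: the least `k` such that `G` has a `k`-cover. -/
noncomputable def excessiveIndex {V : Type} (G : SimpleGraph V) : ℕ∞ :=
  sInf {k : ℕ∞ | ∃ n : ℕ, k = n ∧ HasMatchingCover G n}

/-- A cycle: a connected subgraph in which every vertex has even degree. -/
def IsCycleSubgraph {V : Type} (G : SimpleGraph V) (C : G.Subgraph) : Prop :=
  C.Connected ∧ ∀ v ∈ C.verts, Even (C.neighborSet v).ncard

/-- A finite family of cycles whose edge sets together contain every edge. -/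
def IsCycleCover {V : Type} (G : SimpleGraph V) {k : ℕ} (C : Fin k → G.Subgraph) : Prop :=
  (∀ i, IsCycleSubgraph G (C i)) ∧ ∀ e ∈ G.edgeSet, ∃ i, e ∈ (C i).edgeSet

/-- The minimum length of a cycle cover. -/
noncomputable def scc {V : Type} (G : SimpleGraph V) : ℕ :=
  sInf {n | ∃ (k : ℕ) (C : Fin k → G.Subgraph), IsCycleCover G C ∧
    n = ∑ i, (C i).edgeSet.ncard}

/-- A graph with two chosen vertices `x`, `y` and labels `x0`, `x1` (respectively `y0`, `y1`)
for the further neighbours of `x` (respectively `y`). -/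
structure Rooted (V : Type) where
  /-- the graph -/
  G : SimpleGraph V
  /-- first end of the chosen edge -/
  x : V
  /-- second end of the chosen edge -/
  y : V
  /-- neighbour of `x` with label 0 -/
  x0 : V
  /-- neighbour of `x` with label 1 -/
  x1 : V
  /-- neighbour of `y` with label 0 -/
  y0 : V
  /-- neighbour of `y` with label 1 -/
  y1 : V

/-- `xy` is an edge, `x0 ≠ x1` are the neighbours of `x` other than `y`, and
`y0 ≠ y1` are the neighbours of `y` other than `x`. -/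
def Rooted.Labelled {V : Type} (R : Rooted V) : Prop :=
  R.G.Adj R.x R.y ∧ R.x0 ≠ R.x1 ∧ R.y0 ≠ R.y1 ∧
    (∀ w, (R.G.Adj R.x w ∧ w ≠ R.y) ↔ (w = R.x0 ∨ w = R.x1)) ∧
    (∀ w, (R.G.Adj R.y w ∧ w ≠ R.x) ↔ (w = R.y0 ∨ w = R.y1))

/-- The ten new vertices `u`, `a_i`, `b_i`, `c_i`. -/
inductive Hub
  | u : Hub
  | a : Fin 3 → Hub
  | b : Fin 3 → Hub
  | c : Fin 3 → Hub
  deriving DecidableEq, Fintype

/-- The vertices of the graphs `H_i = G_i - {x_i, y_i}`. -/
abbrev Inner (V : Fin 3 → Type) (R : ∀ i, Rooted (V i)) : Type :=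
  Σ i, {v : V i // v ≠ (R i).x ∧ v ≠ (R i).y}

/-- The adjacency relation of the construction, each edge in one direction. -/
inductive Edge (V : Fin 3 → Type) (R : ∀ i, Rooted (V i)) :
    Inner V R ⊕ Hub → Inner V R ⊕ Hub → Prop
  | inner (i : Fin 3) (v w : {v : V i // v ≠ (R i).x ∧ v ≠ (R i).y}) :
      (R i).G.Adj v.1 w.1 → Edge V R (Sum.inl ⟨i, v⟩) (Sum.inl ⟨i, w⟩)
  | ax (i : Fin 3) (v : {v : V (i + 1) // v ≠ (R (i + 1)).x ∧ v ≠ (R (i + 1)).y}) :
      v.1 = (R (i + 1)).x0 → Edge V R (Sum.inr (Hub.a i)) (Sum.inl ⟨i + 1, v⟩)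
  | ay (i : Fin 3) (v : {v : V (i - 1) // v ≠ (R (i - 1)).x ∧ v ≠ (R (i - 1)).y}) :
      v.1 = (R (i - 1)).y0 → Edge V R (Sum.inr (Hub.a i)) (Sum.inl ⟨i - 1, v⟩)
  | bx (i : Fin 3) (v : {v : V (i + 1) // v ≠ (R (i + 1)).x ∧ v ≠ (R (i + 1)).y}) :
      v.1 = (R (i + 1)).x1 → Edge V R (Sum.inr (Hub.b i)) (Sum.inl ⟨i + 1, v⟩)
  | yb (i : Fin 3) (v : {v : V (i - 1) // v ≠ (R (i - 1)).x ∧ v ≠ (R (i - 1)).y}) :
      v.1 = (R (i - 1)).y1 → Edge V R (Sum.inr (Hub.b i)) (Sum.inl ⟨i - 1, v⟩)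
  | ca (i : Fin 3) : Edge V R (Sum.inr (Hub.c i)) (Sum.inr (Hub.a i))
  | cb (i : Fin 3) : Edge V R (Sum.inr (Hub.c i)) (Sum.inr (Hub.b i))
  | cu (i : Fin 3) : Edge V R (Sum.inr (Hub.c i)) (Sum.inr Hub.u)

/-- The graph `G` of the construction. -/
def windmill (V : Fin 3 → Type) (R : ∀ i, Rooted (V i)) : SimpleGraph (Inner V R ⊕ Hub) :=
  SimpleGraph.fromRel (Edge V R)

/-- The class `F`: `G` is (isomorphic to) a graph obtained by the construction from three finite
snarks with excessive index at least five. -/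
def InF {W : Type} (G : SimpleGraph W) : Prop :=
  ∃ (V : Fin 3 → Type) (R : ∀ i, Rooted (V i)),
    (∀ i, Finite (V i) ∧ (R i).Labelled ∧ IsSnark (R i).G ∧ 5 ≤ excessiveIndex (R i).G) ∧
    Nonempty (G ≃g windmill V R)

end Pool.Agent.MP_dce662
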