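import Pool.Agent.MP_dce662.Cover

/-!
The induction.
-/

set_option autoImplicit false

namespace Pool.Agent.MP_dce662

open Finset

/-- conditions kept by the recursion -/
structure Good {V : Type} [Fintype V] (R : Rooted V) : Prop where
  lab : R.Labelled
  cub : Cub R.G
  cut : CutCond R.G
  c34 : C34 R.G

theorem good_pet : Good petR := ⟨petR_labelled, pet_cub, pet_cut, pet_c34⟩

open scoped Classical in
theorem good_next {V : Type} [Fintype V] {R : Rooted V} (h : Good R) : Good (next h.lab) :=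
  ⟨next_labelled h.lab, next_cub h.lab h.cub, cutCond_wind h.lab h.cub h.cut h.c34.1,
    c34_wind h.lab h.c34⟩

open scoped Classical in
theorem card_wv {V : Type} [Fintype V] {R : Rooted V} (h : R.x ≠ R.y) :
    Fintype.card (WV R) + 2 = 3 * (Fintype.card V + 2) := by
  have h1 : Fintype.card {v : V // v ≠ R.x ∧ v ≠ R.y} + 2 = Fintype.card V := by
    rw [Fintype.card_subtype]
    have e : (Finset.univ.filter fun v => v ≠ R.x ∧ v ≠ R.y) = ({R.x, R.y} : Finset V)ᶜ := by
      ext v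
      simp
    have e2 := Finset.card_add_card_compl ({R.x, R.y} : Finset V)
    rw [Finset.card_pair h] at e2
    rw [e]
    omega
  have h2 : Fintype.card Hub = 10 := rfl
  have h3 : Fintype.card (WV R) = 3 * Fintype.card {v : V // v ≠ R.x ∧ v ≠ R.y} + 10 := by
    unfold WV Inner
    rw [Fintype.card_sum, h2, Fintype.card_sigma, Finset.sum_const, Finset.card_univ,
      Fintype.card_fin, smul_eq_mul]
  omega

theorem noZero_of_bad {V : Type} {R : Rooted V} {n : ℕ} (hn : 1 ≤ n) (hb : Bad R n) :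
    NoZero R.G := by
  rintro ⟨L, hs, ht⟩
  have h := hb L hs (fun v _ _ => by
    obtain ⟨a, b, c, hn, hv⟩ := ht v
    exact ⟨a, b, c, hn, hv.1⟩)
  have e : {v | v ≠ R.x ∧ v ≠ R.y ∧ ¬ TightAt R.G L v} = ∅ := by
    ext v
    simp only [Set.mem_empty_iff_false, iff_false]
    exact fun h' => h'.2.2 (ht v)
  rw [e, Set.ncard_empty] at h
  omega

open scoped Classical in
theorem step_dbl {V : Type} [Fintype V] {R : Rooted V} (g : Good R) (hz : NoZero R.G) :
    ∃ (V' : Type) (_ : Fintype V') (R' : Rooted V'), Good R' ∧ Dbl R' ∧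
      Fintype.card V' + 2 = 3 * (Fintype.card V + 2) :=
  ⟨_, inferInstance, next g.lab, good_next g, dbl_next g.lab g.cub hz, card_wv g.lab.1.ne⟩

open scoped Classical in
theorem step_one {V : Type} [Fintype V] {R : Rooted V} (g : Good R) (hd : Dbl R) :
    ∃ (V' : Type) (_ : Fintype V') (R' : Rooted V'), Good R' ∧ Bad R' 1 ∧
      Fintype.card V' + 2 = 3 * (Fintype.card V + 2) :=
  ⟨_, inferInstance, next g.lab, good_next g, bad_next_one g.lab g.cub hd, card_wv g.lab.1.ne⟩

open scoped Classical in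
theorem step_three {V : Type} [Fintype V] {R : Rooted V} (g : Good R) {n : ℕ} (hb : Bad R n) :
    ∃ (V' : Type) (_ : Fintype V') (R' : Rooted V'), Good R' ∧ Bad R' (3 * n) ∧
      Fintype.card V' + 2 = 3 * (Fintype.card V + 2) :=
  ⟨_, inferInstance, next g.lab, good_next g, bad_next g.lab g.cub hb, card_wv g.lab.1.ne⟩

theorem exists_good (m : ℕ) : ∃ (V : Type) (_ : Fintype V) (R : Rooted V),
    Good R ∧ Bad R (3 ^ m) ∧ Fintype.card V + 2 = 108 * 3 ^ m := by
  induction m with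
  | zero =>
    obtain ⟨V1, _, R1, g1, d1, c1⟩ := step_dbl good_pet pet_noZero
    obtain ⟨V2, i2, R2, g2, b2, c2⟩ := step_one g1 d1
    refine ⟨V2, i2, R2, g2, b2, ?_⟩
    rw [c2, c1, Fintype.card_fin]
    norm_num
  | succ m ih =>
    obtain ⟨V, _, R, g, b, c⟩ := ih
    obtain ⟨V', i', R', g', b', c'⟩ := step_three g b
    refine ⟨V', i', R', g', ?_, ?_⟩
    · rw [pow_succ, mul_comm]
      exact b'
    · rw [c', c, pow_succ]
      ring

theorem snark_of_good {V : Type} [Fintype V] {R : Rooted V} (g : Good R) (hz : NoZero R.G) :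
    IsSnark R.G :=
  ⟨cub_isCubic g.cub, not_three g.cub hz, girth_of_c34 g.c34, cyc4 g.cut⟩

open scoped Classical in
theorem main (c : ℕ) : ∃ (W : Type) (_ : Finite W) (G : SimpleGraph W),
    InF G ∧ (4 / 3 : ℚ) * G.edgeSet.ncard + c ≤ scc G ∧
      (4 / 3 + 1 / 162 : ℚ) * G.edgeSet.ncard ≤ scc G := by
  obtain ⟨V, _, R, g, b, hcard⟩ := exists_good c
  have hpow : 1 ≤ 3 ^ c := Nat.one_le_pow _ _ (by norm_num)
  have hz : NoZero R.G := noZero_of_bad hpow b
  have g' := good_next g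
  have b' : Bad (next g.lab) (3 * 3 ^ c) := bad_next g.lab g.cub b
  have hkey : (4 / 3 : ℚ) * (WG R).edgeSet.ncard + (3 * 3 ^ c : ℕ) ≤ scc (WG R) := by
    refine scc_bound g'.cub g'.cut (3 * 3 ^ c) (fun L hs hcov => ?_)
    have h := b' L hs (fun v _ _ => hcov v)
    have hsub : {v | v ≠ (next g.lab).x ∧ v ≠ (next g.lab).y ∧ ¬ TightAt (next g.lab).G L v} ⊆
        {v | ¬ TightAt (next g.lab).G L v} := fun v hv => hv.2.2
    have h2 := Set.ncard_le_ncard hsub (Set.toFinite _)
    have h3 : 3 * 3 ^ c ≤ {v | ¬ TightAt (next g.lab).G L v}.ncard := by omega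
    exact h3
  have hE : 2 * (WG R).edgeSet.ncard = 3 * Fintype.card (WV R) := two_edges_cub g'.cub
  have hW : Fintype.card (WV R) + 2 = 3 * (Fintype.card V + 2) := card_wv g.lab.1.ne
  rw [hcard] at hW
  refine ⟨WV R, inferInstance, WG R, ⟨fun _ => V, fun _ => R, fun _ => ⟨inferInstance, g.lab,
    snark_of_good g hz, five_le g.cub hz⟩, ⟨SimpleGraph.Iso.refl⟩⟩, ?_, ?_⟩
  · have hlt : c < 3 ^ c := Nat.lt_pow_self (by norm_num)
    have : (c : ℚ) ≤ ((3 * 3 ^ c : ℕ) : ℚ) := by
      have : c ≤ 3 * 3 ^ c := by omega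
      exact_mod_cast this
    linarith
  · have h1 : (WG R).edgeSet.ncard ≤ 162 * (3 * 3 ^ c) := by omega
    have h2 : ((WG R).edgeSet.ncard : ℚ) ≤ 162 * ((3 * 3 ^ c : ℕ) : ℚ) := by exact_mod_cast h1
    linarith

end Pool.Agent.MP_dce662
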