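import Pool.Agent.MP_dce662.CutFinal

/-!
The windmill has no triangles and no four-cycles.
-/

set_option autoImplicit false

namespace Pool.Agent.MP_dce662

variable {V : Type} {R : Rooted V}

/-- adjacency in the hub -/
def hadj : Hub → Hub → Bool
  | Hub.c i, Hub.a j => decide (i = j)
  | Hub.c i, Hub.b j => decide (i = j)
  | Hub.c _, Hub.u => true
  | Hub.a i, Hub.c j => decide (i = j)
  | Hub.b i, Hub.c j => decide (i = j)
  | Hub.u, Hub.c _ => true
  | _, _ => false

theorem hub_adj {k l : Hub} (h : (WG R).Adj (hub R k) (hub R l)) : hadj k l = true := by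
  rw [adj_iff] at h
  rcases h with h | h
  · generalize hp : hub R k = p at h
    generalize hq : hub R l = q at h
    cases h with
    | inner j v w h => cases hp
    | ax j v h => cases hq
    | ay j v h => cases hq
    | bx j v h => cases hq
    | yb j v h => cases hq
    | ca j =>
      have := Sum.inr_injective hp
      have := Sum.inr_injective hq
      subst k l
      simp [hadj]
    | cb j =>
      have := Sum.inr_injective hp
      have := Sum.inr_injective hq
      subst k l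
      simp [hadj]
    | cu j =>
      have := Sum.inr_injective hp
      have := Sum.inr_injective hq
      subst k l
      simp [hadj]
  · generalize hp : hub R k = p at h
    generalize hq : hub R l = q at h
    cases h with
    | inner j v w h => cases hp
    | ax j v h => cases hp
    | ay j v h => cases hp
    | bx j v h => cases hp
    | yb j v h => cases hp
    | ca j =>
      have := Sum.inr_injective hp
      have := Sum.inr_injective hq
      subst k l
      simp [hadj]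
    | cb j =>
      have := Sum.inr_injective hp
      have := Sum.inr_injective hq
      subst k l
      simp [hadj]
    | cu j =>
      have := Sum.inr_injective hp
      have := Sum.inr_injective hq
      subst k l
      simp [hadj]

theorem hadj_tri : ∀ k l m : Hub, hadj k l = true → hadj l m = true → hadj m k = true → False := by
  decide +kernel

theorem hadj_c4 : ∀ k l m n : Hub, k ≠ m → l ≠ n → hadj k l = true → hadj l m = true →
    hadj m n = true → hadj n k = true → False := by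
  decide +kernel

theorem inn_inn (hR : R.Labelled) {i j : Fin 3} {v w : V} {hx : v ≠ R.x} {hy : v ≠ R.y}
    {hx' : w ≠ R.x} {hy' : w ≠ R.y} (h : (WG R).Adj (inn R i v hx hy) (inn R j w hx' hy')) :
    i = j ∧ R.G.Adj v w := by
  rw [adj_inn hR] at h
  obtain ⟨w', hw, he⟩ := h
  by_cases h1 : w' = R.x
  · exfalso
    subst h1
    by_cases h2 : v = R.x0
    · rw [tau_x h2] at he
      cases he
    · rw [tau_x' h2] at he
      cases he
  · by_cases h1' : w' = R.y
    · exfalso
      subst h1'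
      by_cases h2 : v = R.y0
      · rw [tau_y hR.1.ne' h2] at he
        cases he
      · rw [tau_y' hR.1.ne' h2] at he
        cases he
    · rw [tau_inn h1 h1'] at he
      obtain ⟨rfl, rfl⟩ := inn_inj he
      exact ⟨rfl, hw⟩

/-- shape of the hub neighbours of the `i`-th pole -/
theorem inn_hub (hR : R.Labelled) {i : Fin 3} {v : V} {hx : v ≠ R.x} {hy : v ≠ R.y} {k : Hub}
    (h : (WG R).Adj (inn R i v hx hy) (hub R k)) :
    (R.G.Adj v R.x ∧ ((v = R.x0 ∧ k = Hub.a (i - 1)) ∨ (v = R.x1 ∧ k = Hub.b (i - 1)))) ∨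
    (R.G.Adj v R.y ∧ ((v = R.y0 ∧ k = Hub.a (i + 1)) ∨ (v = R.y1 ∧ k = Hub.b (i + 1)))) := by
  have nx := hR.n3x
  have ny := hR.n3y
  rw [adj_inn hR] at h
  obtain ⟨w', hw, he⟩ := h
  by_cases h1 : w' = R.x
  · left
    subst h1
    refine ⟨hw, ?_⟩
    by_cases h2 : v = R.x0
    · rw [tau_x h2] at he
      exact Or.inl ⟨h2, Sum.inr_injective he⟩
    · rw [tau_x' h2] at he
      refine Or.inr ⟨?_, Sum.inr_injective he⟩
      rcases (nx.1 v).1 hw.symm with h | h | h
      · exact absurd h hy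
      · exact absurd h h2
      · exact h
  · by_cases h1' : w' = R.y
    · right
      subst h1'
      refine ⟨hw, ?_⟩
      by_cases h2 : v = R.y0
      · rw [tau_y hR.1.ne' h2] at he
        exact Or.inl ⟨h2, Sum.inr_injective he⟩
      · rw [tau_y' hR.1.ne' h2] at he
        refine Or.inr ⟨?_, Sum.inr_injective he⟩
        rcases (ny.1 v).1 hw.symm with h | h | h
        · exact absurd h hx
        · exact absurd h h2
        · exact h
    · rw [tau_inn h1 h1'] at he
      cases he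

theorem inn_hub_unique (hR : R.Labelled)
    (htri : ∀ u v w, R.G.Adj u v → R.G.Adj v w → R.G.Adj w u → False)
    {i : Fin 3} {v : V} {hx : v ≠ R.x} {hy : v ≠ R.y} {k l : Hub}
    (h : (WG R).Adj (inn R i v hx hy) (hub R k)) (h' : (WG R).Adj (inn R i v hx hy) (hub R l)) :
    k = l := by
  have d5 := hR.2.1
  have d6 := hR.2.2.1
  rcases inn_hub hR h with ⟨h1, h2⟩ | ⟨h1, h2⟩ <;> rcases inn_hub hR h' with ⟨h3, h4⟩ | ⟨h3, h4⟩
  · rcases h2 with ⟨e1, rfl⟩ | ⟨e1, rfl⟩ <;> rcases h4 with ⟨e2, rfl⟩ | ⟨e2, rfl⟩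
    · rfl
    · exact absurd (e1.symm.trans e2) d5
    · exact absurd (e2.symm.trans e1) d5
    · rfl
  · exact (htri _ _ _ h1 hR.1 h3.symm).elim
  · exact (htri _ _ _ h1 hR.1.symm h3.symm).elim
  · rcases h2 with ⟨e1, rfl⟩ | ⟨e1, rfl⟩ <;> rcases h4 with ⟨e2, rfl⟩ | ⟨e2, rfl⟩
    · rfl
    · exact absurd (e1.symm.trans e2) d6
    · exact absurd (e2.symm.trans e1) d6
    · rfl

theorem hub_inn_unique (hR : R.Labelled)
    {i : Fin 3} {v w : V} {hx : v ≠ R.x} {hy : v ≠ R.y} {hx' : w ≠ R.x} {hy' : w ≠ R.y} {k : Hub}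
    (h : (WG R).Adj (inn R i v hx hy) (hub R k)) (h' : (WG R).Adj (inn R i w hx' hy') (hub R k)) :
    v = w := by
  have hsa : i - 1 ≠ i + 1 := sub_ne_add i
  rcases inn_hub hR h with ⟨-, ⟨e1, r1⟩ | ⟨e1, r1⟩⟩ | ⟨-, ⟨e1, r1⟩ | ⟨e1, r1⟩⟩ <;>
    rcases inn_hub hR h' with ⟨-, ⟨e2, r2⟩ | ⟨e2, r2⟩⟩ | ⟨-, ⟨e2, r2⟩ | ⟨e2, r2⟩⟩ <;>
    first
    | exact e1.trans e2.symm
    | (exfalso
       rw [r1] at r2
       first
       | exact hsa (Hub.a.inj r2)
       | exact hsa (Hub.a.inj r2).symm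
       | exact hsa (Hub.b.inj r2)
       | exact hsa (Hub.b.inj r2).symm
       | cases r2)

theorem attach_not_adj (hR : R.Labelled)
    {i : Fin 3} {v w : V} {hx : v ≠ R.x} {hy : v ≠ R.y} {hx' : w ≠ R.x} {hy' : w ≠ R.y} {k l : Hub}
    (h : (WG R).Adj (inn R i v hx hy) (hub R k)) (h' : (WG R).Adj (inn R i w hx' hy') (hub R l))
    (hkl : (WG R).Adj (hub R k) (hub R l)) : False := by
  have := hub_adj hkl
  rcases inn_hub hR h with ⟨-, ⟨e1, r1⟩ | ⟨e1, r1⟩⟩ | ⟨-, ⟨e1, r1⟩ | ⟨e1, r1⟩⟩ <;>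
    rcases inn_hub hR h' with ⟨-, ⟨e2, r2⟩ | ⟨e2, r2⟩⟩ | ⟨-, ⟨e2, r2⟩ | ⟨e2, r2⟩⟩ <;>
    (rw [r1, r2] at this; simp [hadj] at this)

theorem c34_wind (hR : R.Labelled) (h34 : C34 R.G) : C34 (WG R) := by
  obtain ⟨htri, hc4⟩ := h34
  constructor
  · intro u v w huv hvw hwu
    rcases u with ⟨i, ⟨u, ux, uy⟩⟩ | k <;> rcases v with ⟨j, ⟨v, vx, vy⟩⟩ | l <;>
      rcases w with ⟨m, ⟨w, wx, wy⟩⟩ | n
    · obtain ⟨rfl, h1⟩ := inn_inn hR (hx := ux) (hy := uy) (hx' := vx) (hy' := vy) huv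
      obtain ⟨rfl, h2⟩ := inn_inn hR (hx := vx) (hy := vy) (hx' := wx) (hy' := wy) hvw
      obtain ⟨-, h3⟩ := inn_inn hR (hx := wx) (hy := wy) (hx' := ux) (hy' := uy) hwu
      exact htri _ _ _ h1 h2 h3
    · obtain ⟨rfl, h1⟩ := inn_inn hR (hx := ux) (hy := uy) (hx' := vx) (hy' := vy) huv
      exact h1.ne (hub_inn_unique hR (hx := ux) (hy := uy) (hx' := vx) (hy' := vy) hwu.symm hvw)
    · obtain ⟨rfl, h1⟩ := inn_inn hR (hx := wx) (hy := wy) (hx' := ux) (hy' := uy) hwu
      exact h1.ne (hub_inn_unique hR (hx := wx) (hy := wy) (hx' := ux) (hy' := uy) hvw.symm huv)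
    · exact hvw.ne (congrArg _ (inn_hub_unique hR htri (hx := ux) (hy := uy) huv hwu.symm))
    · obtain ⟨rfl, h1⟩ := inn_inn hR (hx := vx) (hy := vy) (hx' := wx) (hy' := wy) hvw
      exact h1.ne (hub_inn_unique hR (hx := vx) (hy := vy) (hx' := wx) (hy' := wy) huv.symm hwu)
    · exact hwu.ne (congrArg _ (inn_hub_unique hR htri (hx := vx) (hy := vy) hvw huv.symm))
    · exact huv.ne (congrArg _ (inn_hub_unique hR htri (hx := wx) (hy := wy) hwu hvw.symm))
    · exact hadj_tri k l n (hub_adj huv) (hub_adj hvw) (hub_adj hwu)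
  · intro u v w z huw hvz huv hvw hwz hzu
    rcases u with ⟨i, ⟨u, ux, uy⟩⟩ | k <;> rcases v with ⟨j, ⟨v, vx, vy⟩⟩ | l <;>
      rcases w with ⟨m, ⟨w, wx, wy⟩⟩ | n <;> rcases z with ⟨o, ⟨z, zx, zy⟩⟩ | p
    · -- iiii
      obtain ⟨rfl, h1⟩ := inn_inn hR (hx := ux) (hy := uy) (hx' := vx) (hy' := vy) huv
      obtain ⟨rfl, h2⟩ := inn_inn hR (hx := vx) (hy := vy) (hx' := wx) (hy' := wy) hvw
      obtain ⟨rfl, h3⟩ := inn_inn hR (hx := wx) (hy := wy) (hx' := zx) (hy' := zy) hwz
      obtain ⟨-, h4⟩ := inn_inn hR (hx := zx) (hy := zy) (hx' := ux) (hy' := uy) hzu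
      refine hc4 u v w z ?_ ?_ h1 h2 h3 h4
      · rintro rfl
        exact huw rfl
      · rintro rfl
        exact hvz rfl
    · -- iiih
      obtain ⟨rfl, h1⟩ := inn_inn hR (hx := ux) (hy := uy) (hx' := vx) (hy' := vy) huv
      obtain ⟨rfl, h2⟩ := inn_inn hR (hx := vx) (hy := vy) (hx' := wx) (hy' := wy) hvw
      have := hub_inn_unique hR (hx := ux) (hy := uy) (hx' := wx) (hy' := wy) hzu.symm hwz
      subst this
      exact huw rfl
    · -- iihi
      obtain ⟨rfl, h1⟩ := inn_inn hR (hx := ux) (hy := uy) (hx' := vx) (hy' := vy) huv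
      obtain ⟨rfl, h2⟩ := inn_inn hR (hx := zx) (hy := zy) (hx' := ux) (hy' := uy) hzu
      have := hub_inn_unique hR (hx := vx) (hy := vy) (hx' := zx) (hy' := zy) hvw hwz.symm
      subst this
      exact hvz rfl
    · -- iihh
      obtain ⟨rfl, h1⟩ := inn_inn hR (hx := ux) (hy := uy) (hx' := vx) (hy' := vy) huv
      exact attach_not_adj hR (hx := vx) (hy := vy) (hx' := ux) (hy' := uy) hvw hzu.symm hwz
    · -- ihii
      obtain ⟨rfl, h1⟩ := inn_inn hR (hx := wx) (hy := wy) (hx' := zx) (hy' := zy) hwz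
      obtain ⟨rfl, h2⟩ := inn_inn hR (hx := zx) (hy := zy) (hx' := ux) (hy' := uy) hzu
      have := hub_inn_unique hR (hx := ux) (hy := uy) (hx' := wx) (hy' := wy) huv hvw.symm
      subst this
      exact huw rfl
    · -- ihih
      exact hvz (congrArg _ (inn_hub_unique hR htri (hx := ux) (hy := uy) huv hzu.symm))
    · -- ihhi
      obtain ⟨rfl, h1⟩ := inn_inn hR (hx := zx) (hy := zy) (hx' := ux) (hy' := uy) hzu
      exact attach_not_adj hR (hx := ux) (hy := uy) (hx' := zx) (hy' := zy) huv hwz.symm hvw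
    · -- ihhh
      exact hvz (congrArg _ (inn_hub_unique hR htri (hx := ux) (hy := uy) huv hzu.symm))
    · -- hiii
      obtain ⟨rfl, h1⟩ := inn_inn hR (hx := vx) (hy := vy) (hx' := wx) (hy' := wy) hvw
      obtain ⟨rfl, h2⟩ := inn_inn hR (hx := wx) (hy := wy) (hx' := zx) (hy' := zy) hwz
      have := hub_inn_unique hR (hx := vx) (hy := vy) (hx' := zx) (hy' := zy) huv.symm hzu
      subst this
      exact hvz rfl
    · -- hiih
      obtain ⟨rfl, h1⟩ := inn_inn hR (hx := vx) (hy := vy) (hx' := wx) (hy' := wy) hvw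
      exact attach_not_adj hR (hx := wx) (hy := wy) (hx' := vx) (hy' := vy) hwz huv.symm hzu
    · -- hihi
      exact huw (congrArg _ (inn_hub_unique hR htri (hx := vx) (hy := vy) huv.symm hvw))
    · -- hihh
      exact huw (congrArg _ (inn_hub_unique hR htri (hx := vx) (hy := vy) huv.symm hvw))
    · -- hhii
      obtain ⟨rfl, h1⟩ := inn_inn hR (hx := wx) (hy := wy) (hx' := zx) (hy' := zy) hwz
      exact attach_not_adj hR (hx := zx) (hy := zy) (hx' := wx) (hy' := wy) hzu hvw.symm huv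
    · -- hhih
      exact hvz (congrArg _ (inn_hub_unique hR htri (hx := wx) (hy := wy) hvw.symm hwz))
    · -- hhhi
      exact huw (congrArg _ (inn_hub_unique hR htri (hx := zx) (hy := zy) hzu hwz.symm))
    · -- hhhh
      exact hadj_c4 k l n p (fun e => huw (congrArg _ e)) (fun e => hvz (congrArg _ e))
        (hub_adj huv) (hub_adj hvw) (hub_adj hwz) (hub_adj hzu)

end Pool.Agent.MP_dce662
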