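import Pool.Agent.MP_dce662.Defs

/-!
Label sets on the edges of a cubic graph; the facts about one pole.
-/

set_option autoImplicit false

namespace Pool.Agent.MP_dce662

open Finset

/-- the neighbours of `v` are exactly the three distinct vertices `a`, `b`, `c` -/
def N3 {V : Type} (G : SimpleGraph V) (v a b c : V) : Prop :=
  (∀ w, G.Adj v w ↔ (w = a ∨ w = b ∨ w = c)) ∧ a ≠ b ∧ a ≠ c ∧ b ≠ c

/-- cover rule -/
def CR (A B C : Finset ℕ) : Prop := A.Nonempty ∧ B.Nonempty ∧ C.Nonempty ∧ symmDiff A B = C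

/-- tight rule -/
def VR (A B C : Finset ℕ) : Prop := CR A B C ∧ A.card + B.card + C.card = 4

theorem CR.swap12 {A B C : Finset ℕ} (h : CR A B C) : CR B A C :=
  ⟨h.2.1, h.1, h.2.2.1, by rw [symmDiff_comm]; exact h.2.2.2⟩

theorem CR.swap23 {A B C : Finset ℕ} (h : CR A B C) : CR A C B := by
  refine ⟨h.1, h.2.2.1, h.2.1, ?_⟩
  rw [← h.2.2.2, symmDiff_symmDiff_cancel_left]

theorem VR.swap12 {A B C : Finset ℕ} (h : VR A B C) : VR B A C :=
  ⟨h.1.swap12, by have := h.2; omega⟩

theorem VR.swap23 {A B C : Finset ℕ} (h : VR A B C) : VR A C B :=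
  ⟨h.1.swap23, by have := h.2; omega⟩

theorem VR.cards {A B C : Finset ℕ} (h : VR A B C) :
    (A.card = 2 ∧ B.card = 1 ∧ C.card = 1) ∨ (A.card = 1 ∧ B.card = 2 ∧ C.card = 1) ∨
      (A.card = 1 ∧ B.card = 1 ∧ C.card = 2) := by
  have h1 := h.1.1.card_pos
  have h2 := h.1.2.1.card_pos
  have h3 := h.1.2.2.1.card_pos
  have h4 := h.2
  omega

variable {V : Type}

/-- the cover rule at `v` -/
def CoverAt (G : SimpleGraph V) (L : V → V → Finset ℕ) (v : V) : Prop :=
  ∃ a b c, N3 G v a b c ∧ CR (L v a) (L v b) (L v c)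

/-- the tight rule at `v` -/
def TightAt (G : SimpleGraph V) (L : V → V → Finset ℕ) (v : V) : Prop :=
  ∃ a b c, N3 G v a b c ∧ VR (L v a) (L v b) (L v c)

theorem N3.perm {G : SimpleGraph V} {v a b c a' b' c' : V} (h : N3 G v a b c)
    (h' : N3 G v a' b' c') (P : V → V → V → Prop) (h12 : ∀ p q r, P p q r → P q p r)
    (h23 : ∀ p q r, P p q r → P p r q) (hP : P a b c) : P a' b' c' := by
  have ha : a' = a ∨ a' = b ∨ a' = c := (h.1 a').1 ((h'.1 a').2 (Or.inl rfl))
  have hb : b' = a ∨ b' = b ∨ b' = c := (h.1 b').1 ((h'.1 b').2 (Or.inr (Or.inl rfl)))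
  have hc : c' = a ∨ c' = b ∨ c' = c := (h.1 c').1 ((h'.1 c').2 (Or.inr (Or.inr rfl)))
  obtain ⟨-, n1, n2, n3⟩ := h'
  rcases ha with rfl | rfl | rfl <;> rcases hb with rfl | rfl | rfl <;>
    rcases hc with rfl | rfl | rfl <;> first
    | exact absurd rfl n1
    | exact absurd rfl n2
    | exact absurd rfl n3
    | exact hP
    | exact h12 _ _ _ hP
    | exact h23 _ _ _ hP
    | exact h12 _ _ _ (h23 _ _ _ hP)
    | exact h23 _ _ _ (h12 _ _ _ hP)
    | exact h12 _ _ _ (h23 _ _ _ (h12 _ _ _ hP))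

theorem TightAt.vr {G : SimpleGraph V} {L : V → V → Finset ℕ} {v a b c : V}
    (h : TightAt G L v) (hn : N3 G v a b c) : VR (L v a) (L v b) (L v c) := by
  obtain ⟨a', b', c', hn', hv⟩ := h
  exact hn'.perm hn (fun p q r => VR (L v p) (L v q) (L v r)) (fun _ _ _ h => h.swap12)
    (fun _ _ _ h => h.swap23) hv

theorem CoverAt.cr {G : SimpleGraph V} {L : V → V → Finset ℕ} {v a b c : V}
    (h : CoverAt G L v) (hn : N3 G v a b c) : CR (L v a) (L v b) (L v c) := by
  obtain ⟨a', b', c', hn', hv⟩ := h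
  exact hn'.perm hn (fun p q r => CR (L v p) (L v q) (L v r)) (fun _ _ _ h => h.swap12)
    (fun _ _ _ h => h.swap23) hv

theorem TightAt.card {G : SimpleGraph V} {L : V → V → Finset ℕ} {v w : V}
    (h : TightAt G L v) (hw : G.Adj v w) : (L v w).card = 1 ∨ (L v w).card = 2 := by
  obtain ⟨a, b, c, hn, hv⟩ := h
  have := hv.cards
  rcases (hn.1 w).1 hw with rfl | rfl | rfl <;> omega

/-- `G` has no labelling which is tight at all vertices (no cycle cover of length `4|E|/3`) -/
def NoZero (G : SimpleGraph V) : Prop :=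
  ¬ ∃ L : V → V → Finset ℕ, (∀ v w, L v w = L w v) ∧ ∀ v, TightAt G L v

/-- in every labelling which is tight outside of `x`, `y` the edges `y y0`, `y y1` are double -/
def Dbl (R : Rooted V) : Prop :=
  ∀ L : V → V → Finset ℕ, (∀ v w, L v w = L w v) →
    (∀ v, v ≠ R.x → v ≠ R.y → TightAt R.G L v) →
    (L R.y R.y0).card = 2 ∧ (L R.y R.y1).card = 2

/-- every labelling has at least `n` vertices outside of `x`, `y` which are not tight -/
def Bad (R : Rooted V) (n : ℕ) : Prop :=
  ∀ L : V → V → Finset ℕ, (∀ v w, L v w = L w v) →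
    (∀ v, v ≠ R.x → v ≠ R.y → CoverAt R.G L v) →
    n ≤ {v | v ≠ R.x ∧ v ≠ R.y ∧ ¬ TightAt R.G L v}.ncard

theorem Rooted.Labelled.n3x {R : Rooted V} (h : R.Labelled) : N3 R.G R.x R.y R.x0 R.x1 := by
  obtain ⟨hxy, h0, -, hx, -⟩ := h
  refine ⟨fun w => ⟨fun hw => ?_, ?_⟩, ?_, ?_, h0⟩
  · by_cases hwy : w = R.y
    · exact Or.inl hwy
    · exact Or.inr ((hx w).1 ⟨hw, hwy⟩)
  · rintro (rfl | rfl | rfl)
    · exact hxy
    · exact ((hx _).2 (Or.inl rfl)).1
    · exact ((hx _).2 (Or.inr rfl)).1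
  · exact fun e => ((hx _).2 (Or.inl rfl)).2 e.symm
  · exact fun e => ((hx _).2 (Or.inr rfl)).2 e.symm

theorem Rooted.Labelled.n3y {R : Rooted V} (h : R.Labelled) : N3 R.G R.y R.x R.y0 R.y1 := by
  obtain ⟨hxy, -, h0, -, hy⟩ := h
  refine ⟨fun w => ⟨fun hw => ?_, ?_⟩, ?_, ?_, h0⟩
  · by_cases hwy : w = R.x
    · exact Or.inl hwy
    · exact Or.inr ((hy w).1 ⟨hw, hwy⟩)
  · rintro (rfl | rfl | rfl)
    · exact hxy.symm
    · exact ((hy _).2 (Or.inl rfl)).1
    · exact ((hy _).2 (Or.inr rfl)).1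
  · exact fun e => ((hy _).2 (Or.inl rfl)).2 e.symm
  · exact fun e => ((hy _).2 (Or.inr rfl)).2 e.symm

/-- number of neighbours along which a label is carried is even -/
theorem even_of_cr {G : SimpleGraph V} {L : V → V → Finset ℕ} {v : V} (h : CoverAt G L v)
    (l : ℕ) : Even {w | G.Adj v w ∧ l ∈ L v w}.ncard := by
  classical
  obtain ⟨a, b, c, hn, hc⟩ := h
  have hs : {w | G.Adj v w ∧ l ∈ L v w} =
      (({a, b, c} : Finset V).filter (fun w => l ∈ L v w) : Finset V) := by
    ext w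
    simp only [Set.mem_setOf_eq, coe_filter, mem_insert, mem_singleton]
    rw [hn.1 w]
  rw [hs, Set.ncard_coe_finset]
  have hmem : l ∈ L v c ↔ (l ∈ L v a ∧ l ∉ L v b) ∨ (l ∈ L v b ∧ l ∉ L v a) := by
    rw [← hc.2.2.2, Finset.mem_symmDiff]
  have n1 := hn.2.1
  have n2 := hn.2.2.1
  have n3 := hn.2.2.2
  by_cases h1 : l ∈ L v a <;> by_cases h2 : l ∈ L v b <;> by_cases h3 : l ∈ L v c <;>
    simp [Finset.filter_insert, Finset.filter_singleton, h1, h2, h3, n1, n2, n3] at hmem ⊢

/-- parity of a pole: the label sets at the four dangling edges add up to zero -/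
theorem parity [Finite V] {R : Rooted V} (hR : R.Labelled) {L : V → V → Finset ℕ}
    (hs : ∀ v w, L v w = L w v) (hc : ∀ v, v ≠ R.x → v ≠ R.y → CoverAt R.G L v) :
    symmDiff (L R.x R.x0) (L R.x R.x1) = symmDiff (L R.y R.y0) (L R.y R.y1) := by
  classical
  have := Fintype.ofFinite V
  ext l
  -- the graph of edges with label `l`, without the edge `xy`
  let H : SimpleGraph V := SimpleGraph.fromRel
    (fun v w => R.G.Adj v w ∧ l ∈ L v w ∧ ¬ (v = R.x ∧ w = R.y) ∧ ¬ (v = R.y ∧ w = R.x))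
  have hH : ∀ v w, H.Adj v w ↔
      (R.G.Adj v w ∧ l ∈ L v w ∧ ¬ (v = R.x ∧ w = R.y) ∧ ¬ (v = R.y ∧ w = R.x)) := by
    intro v w
    simp only [H, SimpleGraph.fromRel_adj]
    constructor
    · rintro ⟨-, h | h⟩
      · exact h
      · refine ⟨h.1.symm, ?_, fun e => h.2.2.2 ⟨e.2, e.1⟩, fun e => h.2.2.1 ⟨e.2, e.1⟩⟩
        rw [hs]
        exact h.2.1
    · intro h
      exact ⟨h.1.ne, Or.inl h⟩
  have heven : ∀ v, v ≠ R.x → v ≠ R.y → Even (H.degree v) := by
    intro v hx hy
    have h := even_of_cr (hc v hx hy) l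
    have e : {w | R.G.Adj v w ∧ l ∈ L v w} = (H.neighborFinset v : Set V) := by
      ext w
      simp only [Set.mem_setOf_eq, SimpleGraph.coe_neighborFinset, SimpleGraph.mem_neighborSet,
        hH v w]
      constructor
      · intro h
        exact ⟨h.1, h.2, fun e => hx e.1, fun e => hy e.1⟩
      · intro h
        exact ⟨h.1, h.2.1⟩
    rw [e, Set.ncard_coe_finset, SimpleGraph.card_neighborFinset_eq_degree] at h
    exact h
  have hdeg : ∀ (v o p q : V), N3 R.G v o p q → (∀ w, H.Adj v w ↔ (w ≠ o ∧ R.G.Adj v w ∧ l ∈ L v w)) →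
      (Odd (H.degree v) ↔ l ∈ symmDiff (L v p) (L v q)) := by
    intro v o p q hn hadj
    have e : H.neighborFinset v = ({p, q} : Finset V).filter (fun w => l ∈ L v w) := by
      ext w
      rw [SimpleGraph.mem_neighborFinset, hadj w, mem_filter, mem_insert, mem_singleton, hn.1 w]
      constructor
      · rintro ⟨h1, h2, h3⟩
        rcases h2 with h2 | h2
        · exact absurd h2 h1
        · exact ⟨h2, h3⟩
      · rintro ⟨h2, h3⟩
        refine ⟨?_, Or.inr h2, h3⟩
        rcases h2 with rfl | rfl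
        · exact hn.2.1.symm
        · exact hn.2.2.1.symm
    rw [← SimpleGraph.card_neighborFinset_eq_degree, e, Finset.mem_symmDiff]
    have npq := hn.2.2.2
    by_cases h1 : l ∈ L v p <;> by_cases h2 : l ∈ L v q <;>
      simp [Finset.filter_insert, Finset.filter_singleton, h1, h2, npq]
  have hxd := hdeg R.x R.y R.x0 R.x1 hR.n3x (by
    intro w
    rw [hH]
    have := hR.1.ne
    constructor
    · rintro ⟨h1, h2, h3, h4⟩
      exact ⟨fun e => h3 ⟨rfl, e⟩, h1, h2⟩
    · rintro ⟨h1, h2, h3⟩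
      exact ⟨h2, h3, fun e => h1 e.2, fun e => this e.1⟩)
  have hyd := hdeg R.y R.x R.y0 R.y1 hR.n3y (by
    intro w
    rw [hH]
    have := hR.1.ne
    constructor
    · rintro ⟨h1, h2, h3, h4⟩
      exact ⟨fun e => h4 ⟨rfl, e⟩, h1, h2⟩
    · rintro ⟨h1, h2, h3⟩
      exact ⟨h2, h3, fun e => this e.1.symm, fun e => h1 e.2⟩)
  rw [← hxd, ← hyd]
  have hodd := H.even_card_odd_degree_vertices
  have hsub : (Finset.univ.filter fun v => Odd (H.degree v)) =
      ({R.x, R.y} : Finset V).filter (fun v => Odd (H.degree v)) := by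
    ext v
    simp only [mem_filter, mem_univ, true_and, mem_insert, mem_singleton]
    constructor
    · intro h
      refine ⟨?_, h⟩
      by_contra hne
      rw [not_or] at hne
      exact (Nat.not_even_iff_odd.2 h) (heven v hne.1 hne.2)
    · exact fun h => h.2
  rw [hsub] at hodd
  have hne := hR.1.ne
  by_cases h1 : Odd (H.degree R.x) <;> by_cases h2 : Odd (H.degree R.y) <;>
    simp [Finset.filter_insert, Finset.filter_singleton, h1, h2, hne] at hodd ⊢

/-- changing the label set of the edge `xy` -/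
noncomputable def setXY [DecidableEq V] (R : Rooted V) (L : V → V → Finset ℕ) (Z : Finset ℕ) :
    V → V → Finset ℕ :=
  fun v w => if (v = R.x ∧ w = R.y) ∨ (v = R.y ∧ w = R.x) then Z else L v w

theorem extend [Finite V] {R : Rooted V} (hR : R.Labelled) (hz : NoZero R.G)
    {L : V → V → Finset ℕ} (hs : ∀ v w, L v w = L w v)
    (ht : ∀ v, v ≠ R.x → v ≠ R.y → TightAt R.G L v) (Z : Finset ℕ)
    (h1 : VR Z (L R.x R.x0) (L R.x R.x1)) (h2 : VR Z (L R.y R.y0) (L R.y R.y1)) : False := by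
  classical
  apply hz
  have hne := hR.1.ne
  refine ⟨setXY R L Z, fun v w => ?_, fun v => ?_⟩
  · unfold setXY
    by_cases h : (v = R.x ∧ w = R.y) ∨ (v = R.y ∧ w = R.x)
    · rw [if_pos h, if_pos]
      tauto
    · rw [if_neg h, if_neg, hs]
      tauto
  · by_cases hx : v = R.x
    · subst hx
      refine ⟨R.y, R.x0, R.x1, hR.n3x, ?_⟩
      have n := hR.n3x
      have e1 : setXY R L Z R.x R.y = Z := if_pos (Or.inl ⟨rfl, rfl⟩)
      have e2 : setXY R L Z R.x R.x0 = L R.x R.x0 := by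
        refine if_neg ?_
        rintro (h | h)
        · exact n.2.1 h.2.symm
        · exact hne h.1
      have e3 : setXY R L Z R.x R.x1 = L R.x R.x1 := by
        refine if_neg ?_
        rintro (h | h)
        · exact n.2.2.1 h.2.symm
        · exact hne h.1
      rw [e1, e2, e3]
      exact h1
    · by_cases hy : v = R.y
      · subst hy
        refine ⟨R.x, R.y0, R.y1, hR.n3y, ?_⟩
        have n := hR.n3y
        have e1 : setXY R L Z R.y R.x = Z := if_pos (Or.inr ⟨rfl, rfl⟩)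
        have e2 : setXY R L Z R.y R.y0 = L R.y R.y0 := by
          refine if_neg ?_
          rintro (h | h)
          · exact hne h.1.symm
          · exact n.2.1 h.2.symm
        have e3 : setXY R L Z R.y R.y1 = L R.y R.y1 := by
          refine if_neg ?_
          rintro (h | h)
          · exact hne h.1.symm
          · exact n.2.2.1 h.2.symm
        rw [e1, e2, e3]
        exact h2
      · obtain ⟨a, b, c, hn, hv⟩ := ht v hx hy
        refine ⟨a, b, c, hn, ?_⟩
        have e : ∀ w, setXY R L Z v w = L v w := by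
          intro w
          refine if_neg ?_
          rintro (h | h)
          · exact hx h.1
          · exact hy h.1
        rw [e, e, e]
        exact hv

theorem card_symmDiff_parity (A B : Finset ℕ) : ∃ k, (symmDiff A B).card + 2 * k = A.card + B.card := by
  refine ⟨(A ∩ B).card, ?_⟩
  have h1 : (symmDiff A B).card = (A \ B).card + (B \ A).card := by
    rw [symmDiff_def, Finset.sup_eq_union, Finset.card_union_of_disjoint]
    exact disjoint_sdiff_sdiff
  have h2 := Finset.card_sdiff_add_card_inter A B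
  have h3 := Finset.card_sdiff_add_card_inter B A
  rw [Finset.inter_comm B A] at h3
  omega

/-- a one-element set and a two-element set: disjoint or nested -/
theorem one_two {A B : Finset ℕ} (hA : A.card = 2) (hB : B.card = 1)
    (h : (symmDiff A B).card ≠ 3) : VR (symmDiff A B) A B := by
  have hk : (symmDiff A B).card + 2 * (A ∩ B).card = A.card + B.card := by
    have h1 : (symmDiff A B).card = (A \ B).card + (B \ A).card := by
      rw [symmDiff_def, Finset.sup_eq_union, Finset.card_union_of_disjoint]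
      exact disjoint_sdiff_sdiff
    have h2 := Finset.card_sdiff_add_card_inter A B
    have h3 := Finset.card_sdiff_add_card_inter B A
    rw [Finset.inter_comm B A] at h3
    omega
  have hle : (A ∩ B).card ≤ B.card := Finset.card_le_card Finset.inter_subset_right
  have hc : (symmDiff A B).card = 1 := by omega
  refine ⟨⟨Finset.card_pos.1 (by omega), Finset.card_pos.1 (by omega),
    Finset.card_pos.1 (by omega), ?_⟩, by omega⟩
  rw [symmDiff_comm, symmDiff_symmDiff_cancel_left]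

/-- the facts about one pole used in the case analysis -/
structure PoleFacts (X0 X1 Y0 Y1 : Finset ℕ) : Prop where
  cX0 : X0.card = 1 ∨ X0.card = 2
  cX1 : X1.card = 1 ∨ X1.card = 2
  cY0 : Y0.card = 1 ∨ Y0.card = 2
  cY1 : Y1.card = 1 ∨ Y1.card = 2
  sd : symmDiff X0 X1 = symmDiff Y0 Y1
  single : X0.card = 1 → X1.card = 1 → Y0.card = 1 → Y1.card = 1 → symmDiff X0 X1 = ∅
  odd : X0.card ≠ X1.card → (symmDiff X0 X1).card = 3

theorem poleFacts [Finite V] {R : Rooted V} (hR : R.Labelled) (hz : NoZero R.G)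
    {L : V → V → Finset ℕ} (hs : ∀ v w, L v w = L w v)
    (ht : ∀ v, v ≠ R.x → v ≠ R.y → TightAt R.G L v) :
    PoleFacts (L R.x R.x0) (L R.x R.x1) (L R.y R.y0) (L R.y R.y1) := by
  classical
  have nx := hR.n3x
  have ny := hR.n3y
  have hxy := hR.1
  have hx0 : R.G.Adj R.x R.x0 := (nx.1 _).2 (Or.inr (Or.inl rfl))
  have hx1 : R.G.Adj R.x R.x1 := (nx.1 _).2 (Or.inr (Or.inr rfl))
  have hy0 : R.G.Adj R.y R.y0 := (ny.1 _).2 (Or.inr (Or.inl rfl))
  have hy1 : R.G.Adj R.y R.y1 := (ny.1 _).2 (Or.inr (Or.inr rfl))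
  have c1 : (L R.x R.x0).card = 1 ∨ (L R.x R.x0).card = 2 := by
    rw [hs]
    exact (ht R.x0 hx0.ne' nx.2.1.symm).card hx0.symm
  have c2 : (L R.x R.x1).card = 1 ∨ (L R.x R.x1).card = 2 := by
    rw [hs]
    exact (ht R.x1 hx1.ne' nx.2.2.1.symm).card hx1.symm
  have c3 : (L R.y R.y0).card = 1 ∨ (L R.y R.y0).card = 2 := by
    rw [hs]
    exact (ht R.y0 ny.2.1.symm hy0.ne').card hy0.symm
  have c4 : (L R.y R.y1).card = 1 ∨ (L R.y R.y1).card = 2 := by
    rw [hs]
    exact (ht R.y1 ny.2.2.1.symm hy1.ne').card hy1.symm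
  have hpar := parity hR hs (fun v h1 h2 => by
    obtain ⟨a, b, c, hn, hv⟩ := ht v h1 h2
    exact ⟨a, b, c, hn, hv.1⟩)
  refine ⟨c1, c2, c3, c4, hpar, ?_, ?_⟩
  · intro d1 d2 d3 d4
    by_contra hne
    have hpos : 0 < (symmDiff (L R.x R.x0) (L R.x R.x1)).card :=
      Finset.card_pos.2 (Finset.nonempty_iff_ne_empty.2 hne)
    obtain ⟨k, hk⟩ := card_symmDiff_parity (L R.x R.x0) (L R.x R.x1)
    have hc : (symmDiff (L R.x R.x0) (L R.x R.x1)).card = 2 := by omega
    refine extend hR hz hs ht (symmDiff (L R.x R.x0) (L R.x R.x1)) ⟨⟨Finset.card_pos.1 hpos,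
      Finset.card_pos.1 (by omega), Finset.card_pos.1 (by omega), ?_⟩, by omega⟩
      ⟨⟨Finset.card_pos.1 hpos,
      Finset.card_pos.1 (by omega), Finset.card_pos.1 (by omega), ?_⟩, by omega⟩
    · rw [symmDiff_comm, symmDiff_symmDiff_cancel_left]
    · rw [hpar, symmDiff_comm, symmDiff_symmDiff_cancel_left]
  · intro hne
    by_contra h3
    have hx : VR (symmDiff (L R.x R.x0) (L R.x R.x1)) (L R.x R.x0) (L R.x R.x1) := by
      rcases c1 with c1 | c1 <;> rcases c2 with c2 | c2
      · exact absurd (c1.trans c2.symm) hne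
      · rw [symmDiff_comm] at h3 ⊢
        exact (one_two c2 c1 h3).swap23
      · exact one_two c1 c2 h3
      · exact absurd (c1.trans c2.symm) hne
    have hy : VR (symmDiff (L R.x R.x0) (L R.x R.x1)) (L R.y R.y0) (L R.y R.y1) := by
      rw [hpar] at h3 ⊢
      obtain ⟨k, hk⟩ := card_symmDiff_parity (L R.x R.x0) (L R.x R.x1)
      obtain ⟨k', hk'⟩ := card_symmDiff_parity (L R.y R.y0) (L R.y R.y1)
      rw [hpar] at hk
      rcases c3 with c3 | c3 <;> rcases c4 with c4 | c4
      · exfalso; omega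
      · rw [symmDiff_comm] at h3 ⊢
        exact (one_two c4 c3 h3).swap23
      · exact one_two c3 c4 h3
      · exfalso; omega
    exact extend hR hz hs ht _ hx hy

end Pool.Agent.MP_dce662
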