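import Pool.Agent.MP_dce662.Girth

/-!
The Petersen graph.
-/

set_option autoImplicit false

namespace Pool.Agent.MP_dce662

open Finset

/-- the neighbours of the vertices of the Petersen graph -/
def pnb : Fin 10 → Fin 3 → Fin 10 :=
  ![![1, 4, 5], ![0, 2, 6], ![1, 3, 7], ![2, 4, 8], ![3, 0, 9],
    ![0, 7, 8], ![1, 8, 9], ![2, 9, 5], ![3, 5, 6], ![4, 6, 7]]

/-- the Petersen graph -/
def pet : SimpleGraph (Fin 10) where
  Adj v w := pnb v 0 = w ∨ pnb v 1 = w ∨ pnb v 2 = w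
  symm := ⟨by decide⟩
  loopless := ⟨by decide⟩

instance : DecidableRel pet.Adj := fun v w =>
  inferInstanceAs (Decidable (pnb v 0 = w ∨ pnb v 1 = w ∨ pnb v 2 = w))

theorem pet_n3 : ∀ v, N3 pet v (pnb v 0) (pnb v 1) (pnb v 2) := by
  unfold N3
  decide

theorem pet_cub : Cub pet := fun v => ⟨_, _, _, pet_n3 v⟩

theorem pet_c34 : C34 pet := by
  unfold C34
  constructor
  · decide +kernel
  · decide +kernel

/-- the rooted Petersen graph -/
def petR : Rooted (Fin 10) := ⟨pet, 0, 1, 4, 5, 2, 6⟩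

theorem petR_labelled : petR.Labelled := by
  unfold Rooted.Labelled petR
  decide

theorem fiveCore : ∀ a0 a1 a2 a3 a4 b0 b1 b2 b3 b4 : Bool,
    (!(!(a4 && a0) && !(a0 && a1) && !(a1 && a2) && !(a2 && a3) && !(a3 && a4) &&
      !(b0 && b3) && !(b1 && b4) && !(b2 && b0) && !(b3 && b1) && !(b4 && b2) &&
      (xor a4 a0 == xor b0 b3) && (xor a0 a1 == xor b1 b4) && (xor a1 a2 == xor b2 b0) &&
      (xor a2 a3 == xor b3 b1) && (xor a3 a4 == xor b4 b2)) ||
      ((xor a4 a0).toNat + (xor a0 a1).toNat + (xor a1 a2).toNat + (xor a2 a3).toNat +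
        (xor a3 a4).toNat) % 4 == 0) = true := by
  decide +kernel

theorem vr_mem {A B C : Finset ℕ} (h : VR A B C) (hC : C.card = 2) (l : ℕ) :
    (!(decide (l ∈ A) && decide (l ∈ B))) = true ∧
      decide (l ∈ C) = xor (decide (l ∈ A)) (decide (l ∈ B)) := by
  have hc := h.cards
  have hA : A.card = 1 := by omega
  have hB : B.card = 1 := by omega
  obtain ⟨a, rfl⟩ := Finset.card_eq_one.1 hA
  obtain ⟨b, rfl⟩ := Finset.card_eq_one.1 hB
  have hs := h.1.2.2.2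
  constructor
  · by_cases h1 : l = a <;> by_cases h2 : l = b
    · exfalso
      subst h1 h2
      rw [symmDiff_self] at hs
      have := h.1.2.2.1
      rw [← hs] at this
      exact Finset.not_nonempty_empty this
    · subst h1
      simp [h2]
    · subst h2
      simp [h1]
    · simp [h1, h2]
  · rw [← hs]
    by_cases h1 : l ∈ ({a} : Finset ℕ) <;> by_cases h2 : l ∈ ({b} : Finset ℕ) <;>
      simp only [Finset.mem_symmDiff, h1, h2] <;> decide

/-- no tight labelling whose double edges form the matching `p i`, `q i` -/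
theorem no_five {L : Fin 10 → Fin 10 → Finset ℕ} (hs : ∀ v w, L v w = L w v)
    (ht : ∀ v, TightAt pet L v) (p q : Fin 5 → Fin 10)
    (hp : ∀ i, N3 pet (p i) (p (i - 1)) (p (i + 1)) (q i))
    (hq : ∀ i, N3 pet (q i) (q (i + 2)) (q (i - 2)) (p i))
    (hm : ∀ i, (L (p i) (q i)).card = 2) : False := by
  have h1 : ∀ i, VR (L (p (i - 1)) (p i)) (L (p i) (p (i + 1))) (L (p i) (q i)) := by
    intro i
    have := (ht (p i)).vr (hp i)
    rwa [hs (p i) (p (i - 1))] at this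
  have h2 : ∀ i, VR (L (q i) (q (i + 2))) (L (q (i - 2)) (q i)) (L (p i) (q i)) := by
    intro i
    have := (ht (q i)).vr (hq i)
    rwa [hs (q i) (q (i - 2)), hs (q i) (p i)] at this
  have hmod : ∀ l : ℕ, 4 ∣ ∑ i, (if l ∈ L (p i) (q i) then 1 else 0) := by
    intro l
    have g := fun i => vr_mem (h1 i) (hm i) l
    have k := fun i => vr_mem (h2 i) (hm i) l
    have hsum : ∑ i, (if l ∈ L (p i) (q i) then 1 else 0) =
        ∑ i, (decide (l ∈ L (p i) (q i))).toNat := by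
      refine Finset.sum_congr rfl (fun i _ => ?_)
      by_cases h : l ∈ L (p i) (q i) <;> simp [h]
    rw [hsum, Fin.sum_univ_five]
    have key := fiveCore (decide (l ∈ L (p 0) (p 1))) (decide (l ∈ L (p 1) (p 2)))
      (decide (l ∈ L (p 2) (p 3))) (decide (l ∈ L (p 3) (p 4))) (decide (l ∈ L (p 4) (p 0)))
      (decide (l ∈ L (q 0) (q 2))) (decide (l ∈ L (q 1) (q 3))) (decide (l ∈ L (q 2) (q 4)))
      (decide (l ∈ L (q 3) (q 0))) (decide (l ∈ L (q 4) (q 1)))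
    have g0 := g 0
    have g1 := g 1
    have g2 := g 2
    have g3 := g 3
    have g4 := g 4
    have k0 := k 0
    have k1 := k 1
    have k2 := k 2
    have k3 := k 3
    have k4 := k 4
    have i1 : (0 : Fin 5) - 1 = 4 := rfl
    have i2 : (1 : Fin 5) - 1 = 0 := rfl
    have i3 : (2 : Fin 5) - 1 = 1 := rfl
    have i4 : (3 : Fin 5) - 1 = 2 := rfl
    have i5 : (4 : Fin 5) - 1 = 3 := rfl
    have j1 : (0 : Fin 5) + 1 = 1 := rfl
    have j2 : (1 : Fin 5) + 1 = 2 := rfl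
    have j3 : (2 : Fin 5) + 1 = 3 := rfl
    have j4 : (3 : Fin 5) + 1 = 4 := rfl
    have j5 : (4 : Fin 5) + 1 = 0 := rfl
    have r1 : (0 : Fin 5) - 2 = 3 := rfl
    have r2 : (1 : Fin 5) - 2 = 4 := rfl
    have r3 : (2 : Fin 5) - 2 = 0 := rfl
    have r4 : (3 : Fin 5) - 2 = 1 := rfl
    have r5 : (4 : Fin 5) - 2 = 2 := rfl
    have t1 : (0 : Fin 5) + 2 = 2 := rfl
    have t2 : (1 : Fin 5) + 2 = 3 := rfl
    have t3 : (2 : Fin 5) + 2 = 4 := rfl
    have t4 : (3 : Fin 5) + 2 = 0 := rfl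
    have t5 : (4 : Fin 5) + 2 = 1 := rfl
    rw [i1, j1] at g0
    rw [i2, j2] at g1
    rw [i3, j3] at g2
    rw [i4, j4] at g3
    rw [i5, j5] at g4
    rw [r1, t1] at k0
    rw [r2, t2] at k1
    rw [r3, t3] at k2
    rw [r4, t4] at k3
    rw [r5, t5] at k4
    rw [g0.1, g1.1, g2.1, g3.1, g4.1, k0.1, k1.1, k2.1, k3.1, k4.1, ← g0.2, ← g1.2, ← g2.2,
      ← g3.2, ← g4.2, ← k0.2, ← k1.2, ← k2.2, ← k3.2, ← k4.2] at key
    simp only [beq_self_eq_true, Bool.and_self, Bool.not_true, Bool.false_or, beq_iff_eq] at key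
    exact Nat.dvd_of_mod_eq_zero key
  let S : Finset ℕ := Finset.univ.biUnion (fun i => L (p i) (q i))
  have htot : ∑ i, (L (p i) (q i)).card = ∑ l ∈ S, ∑ i, (if l ∈ L (p i) (q i) then 1 else 0) := by
    rw [Finset.sum_comm]
    refine Finset.sum_congr rfl (fun i _ => ?_)
    rw [← Finset.sum_filter, Finset.sum_const, smul_eq_mul, mul_one]
    congr 1
    ext l
    simp only [mem_filter, S, mem_biUnion, mem_univ, true_and]
    exact ⟨fun h => ⟨⟨i, h⟩, h⟩, fun h => h.2⟩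
  have hd : 4 ∣ ∑ i, (L (p i) (q i)).card := by
    rw [htot]
    exact Finset.dvd_sum (fun l _ => hmod l)
  simp only [hm, Finset.sum_const, Finset.card_univ, Fintype.card_fin, smul_eq_mul] at hd
  omega

theorem pet_noZero : NoZero pet := by
  rintro ⟨L, hs, ht⟩
  have hc : ∀ v, (L v (pnb v 0)).card + (L v (pnb v 1)).card + (L v (pnb v 2)).card = 4 ∧
      1 ≤ (L v (pnb v 0)).card ∧ 1 ≤ (L v (pnb v 1)).card ∧ 1 ≤ (L v (pnb v 2)).card := by
    intro v
    have h := (ht v).vr (pet_n3 v)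
    exact ⟨h.2, h.1.1.card_pos, h.1.2.1.card_pos, h.1.2.2.1.card_pos⟩
  have c0 : (L 0 1).card + (L 0 4).card + (L 0 5).card = 4 ∧
    1 ≤ (L 0 1).card ∧ 1 ≤ (L 0 4).card ∧ 1 ≤ (L 0 5).card := hc 0
  have c1 : (L 1 0).card + (L 1 2).card + (L 1 6).card = 4 ∧
    1 ≤ (L 1 0).card ∧ 1 ≤ (L 1 2).card ∧ 1 ≤ (L 1 6).card := hc 1
  have c2 : (L 2 1).card + (L 2 3).card + (L 2 7).card = 4 ∧
    1 ≤ (L 2 1).card ∧ 1 ≤ (L 2 3).card ∧ 1 ≤ (L 2 7).card := hc 2
  have c3 : (L 3 2).card + (L 3 4).card + (L 3 8).card = 4 ∧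
    1 ≤ (L 3 2).card ∧ 1 ≤ (L 3 4).card ∧ 1 ≤ (L 3 8).card := hc 3
  have c4 : (L 4 3).card + (L 4 0).card + (L 4 9).card = 4 ∧
    1 ≤ (L 4 3).card ∧ 1 ≤ (L 4 0).card ∧ 1 ≤ (L 4 9).card := hc 4
  have c5 : (L 5 0).card + (L 5 7).card + (L 5 8).card = 4 ∧
    1 ≤ (L 5 0).card ∧ 1 ≤ (L 5 7).card ∧ 1 ≤ (L 5 8).card := hc 5
  have c6 : (L 6 1).card + (L 6 8).card + (L 6 9).card = 4 ∧
    1 ≤ (L 6 1).card ∧ 1 ≤ (L 6 8).card ∧ 1 ≤ (L 6 9).card := hc 6
  have c7 : (L 7 2).card + (L 7 9).card + (L 7 5).card = 4 ∧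
    1 ≤ (L 7 2).card ∧ 1 ≤ (L 7 9).card ∧ 1 ≤ (L 7 5).card := hc 7
  have c8 : (L 8 3).card + (L 8 5).card + (L 8 6).card = 4 ∧
    1 ≤ (L 8 3).card ∧ 1 ≤ (L 8 5).card ∧ 1 ≤ (L 8 6).card := hc 8
  have c9 : (L 9 4).card + (L 9 6).card + (L 9 7).card = 4 ∧
    1 ≤ (L 9 4).card ∧ 1 ≤ (L 9 6).card ∧ 1 ≤ (L 9 7).card := hc 9
  rw [hs 1 0] at c1
  rw [hs 2 1] at c2
  rw [hs 3 2] at c3
  rw [hs 4 3, hs 4 0] at c4
  rw [hs 5 0] at c5
  rw [hs 6 1] at c6
  rw [hs 7 2, hs 7 5] at c7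
  rw [hs 8 3, hs 8 5, hs 8 6] at c8
  rw [hs 9 4, hs 9 6, hs 9 7] at c9
  have hfin : ∀ (p q : Fin 5 → Fin 10),
      (∀ i, N3 pet (p i) (p (i - 1)) (p (i + 1)) (q i)) →
      (∀ i, N3 pet (q i) (q (i + 2)) (q (i - 2)) (p i)) →
      (L (p 0) (q 0)).card = 2 → (L (p 1) (q 1)).card = 2 → (L (p 2) (q 2)).card = 2 →
      (L (p 3) (q 3)).card = 2 → (L (p 4) (q 4)).card = 2 → False := by
    intro p q hp hq m0 m1 m2 m3 m4
    refine no_five hs ht p q hp hq (fun i => ?_)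
    fin_cases i
    · exact m0
    · exact m1
    · exact m2
    · exact m3
    · exact m4
  have h0 : (L 0 1).card = 2 ∨ (L 0 4).card = 2 ∨ (L 0 5).card = 2 := by omega
  rcases h0 with h0 | h0 | h0
  · have h2 : (L 2 3).card = 2 ∨ (L 2 7).card = 2 := by omega
    rcases h2 with h2 | h2
    · refine hfin ![0, 4, 3, 8, 5] ![1, 9, 2, 6, 7] (by unfold N3; decide) (by unfold N3; decide)
        h0 ?_ ?_ ?_ ?_
      · show (L 4 9).card = 2
        omega
      · show (L 3 2).card = 2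
        rw [hs]
        exact h2
      · show (L 8 6).card = 2
        rw [hs]
        omega
      · show (L 5 7).card = 2
        omega
    · refine hfin ![0, 4, 9, 7, 5] ![1, 3, 6, 2, 8] (by unfold N3; decide) (by unfold N3; decide)
        h0 ?_ ?_ ?_ ?_
      · show (L 4 3).card = 2
        rw [hs]
        omega
      · show (L 9 6).card = 2
        rw [hs]
        omega
      · show (L 7 2).card = 2
        rw [hs]
        exact h2
      · show (L 5 8).card = 2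
        omega
  · have h2 : (L 1 2).card = 2 ∨ (L 1 6).card = 2 := by omega
    rcases h2 with h2 | h2
    · refine hfin ![0, 1, 6, 8, 5] ![4, 2, 9, 3, 7] (by unfold N3; decide) (by unfold N3; decide)
        h0 h2 ?_ ?_ ?_
      · show (L 6 9).card = 2
        omega
      · show (L 8 3).card = 2
        rw [hs]
        omega
      · show (L 5 7).card = 2
        omega
    · refine hfin ![0, 1, 2, 7, 5] ![4, 6, 3, 9, 8] (by unfold N3; decide) (by unfold N3; decide)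
        h0 h2 ?_ ?_ ?_
      · show (L 2 3).card = 2
        omega
      · show (L 7 9).card = 2
        omega
      · show (L 5 8).card = 2
        omega
  · have h2 : (L 1 2).card = 2 ∨ (L 1 6).card = 2 := by omega
    rcases h2 with h2 | h2
    · refine hfin ![0, 1, 6, 9, 4] ![5, 2, 8, 7, 3] (by unfold N3; decide) (by unfold N3; decide)
        h0 h2 ?_ ?_ ?_
      · show (L 6 8).card = 2
        omega
      · show (L 9 7).card = 2
        rw [hs]
        omega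
      · show (L 4 3).card = 2
        rw [hs]
        omega
    · refine hfin ![0, 1, 2, 3, 4] ![5, 6, 7, 8, 9] (by unfold N3; decide) (by unfold N3; decide)
        h0 h2 ?_ ?_ ?_
      · show (L 2 7).card = 2
        omega
      · show (L 3 8).card = 2
        omega
      · show (L 4 9).card = 2
        omega

theorem petCutCore : ∀ s0 s1 s2 s3 s4 s5 s6 s7 s8 s9 : Bool,
    (Nat.ble (s0.toNat + s1.toNat + s2.toNat + s3.toNat + s4.toNat + s5.toNat + s6.toNat +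
        s7.toNat + s8.toNat + s9.toNat) 1 ||
      Nat.ble 9 (s0.toNat + s1.toNat + s2.toNat + s3.toNat + s4.toNat + s5.toNat + s6.toNat +
        s7.toNat + s8.toNat + s9.toNat) ||
      Nat.ble 4 ((mm s0 s1 + mm s0 s4 + mm s0 s5 + mm s1 s2 + mm s1 s6) +
        (mm s2 s3 + mm s2 s7 + mm s3 s4 + mm s3 s8 + mm s4 s9) +
        (mm s5 s7 + mm s5 s8 + mm s6 s8 + mm s6 s9 + mm s7 s9))) = true := by
  decide +kernel

theorem cutN_n3 {V : Type} [Fintype V] {G : SimpleGraph V} (f : V → Fin 3 → V)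
    (h : ∀ v, N3 G v (f v 0) (f v 1) (f v 2)) (s : V → Bool) :
    cutN G s = ∑ v, (ci (s v) (s (f v 0)) + ci (s v) (s (f v 1)) + ci (s v) (s (f v 2))) := by
  classical
  unfold cutN
  refine Finset.sum_congr rfl (fun v _ => ?_)
  rw [← out_eq (h v) (fun w => ci (s v) (s w))]
  refine Finset.sum_congr rfl (fun w _ => ?_)
  by_cases hq : G.Adj v w
  · rw [if_pos hq, ← ci_ite]
    exact if_congr ⟨fun h => h.2, fun h => ⟨hq, h⟩⟩ rfl rfl
  · rw [if_neg hq, if_neg]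
    exact fun h => hq h.1

theorem pet_cut : CutCond pet := by
  intro s hA hB
  have hcut : cutN pet s = ((mm (s 0) (s 1) + mm (s 0) (s 4) + mm (s 0) (s 5) + mm (s 1) (s 2) +
      mm (s 1) (s 6)) + (mm (s 2) (s 3) + mm (s 2) (s 7) + mm (s 3) (s 4) + mm (s 3) (s 8) +
      mm (s 4) (s 9)) + (mm (s 5) (s 7) + mm (s 5) (s 8) + mm (s 6) (s 8) + mm (s 6) (s 9) +
      mm (s 7) (s 9))) := by
    rw [cutN_n3 pnb pet_n3 s]
    simp only [Fin.sum_univ_succ, Fin.sum_univ_zero, mm_ci]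
    show (ci (s 0) (s 1) + ci (s 0) (s 4) + ci (s 0) (s 5)) +
      ((ci (s 1) (s 0) + ci (s 1) (s 2) + ci (s 1) (s 6)) +
      ((ci (s 2) (s 1) + ci (s 2) (s 3) + ci (s 2) (s 7)) +
      ((ci (s 3) (s 2) + ci (s 3) (s 4) + ci (s 3) (s 8)) +
      ((ci (s 4) (s 3) + ci (s 4) (s 0) + ci (s 4) (s 9)) +
      ((ci (s 5) (s 0) + ci (s 5) (s 7) + ci (s 5) (s 8)) +
      ((ci (s 6) (s 1) + ci (s 6) (s 8) + ci (s 6) (s 9)) +
      ((ci (s 7) (s 2) + ci (s 7) (s 9) + ci (s 7) (s 5)) +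
      ((ci (s 8) (s 3) + ci (s 8) (s 5) + ci (s 8) (s 6)) +
      ((ci (s 9) (s 4) + ci (s 9) (s 6) + ci (s 9) (s 7)) + 0))))))))) = _
    ring
  have hcore := petCutCore (s 0) (s 1) (s 2) (s 3) (s 4) (s 5) (s 6) (s 7) (s 8) (s 9)
  have hsum : ∑ v, (s v).toNat = (s 0).toNat + (s 1).toNat + (s 2).toNat + (s 3).toNat +
      (s 4).toNat + (s 5).toNat + (s 6).toNat + (s 7).toNat + (s 8).toNat + (s 9).toNat := by
    simp only [Fin.sum_univ_succ, Fin.sum_univ_zero]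
    show (s 0).toNat + ((s 1).toNat + ((s 2).toNat + ((s 3).toNat + ((s 4).toNat +
      ((s 5).toNat + ((s 6).toNat + ((s 7).toNat + ((s 8).toNat + ((s 9).toNat + 0))))))))) = _
    ring
  rw [← hcut, ← hsum, Bool.or_eq_true, Bool.or_eq_true, Nat.ble_eq, Nat.ble_eq, Nat.ble_eq] at hcore
  obtain ⟨a, b, hab, ha, hb⟩ := hA
  obtain ⟨c, d, hcd, hc, hd⟩ := hB
  have h2 : 2 ≤ ∑ v, (s v).toNat := by
    have h := Finset.sum_le_sum_of_subset (f := fun v => (s v).toNat)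
      (Finset.subset_univ ({a, b} : Finset (Fin 10)))
    rw [Finset.sum_pair hab, ha, hb] at h
    exact h
  have h8 : ∑ v, (s v).toNat ≤ 8 := by
    have h := Finset.sum_le_sum_of_subset (f := fun v => (!s v).toNat)
      (Finset.subset_univ ({c, d} : Finset (Fin 10)))
    rw [Finset.sum_pair hcd, hc, hd] at h
    have h' : ∑ v, ((s v).toNat + (!s v).toNat) = 10 := by
      have : ∀ v, (s v).toNat + (!s v).toNat = 1 := fun v => by cases s v <;> rfl
      simp only [this]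
      rfl
    rw [Finset.sum_add_distrib] at h'
    have h'' : (2 : ℕ) ≤ ∑ v, (!s v).toNat := h
    omega
  omega

end Pool.Agent.MP_dce662
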