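import Pool.Agent.MP_dce662.Petersen

/-!
From the working conditions to the conditions of the statement.
-/

set_option autoImplicit false

namespace Pool.Agent.MP_dce662

open Finset

variable {V : Type}

theorem cub_isCubic {G : SimpleGraph V} (h : Cub G) : IsCubic G := by
  intro v
  obtain ⟨a, b, c, hn, h1, h2, h3⟩ := h v
  have he : G.neighborSet v = {a, b, c} := by
    ext w
    simp only [SimpleGraph.mem_neighborSet, hn w, Set.mem_insert_iff, Set.mem_singleton_iff]
  rw [he]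
  exact Set.ncard_eq_three.2 ⟨a, b, c, h1, h2, h3, rfl⟩

theorem two_of_not_acyclic {G : SimpleGraph V} {S : Set V} (h : ¬ (G.induce S).IsAcyclic) :
    ∃ a b, a ≠ b ∧ a ∈ S ∧ b ∈ S := by
  unfold SimpleGraph.IsAcyclic at h
  push Not at h
  obtain ⟨v, c, hc⟩ := h
  match c, hc with
  | .nil, hc => exact absurd hc (by simp)
  | .cons h' _, _ =>
    exact ⟨_, _, fun e => h'.ne (Subtype.ext e), Subtype.mem _, Subtype.mem _⟩

theorem cyc4 [Fintype V] {G : SimpleGraph V} (h : CutCond G) : CyclicallyFourEdgeConnected G := by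
  classical
  intro S hS hS'
  obtain ⟨a, b, hab, ha, hb⟩ := two_of_not_acyclic hS
  obtain ⟨c, d, hcd, hc, hd⟩ := two_of_not_acyclic hS'
  have h4 := h (fun v => decide (v ∈ S)) ⟨a, b, hab, decide_eq_true ha, decide_eq_true hb⟩
    ⟨c, d, hcd, decide_eq_false hc, decide_eq_false hd⟩
  refine h4.trans ?_
  have e1 : cutN G (fun v => decide (v ∈ S)) =
      ((Finset.univ : Finset (V × V)).filter (fun p => G.Adj p.1 p.2 ∧ p.1 ∈ S ∧ p.2 ∉ S)).card := by
    rw [Finset.card_filter, Fintype.sum_prod_type]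
    unfold cutN
    refine Finset.sum_congr rfl (fun v _ => Finset.sum_congr rfl (fun w _ => ?_))
    refine if_congr ?_ rfl rfl
    simp only [decide_eq_true_eq, decide_eq_false_iff_not]
  rw [e1, ← Set.ncard_coe_finset]
  refine Set.ncard_le_ncard_of_injOn (fun p : V × V => s(p.1, p.2)) ?_ ?_ (Set.toFinite _)
  · rintro ⟨v, w⟩ hp
    simp only [coe_filter, mem_univ, true_and, Set.mem_setOf_eq] at hp
    exact ⟨hp.1, v, hp.2.1, w, hp.2.2, rfl⟩
  · rintro ⟨v, w⟩ hp ⟨v', w'⟩ hp' he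
    simp only [coe_filter, mem_univ, true_and, Set.mem_setOf_eq] at hp hp'
    simp only [Sym2.eq_iff] at he
    rcases he with ⟨rfl, rfl⟩ | ⟨rfl, rfl⟩
    · rfl
    · exact absurd hp.2.1 hp'.2.2

instance (A B C : Finset ℕ) : Decidable (VR A B C) :=
  inferInstanceAs (Decidable ((A.Nonempty ∧ B.Nonempty ∧ C.Nonempty ∧ symmDiff A B = C) ∧
    A.card + B.card + C.card = 4))

/-- label sets for three colours -/
def lab3 : Fin 3 → Finset ℕ := ![{0}, {1}, {0, 1}]

theorem lab3_vr : ∀ i j k : Fin 3, i ≠ j → i ≠ k → j ≠ k → VR (lab3 i) (lab3 j) (lab3 k) := by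
  decide

theorem not_three {G : SimpleGraph V} (hc : Cub G) (hz : NoZero G) : ¬ ThreeEdgeColorable G := by
  rintro ⟨f, hf⟩
  apply hz
  refine ⟨fun v w => lab3 (f s(v, w)), fun v w => by
    show lab3 (f s(v, w)) = lab3 (f s(w, v))
    rw [Sym2.eq_swap], fun v => ?_⟩
  obtain ⟨a, b, c, hn⟩ := hc v
  refine ⟨a, b, c, hn, ?_⟩
  have key : ∀ p q, G.Adj v p → G.Adj v q → p ≠ q → f s(v, p) ≠ f s(v, q) := by
    intro p q hp hq hpq
    refine hf _ hp _ hq ?_ ⟨v, Sym2.mem_mk_left _ _, Sym2.mem_mk_left _ _⟩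
    intro e
    rcases Sym2.eq_iff.1 e with ⟨-, h⟩ | ⟨h1, h2⟩
    · exact hpq h
    · exact hpq (h2.trans h1)
  have ha := (hn.1 a).2 (Or.inl rfl)
  have hb := (hn.1 b).2 (Or.inr (Or.inl rfl))
  have hc' := (hn.1 c).2 (Or.inr (Or.inr rfl))
  exact lab3_vr _ _ _ (key a b ha hb hn.2.1) (key a c ha hc' hn.2.2.1) (key b c hb hc' hn.2.2.2)

/-- label sets for four matchings -/
def lab4 (P : Finset (Fin 4)) : Finset ℕ :=
  (if P.card = 2 then Pᶜ else P).map Fin.valEmbedding

set_option maxRecDepth 100000 in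
theorem lab4_vr : ∀ g : Fin 4 → Fin 3, Function.Surjective g →
    VR (lab4 (Finset.univ.filter (fun i => g i = 0))) (lab4 (Finset.univ.filter (fun i => g i = 1)))
      (lab4 (Finset.univ.filter (fun i => g i = 2))) := by
  decide +kernel

theorem no_four {G : SimpleGraph V} (hc : Cub G) (hz : NoZero G) (M : Fin 4 → G.Subgraph)
    (hM : ∀ i, (M i).IsPerfectMatching) (hcov : ∀ e ∈ G.edgeSet, ∃ i, e ∈ (M i).edgeSet) :
    False := by
  classical
  apply hz
  refine ⟨fun v w => lab4 (Finset.univ.filter (fun i => (M i).Adj v w)), fun v w => ?_,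
    fun v => ?_⟩
  · simp only [SimpleGraph.Subgraph.adj_comm]
  obtain ⟨a, b, c, hn⟩ := hc v
  refine ⟨a, b, c, hn, ?_⟩
  let g : Fin 4 → Fin 3 := fun i => if (M i).Adj v a then 0 else if (M i).Adj v b then 1 else 2
  have huniq : ∀ i, ∃! w, (M i).Adj v w := fun i =>
    (SimpleGraph.Subgraph.isPerfectMatching_iff.1 (hM i)) v
  have ha : ∀ i, g i = 0 ↔ (M i).Adj v a := by
    intro i
    simp only [g]
    by_cases h : (M i).Adj v a
    · simp [h]
    · by_cases h' : (M i).Adj v b <;> simp [h, h']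
  have hb : ∀ i, g i = 1 ↔ (M i).Adj v b := by
    intro i
    simp only [g]
    by_cases h : (M i).Adj v a
    · have h' : ¬ (M i).Adj v b := fun h' => hn.2.1 ((huniq i).unique h h')
      simp [h, h']
    · by_cases h' : (M i).Adj v b <;> simp [h, h']
  have hc2 : ∀ i, g i = 2 ↔ (M i).Adj v c := by
    intro i
    simp only [g]
    by_cases h : (M i).Adj v a
    · have h' : ¬ (M i).Adj v c := fun h' => hn.2.2.1 ((huniq i).unique h h')
      simp [h, h']
    · by_cases h' : (M i).Adj v b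
      · have h'' : ¬ (M i).Adj v c := fun h'' => hn.2.2.2 ((huniq i).unique h' h'')
        simp [h, h', h'']
      · obtain ⟨w, hw, -⟩ := huniq i
        have hw' := (M i).adj_sub hw
        rcases (hn.1 w).1 hw' with rfl | rfl | rfl
        · exact absurd hw h
        · exact absurd hw h'
        · simp [h, h', hw]
  have hsurj : Function.Surjective g := by
    have hex : ∀ w, G.Adj v w → ∃ i, (M i).Adj v w := fun w hw => by
      obtain ⟨i, hi⟩ := hcov s(v, w) hw
      exact ⟨i, hi⟩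
    intro t
    fin_cases t
    · obtain ⟨i, hi⟩ := hex a ((hn.1 a).2 (Or.inl rfl))
      exact ⟨i, (ha i).2 hi⟩
    · obtain ⟨i, hi⟩ := hex b ((hn.1 b).2 (Or.inr (Or.inl rfl)))
      exact ⟨i, (hb i).2 hi⟩
    · obtain ⟨i, hi⟩ := hex c ((hn.1 c).2 (Or.inr (Or.inr rfl)))
      exact ⟨i, (hc2 i).2 hi⟩
  have h := lab4_vr g hsurj
  simp only [ha, hb, hc2] at h
  exact h

theorem five_le {G : SimpleGraph V} (hc : Cub G) (hz : NoZero G) : 5 ≤ excessiveIndex G := by
  classical
  unfold excessiveIndex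
  refine le_sInf ?_
  rintro k ⟨n, rfl, M, -, hM, hcov⟩
  by_contra hlt
  rw [not_le] at hlt
  have hn : n < 5 := by exact_mod_cast hlt
  have hv : Nonempty V := by
    by_contra hne
    rw [not_nonempty_iff] at hne
    exact hz ⟨fun _ _ => ∅, fun _ _ => rfl, fun v => (hne.false v).elim⟩
  obtain ⟨v⟩ := hv
  obtain ⟨a, b, c, hab⟩ := hc v
  obtain ⟨i0, -⟩ := hcov s(v, a) ((hab.1 a).2 (Or.inl rfl))
  have hpos : 0 < n := lt_of_le_of_lt (Nat.zero_le _) i0.2
  refine no_four hc hz (fun i : Fin 4 => M ⟨min i.1 (n - 1), by omega⟩) (fun i => hM _) ?_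
  intro e he
  obtain ⟨i, hi⟩ := hcov e he
  refine ⟨⟨i.1, by omega⟩, ?_⟩
  have : (⟨min i.1 (n - 1), by omega⟩ : Fin n) = i := by
    ext
    simp only
    omega
  show e ∈ (M ⟨min i.1 (n - 1), by omega⟩).edgeSet
  rw [this]
  exact hi

end Pool.Agent.MP_dce662
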