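import Pool.Agent.MP_dce662.Wind
import Pool.Agent.MP_dce662.Core

/-!
The recursion: number of vertices at which a labelling is not tight.
-/

set_option autoImplicit false

namespace Pool.Agent.MP_dce662

open Finset

variable {V : Type} {R : Rooted V}

open Classical in
/-- the labelling of the `i`-th copy induced by a labelling of the windmill -/
noncomputable def Lc (L : WV R → WV R → Finset ℕ) (i : Fin 3) (v w : V) : Finset ℕ :=
  if hv : v ≠ R.x ∧ v ≠ R.y then L (inn R i v hv.1 hv.2) (tau R i v w)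
  else if hw : w ≠ R.x ∧ w ≠ R.y then L (inn R i w hw.1 hw.2) (tau R i w v)
  else ∅

theorem Lc_eq (L : WV R → WV R → Finset ℕ) (i : Fin 3) {v : V} (hx : v ≠ R.x) (hy : v ≠ R.y)
    (w : V) : Lc L i v w = L (inn R i v hx hy) (tau R i v w) := by
  unfold Lc
  rw [dif_pos ⟨hx, hy⟩]

theorem Lc_symm {L : WV R → WV R → Finset ℕ} (hs : ∀ p q, L p q = L q p) (i : Fin 3) (v w : V) :
    Lc L i v w = Lc L i w v := by
  by_cases hv : v ≠ R.x ∧ v ≠ R.y
  · rw [Lc_eq L i hv.1 hv.2]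
    by_cases hw : w ≠ R.x ∧ w ≠ R.y
    · rw [Lc_eq L i hw.1 hw.2, tau_inn hw.1 hw.2, tau_inn hv.1 hv.2, hs]
    · unfold Lc
      rw [dif_neg hw, dif_pos hv]
  · by_cases hw : w ≠ R.x ∧ w ≠ R.y
    · rw [Lc_eq L i hw.1 hw.2]
      unfold Lc
      rw [dif_neg hv, dif_pos hw]
    · unfold Lc
      rw [dif_neg hv, dif_neg hw, dif_neg hv, dif_neg hw]

/-- every vertex has three neighbours -/
def Cub (G : SimpleGraph V) : Prop := ∀ v, ∃ a b c, N3 G v a b c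

theorem tight_iff (hR : R.Labelled) (hc : Cub R.G) (L : WV R → WV R → Finset ℕ) (i : Fin 3)
    {v : V} (hx : v ≠ R.x) (hy : v ≠ R.y) :
    TightAt R.G (Lc L i) v ↔ TightAt (WG R) L (inn R i v hx hy) := by
  constructor
  · rintro ⟨a, b, c, hn, hv⟩
    refine ⟨_, _, _, n3_inn hR hn, ?_⟩
    rw [Lc_eq L i hx hy, Lc_eq L i hx hy, Lc_eq L i hx hy] at hv
    exact hv
  · intro h
    obtain ⟨a, b, c, hn⟩ := hc v
    refine ⟨a, b, c, hn, ?_⟩
    rw [Lc_eq L i hx hy, Lc_eq L i hx hy, Lc_eq L i hx hy]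
    exact h.vr (n3_inn hR hn)

theorem cover_inn (hR : R.Labelled) (hc : Cub R.G) (L : WV R → WV R → Finset ℕ) (i : Fin 3)
    {v : V} (hx : v ≠ R.x) (hy : v ≠ R.y) (h : CoverAt (WG R) L (inn R i v hx hy)) :
    CoverAt R.G (Lc L i) v := by
  obtain ⟨a, b, c, hn⟩ := hc v
  refine ⟨a, b, c, hn, ?_⟩
  rw [Lc_eq L i hx hy, Lc_eq L i hx hy, Lc_eq L i hx hy]
  exact h.cr (n3_inn hR hn)

theorem Lc_x0 (hR : R.Labelled) {L : WV R → WV R → Finset ℕ} (hs : ∀ p q, L p q = L q p)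
    (i : Fin 3) : Lc L i R.x R.x0 = L (vx0 hR i) (hub R (Hub.a (i - 1))) := by
  rw [Lc_symm hs, Lc_eq L i (x0_ne hR).1 (x0_ne hR).2, tau_x rfl]

theorem Lc_x1 (hR : R.Labelled) {L : WV R → WV R → Finset ℕ} (hs : ∀ p q, L p q = L q p)
    (i : Fin 3) : Lc L i R.x R.x1 = L (vx1 hR i) (hub R (Hub.b (i - 1))) := by
  rw [Lc_symm hs, Lc_eq L i (x1_ne hR).1 (x1_ne hR).2, tau_x' hR.2.1.symm]

theorem Lc_y0 (hR : R.Labelled) {L : WV R → WV R → Finset ℕ} (hs : ∀ p q, L p q = L q p)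
    (i : Fin 3) : Lc L i R.y R.y0 = L (vy0 hR i) (hub R (Hub.a (i + 1))) := by
  rw [Lc_symm hs, Lc_eq L i (y0_ne hR).1 (y0_ne hR).2, tau_y hR.1.ne' rfl]

theorem Lc_y1 (hR : R.Labelled) {L : WV R → WV R → Finset ℕ} (hs : ∀ p q, L p q = L q p)
    (i : Fin 3) : Lc L i R.y R.y1 = L (vy1 hR i) (hub R (Hub.b (i + 1))) := by
  rw [Lc_symm hs, Lc_eq L i (y1_ne hR).1 (y1_ne hR).2, tau_y' hR.1.ne' hR.2.2.1.symm]

/-- the windmill of three copies with the chosen edge `c_0 a_0` -/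
def next (hR : R.Labelled) : Rooted (WV R) where
  G := WG R
  x := hub R (Hub.c 0)
  y := hub R (Hub.a 0)
  x0 := hub R (Hub.b 0)
  x1 := hub R Hub.u
  y0 := vx0 hR 1
  y1 := vy0 hR 2

theorem next_labelled (hR : R.Labelled) : (next hR).Labelled := by
  have nc := n3_c (R := R) 0
  have na := n3_a hR 0
  have e1 : vx0 hR (0 + 1) = vx0 hR 1 := rfl
  have e2 : vy0 hR (0 - 1) = vy0 hR 2 := rfl
  rw [e1, e2] at na
  refine ⟨(nc.1 _).2 (Or.inl rfl), (fun e => by cases e), na.2.1, ?_, ?_⟩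
  · intro w
    show (WG R).Adj (hub R (Hub.c 0)) w ∧ w ≠ hub R (Hub.a 0) ↔ _
    rw [nc.1 w]
    constructor
    · rintro ⟨h, hne⟩
      rcases h with h | h | h
      · exact absurd h hne
      · exact Or.inl h
      · exact Or.inr h
    · rintro (rfl | rfl)
      · exact ⟨Or.inr (Or.inl rfl), fun e => by cases e⟩
      · exact ⟨Or.inr (Or.inr rfl), fun e => by cases e⟩
  · intro w
    show (WG R).Adj (hub R (Hub.a 0)) w ∧ w ≠ hub R (Hub.c 0) ↔ _
    rw [na.1 w]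
    constructor
    · rintro ⟨h, hne⟩
      rcases h with h | h | h
      · exact Or.inl h
      · exact Or.inr h
      · exact absurd h hne
    · rintro (rfl | rfl)
      · exact ⟨Or.inl rfl, fun e => by cases e⟩
      · exact ⟨Or.inr (Or.inl rfl), fun e => by cases e⟩

theorem next_cub (hR : R.Labelled) (hc : Cub R.G) : Cub (next hR).G := by
  intro v
  rcases v with ⟨i, ⟨v, hx, hy⟩⟩ | k
  · obtain ⟨a, b, c, hn⟩ := hc v
    exact ⟨_, _, _, n3_inn hR (hx := hx) (hy := hy) hn⟩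
  · cases k with
    | u => exact ⟨_, _, _, n3_u⟩
    | a i => exact ⟨_, _, _, n3_a hR i⟩
    | b i => exact ⟨_, _, _, n3_b hR i⟩
    | c i => exact ⟨_, _, _, n3_c i⟩

/-- Theorem A -/
theorem dbl_next [Finite V] (hR : R.Labelled) (hc : Cub R.G) (hz : NoZero R.G) :
    Dbl (next hR) := by
  intro L hs ht
  have ht' : ∀ p, p ≠ hub R (Hub.c 0) → p ≠ hub R (Hub.a 0) → TightAt (WG R) L p := ht
  have hcopy : ∀ i : Fin 3, ∀ v, v ≠ R.x → v ≠ R.y → TightAt R.G (Lc L i) v := by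
    intro i v hx hy
    rw [tight_iff hR hc L i hx hy]
    exact ht' _ (fun e => by cases e) (fun e => by cases e)
  have F : ∀ i : Fin 3, PoleFacts (Lc L i R.x R.x0) (Lc L i R.x R.x1) (Lc L i R.y R.y0)
      (Lc L i R.y R.y1) := fun i => poleFacts hR hz (Lc_symm hs i) (hcopy i)
  simp only [Lc_x0 hR hs, Lc_x1 hR hs, Lc_y0 hR hs, Lc_y1 hR hs] at F
  have F0 := F 0
  have F1 := F 1
  have F2 := F 2
  have ha1 := (ht' (hub R (Hub.a 1)) (fun e => by cases e) (fun e => by cases e)).vr (n3_a hR 1)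
  have hb1 := (ht' (hub R (Hub.b 1)) (fun e => by cases e) (fun e => by cases e)).vr (n3_b hR 1)
  have hc1 := (ht' (hub R (Hub.c 1)) (fun e => by cases e) (fun e => by cases e)).vr (n3_c 1)
  have ha2 := (ht' (hub R (Hub.a 2)) (fun e => by cases e) (fun e => by cases e)).vr (n3_a hR 2)
  have hb2 := (ht' (hub R (Hub.b 2)) (fun e => by cases e) (fun e => by cases e)).vr (n3_b hR 2)
  have hc2 := (ht' (hub R (Hub.c 2)) (fun e => by cases e) (fun e => by cases e)).vr (n3_c 2)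
  have hb0 := (ht' (hub R (Hub.b 0)) (fun e => by cases e) (fun e => by cases e)).vr (n3_b hR 0)
  have hu := (ht' (hub R Hub.u) (fun e => by cases e) (fun e => by cases e)).vr n3_u
  rw [hs (hub R (Hub.a 1)) (vx0 hR (1 + 1)), hs (hub R (Hub.a 1)) (vy0 hR (1 - 1))] at ha1
  rw [hs (hub R (Hub.b 1)) (vx1 hR (1 + 1)), hs (hub R (Hub.b 1)) (vy1 hR (1 - 1))] at hb1
  rw [hs (hub R (Hub.a 2)) (vx0 hR (2 + 1)), hs (hub R (Hub.a 2)) (vy0 hR (2 - 1))] at ha2
  rw [hs (hub R (Hub.b 2)) (vx1 hR (2 + 1)), hs (hub R (Hub.b 2)) (vy1 hR (2 - 1))] at hb2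
  rw [hs (hub R (Hub.b 0)) (vx1 hR (0 + 1)), hs (hub R (Hub.b 0)) (vy1 hR (0 - 1))] at hb0
  rw [hs (hub R (Hub.c 1)) (hub R (Hub.a 1)), hs (hub R (Hub.c 1)) (hub R (Hub.b 1)),
    hs (hub R (Hub.c 1)) (hub R Hub.u)] at hc1
  rw [hs (hub R (Hub.c 2)) (hub R (Hub.a 2)), hs (hub R (Hub.c 2)) (hub R (Hub.b 2)),
    hs (hub R (Hub.c 2)) (hub R Hub.u)] at hc2
  have key := caseAnalysis F0 F1 F2 ha1 hb1 hc1 ha2 hb2 hc2 hb0 hu
  show (L (hub R (Hub.a 0)) (vx0 hR 1)).card = 2 ∧ (L (hub R (Hub.a 0)) (vy0 hR 2)).card = 2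
  rw [hs (hub R (Hub.a 0)) (vx0 hR 1), hs (hub R (Hub.a 0)) (vy0 hR 2)]
  exact key

/-- Theorem C -/
theorem noZero_of_dbl (hR : R.Labelled) (hd : Dbl R) : NoZero R.G := by
  rintro ⟨L, hs, ht⟩
  have h := hd L hs (fun v _ _ => ht v)
  have hv := (ht R.y).vr hR.n3y
  have := hv.2
  have h1 := hv.1.1.card_pos
  omega

/-- Theorem B -/
theorem bad_next_one [Finite V] (hR : R.Labelled) (hc : Cub R.G) (hd : Dbl R) :
    Bad (next hR) 1 := by
  intro L hs _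
  rw [Nat.one_le_iff_ne_zero]
  intro h0
  rw [Set.ncard_eq_zero (Set.toFinite _)] at h0
  have ht' : ∀ p, p ≠ hub R (Hub.c 0) → p ≠ hub R (Hub.a 0) → TightAt (WG R) L p := by
    intro p h1 h2
    by_contra h3
    have : p ∈ (∅ : Set (WV R)) := by
      rw [← h0]
      exact ⟨h1, h2, h3⟩
    exact this
  have hcopy : ∀ i : Fin 3, (Lc L i R.y R.y0).card = 2 ∧ (Lc L i R.y R.y1).card = 2 := by
    intro i
    refine hd (Lc L i) (Lc_symm hs i) (fun v hx hy => ?_)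
    rw [tight_iff hR hc L i hx hy]
    exact ht' _ (fun e => by cases e) (fun e => by cases e)
  simp only [Lc_y0 hR hs, Lc_y1 hR hs] at hcopy
  have F0 := hcopy 0
  have F1 := hcopy 1
  have ha1 := ((ht' (hub R (Hub.a 1)) (fun e => by cases e) (fun e => by cases e)).vr (n3_a hR 1)).cards
  have hb1 := ((ht' (hub R (Hub.b 1)) (fun e => by cases e) (fun e => by cases e)).vr (n3_b hR 1)).cards
  have hc1 := ((ht' (hub R (Hub.c 1)) (fun e => by cases e) (fun e => by cases e)).vr (n3_c 1)).cards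
  have ha2 := ((ht' (hub R (Hub.a 2)) (fun e => by cases e) (fun e => by cases e)).vr (n3_a hR 2)).cards
  have hb2 := ((ht' (hub R (Hub.b 2)) (fun e => by cases e) (fun e => by cases e)).vr (n3_b hR 2)).cards
  have hc2 := ((ht' (hub R (Hub.c 2)) (fun e => by cases e) (fun e => by cases e)).vr (n3_c 2)).cards
  have hu := ((ht' (hub R Hub.u) (fun e => by cases e) (fun e => by cases e)).vr n3_u).cards
  rw [hs (hub R (Hub.a 1)) (vy0 hR (1 - 1))] at ha1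
  rw [hs (hub R (Hub.b 1)) (vy1 hR (1 - 1))] at hb1
  rw [hs (hub R (Hub.a 2)) (vy0 hR (2 - 1))] at ha2
  rw [hs (hub R (Hub.b 2)) (vy1 hR (2 - 1))] at hb2
  rw [hs (hub R (Hub.c 1)) (hub R (Hub.a 1)), hs (hub R (Hub.c 1)) (hub R (Hub.b 1)),
    hs (hub R (Hub.c 1)) (hub R Hub.u)] at hc1
  rw [hs (hub R (Hub.c 2)) (hub R (Hub.a 2)), hs (hub R (Hub.c 2)) (hub R (Hub.b 2)),
    hs (hub R (Hub.c 2)) (hub R Hub.u)] at hc2
  have e1 : (L (vy0 hR (1 - 1)) (hub R (Hub.a 1))).card = 2 := F0.1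
  have e2 : (L (vy1 hR (1 - 1)) (hub R (Hub.b 1))).card = 2 := F0.2
  have e3 : (L (vy0 hR (2 - 1)) (hub R (Hub.a 2))).card = 2 := F1.1
  have e4 : (L (vy1 hR (2 - 1)) (hub R (Hub.b 2))).card = 2 := F1.2
  omega

theorem inn_inj {i : Fin 3} {v w : V} {hx : v ≠ R.x} {hy : v ≠ R.y} {hx' : w ≠ R.x}
    {hy' : w ≠ R.y} {j : Fin 3} (h : inn R i v hx hy = inn R j w hx' hy') : i = j ∧ v = w := by
  obtain ⟨h1, h2⟩ := Sigma.mk.inj_iff.1 (Sum.inl_injective h)
  subst h1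
  exact ⟨rfl, congrArg Subtype.val (eq_of_heq h2)⟩

/-- Theorem D -/
theorem bad_next [Finite V] (hR : R.Labelled) (hc : Cub R.G) {n : ℕ} (hb : Bad R n) :
    Bad (next hR) (3 * n) := by
  intro L hs hcov
  let S : Fin 3 → Set (WV R) := fun i =>
    {q | ∃ (v : V) (hx : v ≠ R.x) (hy : v ≠ R.y), q = inn R i v hx hy ∧ ¬ TightAt R.G (Lc L i) v}
  have hS : ∀ i, n ≤ (S i).ncard := by
    intro i
    refine (hb (Lc L i) (Lc_symm hs i) (fun v hx hy => ?_)).trans (le_of_eq ?_)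
    · exact cover_inn hR hc L i hx hy (hcov _ (fun e => by cases e) (fun e => by cases e))
    · refine Set.ncard_congr (fun v hv => inn R i v hv.1 hv.2.1) ?_ ?_ ?_
      · intro v hv
        exact ⟨v, hv.1, hv.2.1, rfl, hv.2.2⟩
      · intro v w hv hw h
        exact (inn_inj h).2
      · rintro q ⟨v, hx, hy, rfl, h⟩
        exact ⟨v, ⟨hx, hy, h⟩, rfl⟩
  have hdis : ∀ i j, i ≠ j → Disjoint (S i) (S j) := by
    intro i j hij
    rw [Set.disjoint_left]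
    rintro q ⟨v, hx, hy, rfl, -⟩ ⟨w, hx', hy', h, -⟩
    exact hij (inn_inj h).1
  have hsub : S 0 ∪ (S 1 ∪ S 2) ⊆
      {p | p ≠ (next hR).x ∧ p ≠ (next hR).y ∧ ¬ TightAt (next hR).G L p} := by
    have hone : ∀ i, S i ⊆ {p | p ≠ (next hR).x ∧ p ≠ (next hR).y ∧ ¬ TightAt (next hR).G L p} := by
      rintro i q ⟨v, hx, hy, rfl, h⟩
      refine ⟨(fun e => by cases e), (fun e => by cases e), ?_⟩
      rw [tight_iff hR hc L i hx hy] at h
      exact h
    exact Set.union_subset (hone 0) (Set.union_subset (hone 1) (hone 2))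
  have hle := Set.ncard_le_ncard hsub (Set.toFinite _)
  rw [Set.ncard_union_eq _ (Set.toFinite _) (Set.toFinite _),
    Set.ncard_union_eq (hdis 1 2 (by decide)) (Set.toFinite _) (Set.toFinite _)] at hle
  · have := hS 0
    have := hS 1
    have := hS 2
    omega
  · rw [Set.disjoint_union_right]
    exact ⟨hdis 0 1 (by decide), hdis 0 2 (by decide)⟩

end Pool.Agent.MP_dce662
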