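import Pool.Agent.MP_dce662.Labels

/-!
Neighbourhoods in the windmill of three copies of one rooted graph.
-/

set_option autoImplicit false

namespace Pool.Agent.MP_dce662

open Finset

variable {V : Type} (R : Rooted V)

/-- vertices of the windmill of three copies -/
abbrev WV : Type := Inner (fun _ => V) (fun _ => R) ⊕ Hub

/-- the windmill of three copies -/
abbrev WG : SimpleGraph (WV R) := windmill (fun _ => V) (fun _ => R)

/-- a vertex of the `i`-th copy -/
abbrev inn (i : Fin 3) (v : V) (hx : v ≠ R.x) (hy : v ≠ R.y) : WV R := Sum.inl ⟨i, ⟨v, hx, hy⟩⟩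

/-- a vertex of the hub -/
abbrev hub (k : Hub) : WV R := Sum.inr k

open Classical in
/-- where the edge `vw` of the `i`-th copy leads -/
noncomputable def tau (i : Fin 3) (v w : V) : WV R :=
  if hx : w = R.x then (if v = R.x0 then hub R (Hub.a (i - 1)) else hub R (Hub.b (i - 1)))
  else if hy : w = R.y then (if v = R.y0 then hub R (Hub.a (i + 1)) else hub R (Hub.b (i + 1)))
  else inn R i w hx hy

variable {R}

theorem tau_x {i : Fin 3} {v : V} (h : v = R.x0) : tau R i v R.x = hub R (Hub.a (i - 1)) := by
  unfold tau
  rw [dif_pos rfl, if_pos h]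

theorem tau_x' {i : Fin 3} {v : V} (h : v ≠ R.x0) : tau R i v R.x = hub R (Hub.b (i - 1)) := by
  unfold tau
  rw [dif_pos rfl, if_neg h]

theorem tau_y {i : Fin 3} {v : V} (hne : R.y ≠ R.x) (h : v = R.y0) :
    tau R i v R.y = hub R (Hub.a (i + 1)) := by
  unfold tau
  rw [dif_neg hne, dif_pos rfl, if_pos h]

theorem tau_y' {i : Fin 3} {v : V} (hne : R.y ≠ R.x) (h : v ≠ R.y0) :
    tau R i v R.y = hub R (Hub.b (i + 1)) := by
  unfold tau
  rw [dif_neg hne, dif_pos rfl, if_neg h]

theorem tau_inn {i : Fin 3} {v w : V} (hx : w ≠ R.x) (hy : w ≠ R.y) :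
    tau R i v w = inn R i w hx hy := by
  unfold tau
  rw [dif_neg hx, dif_neg hy]

theorem edge_adj {p q : WV R} (h : Edge (fun _ => V) (fun _ => R) p q) : (WG R).Adj p q := by
  rw [WG, windmill, SimpleGraph.fromRel_adj]
  refine ⟨?_, Or.inl h⟩
  cases h with
  | inner i v w h =>
    intro e
    have h1 := Sum.inl_injective e
    have h2 : v = w := by
      have := (Sigma.mk.inj_iff.1 h1).2
      exact eq_of_heq this
    rw [h2] at h
    exact R.G.loopless.irrefl _ h
  | ax i v h => exact fun e => by cases e
  | ay i v h => exact fun e => by cases e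
  | bx i v h => exact fun e => by cases e
  | yb i v h => exact fun e => by cases e
  | ca i => exact fun e => by cases e
  | cb i => exact fun e => by cases e
  | cu i => exact fun e => by cases e

theorem adj_iff {p q : WV R} : (WG R).Adj p q ↔
    (Edge (fun _ => V) (fun _ => R) p q ∨ Edge (fun _ => V) (fun _ => R) q p) := by
  constructor
  · intro h
    rw [WG, windmill, SimpleGraph.fromRel_adj] at h
    exact h.2
  · rintro (h | h)
    · exact edge_adj h
    · exact (edge_adj h).symm

theorem adj_inn (hR : R.Labelled) {i : Fin 3} {v : V} {hx : v ≠ R.x} {hy : v ≠ R.y} {q : WV R} :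
    (WG R).Adj (inn R i v hx hy) q ↔ ∃ w, R.G.Adj v w ∧ q = tau R i v w := by
  have hxy : R.y ≠ R.x := hR.1.ne'
  have nx := hR.n3x
  have ny := hR.n3y
  rw [adj_iff]
  constructor
  · rintro (h | h)
    · generalize hp : inn R i v hx hy = p at h
      cases h with
      | inner j v' w' h =>
        obtain ⟨rfl, h2⟩ := Sigma.mk.inj_iff.1 (Sum.inl_injective hp)
        have h3 := eq_of_heq h2
        subst h3
        exact ⟨w'.1, h, (tau_inn w'.2.1 w'.2.2).symm⟩
      | ax j v' h => cases hp
      | ay j v' h => cases hp
      | bx j v' h => cases hp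
      | yb j v' h => cases hp
      | ca j => cases hp
      | cb j => cases hp
      | cu j => cases hp
    · generalize hp : inn R i v hx hy = p at h
      cases h with
      | inner j v' w' h =>
        obtain ⟨rfl, h2⟩ := Sigma.mk.inj_iff.1 (Sum.inl_injective hp)
        have h3 := eq_of_heq h2
        subst h3
        exact ⟨v'.1, h.symm, (tau_inn v'.2.1 v'.2.2).symm⟩
      | ax j v' h =>
        obtain ⟨rfl, h2⟩ := Sigma.mk.inj_iff.1 (Sum.inl_injective hp)
        have h3 := eq_of_heq h2
        subst h3
        have h' : v = R.x0 := h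
        refine ⟨R.x, ?_, ?_⟩
        · rw [h']
          exact ((nx.1 _).2 (Or.inr (Or.inl rfl))).symm
        · rw [tau_x h', add_sub_cancel_right]
      | ay j v' h =>
        obtain ⟨rfl, h2⟩ := Sigma.mk.inj_iff.1 (Sum.inl_injective hp)
        have h3 := eq_of_heq h2
        subst h3
        have h' : v = R.y0 := h
        refine ⟨R.y, ?_, ?_⟩
        · rw [h']
          exact ((ny.1 _).2 (Or.inr (Or.inl rfl))).symm
        · rw [tau_y hxy h', sub_add_cancel]
      | bx j v' h =>
        obtain ⟨rfl, h2⟩ := Sigma.mk.inj_iff.1 (Sum.inl_injective hp)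
        have h3 := eq_of_heq h2
        subst h3
        have h' : v = R.x1 := h
        refine ⟨R.x, ?_, ?_⟩
        · rw [h']
          exact ((nx.1 _).2 (Or.inr (Or.inr rfl))).symm
        · rw [tau_x' (by rw [h']; exact nx.2.2.2.symm), add_sub_cancel_right]
      | yb j v' h =>
        obtain ⟨rfl, h2⟩ := Sigma.mk.inj_iff.1 (Sum.inl_injective hp)
        have h3 := eq_of_heq h2
        subst h3
        have h' : v = R.y1 := h
        refine ⟨R.y, ?_, ?_⟩
        · rw [h']
          exact ((ny.1 _).2 (Or.inr (Or.inr rfl))).symm
        · rw [tau_y' hxy (by rw [h']; exact ny.2.2.2.symm), sub_add_cancel]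
      | ca j => cases hp
      | cb j => cases hp
      | cu j => cases hp
  · rintro ⟨w, hw, rfl⟩
    by_cases h1 : w = R.x
    · subst h1
      right
      by_cases h2 : v = R.x0
      · rw [tau_x h2]
        have := Edge.ax (V := fun _ => V) (R := fun _ => R) (i - 1) ⟨v, hx, hy⟩ h2
        rwa [sub_add_cancel] at this
      · rw [tau_x' h2]
        have h3 : v = R.x1 := by
          rcases (nx.1 v).1 hw.symm with h | h | h
          · exact absurd h hy
          · exact absurd h h2
          · exact h
        have := Edge.bx (V := fun _ => V) (R := fun _ => R) (i - 1) ⟨v, hx, hy⟩ h3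
        rwa [sub_add_cancel] at this
    · by_cases h1' : w = R.y
      · subst h1'
        right
        by_cases h2 : v = R.y0
        · rw [tau_y hxy h2]
          have := Edge.ay (V := fun _ => V) (R := fun _ => R) (i + 1) ⟨v, hx, hy⟩ h2
          rwa [add_sub_cancel_right] at this
        · rw [tau_y' hxy h2]
          have h3 : v = R.y1 := by
            rcases (ny.1 v).1 hw.symm with h | h | h
            · exact absurd h hx
            · exact absurd h h2
            · exact h
          have := Edge.yb (V := fun _ => V) (R := fun _ => R) (i + 1) ⟨v, hx, hy⟩ h3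
          rwa [add_sub_cancel_right] at this
      · left
        rw [tau_inn h1 h1']
        exact Edge.inner (V := fun _ => V) (R := fun _ => R) i ⟨v, hx, hy⟩ ⟨w, h1, h1'⟩ hw

theorem sub_ne_add (i : Fin 3) : i - 1 ≠ i + 1 := by
  revert i
  decide

theorem tau_inj (hxy : R.y ≠ R.x) {i : Fin 3} {v w w' : V}
    (h : tau R i v w = tau R i v w') : w = w' := by
  by_cases h1 : w = R.x
  · subst h1
    by_cases h2 : w' = R.x
    · exact h2.symm
    · exfalso
      by_cases h3 : w' = R.y
      · subst h3
        by_cases ha : v = R.x0 <;> by_cases hb : v = R.y0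
        · rw [tau_x ha, tau_y hxy hb] at h
          have := Hub.a.inj (Sum.inr_injective h)
          exact sub_ne_add i this
        · rw [tau_x ha, tau_y' hxy hb] at h
          cases h
        · rw [tau_x' ha, tau_y hxy hb] at h
          cases h
        · rw [tau_x' ha, tau_y' hxy hb] at h
          have := Hub.b.inj (Sum.inr_injective h)
          exact sub_ne_add i this
      · rw [tau_inn h2 h3] at h
        by_cases ha : v = R.x0
        · rw [tau_x ha] at h
          cases h
        · rw [tau_x' ha] at h
          cases h
  · by_cases h1' : w = R.y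
    · subst h1'
      by_cases h2 : w' = R.x
      · subst h2
        exfalso
        by_cases ha : v = R.x0 <;> by_cases hb : v = R.y0
        · rw [tau_x ha, tau_y hxy hb] at h
          have := Hub.a.inj (Sum.inr_injective h)
          exact sub_ne_add i this.symm
        · rw [tau_x ha, tau_y' hxy hb] at h
          cases h
        · rw [tau_x' ha, tau_y hxy hb] at h
          cases h
        · rw [tau_x' ha, tau_y' hxy hb] at h
          have := Hub.b.inj (Sum.inr_injective h)
          exact sub_ne_add i this.symm
      · by_cases h3 : w' = R.y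
        · exact h3.symm
        · exfalso
          rw [tau_inn h2 h3] at h
          by_cases hb : v = R.y0
          · rw [tau_y hxy hb] at h
            cases h
          · rw [tau_y' hxy hb] at h
            cases h
    · rw [tau_inn h1 h1'] at h
      by_cases h2 : w' = R.x
      · exfalso
        subst h2
        by_cases ha : v = R.x0
        · rw [tau_x ha] at h
          cases h
        · rw [tau_x' ha] at h
          cases h
      · by_cases h3 : w' = R.y
        · exfalso
          subst h3
          by_cases hb : v = R.y0
          · rw [tau_y hxy hb] at h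
            cases h
          · rw [tau_y' hxy hb] at h
            cases h
        · rw [tau_inn h2 h3] at h
          obtain ⟨-, h5⟩ := Sigma.mk.inj_iff.1 (Sum.inl_injective h)
          exact congrArg Subtype.val (eq_of_heq h5)

theorem n3_inn (hR : R.Labelled) {i : Fin 3} {v a b c : V} {hx : v ≠ R.x} {hy : v ≠ R.y}
    (h : N3 R.G v a b c) :
    N3 (WG R) (inn R i v hx hy) (tau R i v a) (tau R i v b) (tau R i v c) := by
  have hxy : R.y ≠ R.x := hR.1.ne'
  refine ⟨fun q => ?_, fun e => h.2.1 (tau_inj hxy e), fun e => h.2.2.1 (tau_inj hxy e),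
    fun e => h.2.2.2 (tau_inj hxy e)⟩
  rw [adj_inn hR]
  constructor
  · rintro ⟨w, hw, rfl⟩
    rcases (h.1 w).1 hw with rfl | rfl | rfl
    · exact Or.inl rfl
    · exact Or.inr (Or.inl rfl)
    · exact Or.inr (Or.inr rfl)
  · rintro (rfl | rfl | rfl)
    · exact ⟨a, (h.1 _).2 (Or.inl rfl), rfl⟩
    · exact ⟨b, (h.1 _).2 (Or.inr (Or.inl rfl)), rfl⟩
    · exact ⟨c, (h.1 _).2 (Or.inr (Or.inr rfl)), rfl⟩

/-! the four attachment vertices of a copy -/

theorem x0_ne (hR : R.Labelled) : R.x0 ≠ R.x ∧ R.x0 ≠ R.y := by
  have n := hR.n3x
  exact ⟨((n.1 _).2 (Or.inr (Or.inl rfl))).ne', n.2.1.symm⟩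

theorem x1_ne (hR : R.Labelled) : R.x1 ≠ R.x ∧ R.x1 ≠ R.y := by
  have n := hR.n3x
  exact ⟨((n.1 _).2 (Or.inr (Or.inr rfl))).ne', n.2.2.1.symm⟩

theorem y0_ne (hR : R.Labelled) : R.y0 ≠ R.x ∧ R.y0 ≠ R.y := by
  have n := hR.n3y
  exact ⟨n.2.1.symm, ((n.1 _).2 (Or.inr (Or.inl rfl))).ne'⟩

theorem y1_ne (hR : R.Labelled) : R.y1 ≠ R.x ∧ R.y1 ≠ R.y := by
  have n := hR.n3y
  exact ⟨n.2.2.1.symm, ((n.1 _).2 (Or.inr (Or.inr rfl))).ne'⟩

/-- attachment vertices in the windmill -/
abbrev vx0 (hR : R.Labelled) (i : Fin 3) : WV R := inn R i R.x0 (x0_ne hR).1 (x0_ne hR).2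
/-- attachment vertices in the windmill -/
abbrev vx1 (hR : R.Labelled) (i : Fin 3) : WV R := inn R i R.x1 (x1_ne hR).1 (x1_ne hR).2
/-- attachment vertices in the windmill -/
abbrev vy0 (hR : R.Labelled) (i : Fin 3) : WV R := inn R i R.y0 (y0_ne hR).1 (y0_ne hR).2
/-- attachment vertices in the windmill -/
abbrev vy1 (hR : R.Labelled) (i : Fin 3) : WV R := inn R i R.y1 (y1_ne hR).1 (y1_ne hR).2

theorem n3_u : N3 (WG R) (hub R Hub.u) (hub R (Hub.c 0)) (hub R (Hub.c 1)) (hub R (Hub.c 2)) := by
  refine ⟨fun q => ?_, by simp, by simp, by simp⟩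
  rw [adj_iff]
  constructor
  · rintro (h | h)
    · generalize hp : hub R Hub.u = p at h
      cases h <;> cases hp
    · generalize hp : hub R Hub.u = p at h
      cases h with
      | cu j =>
        fin_cases j
        · exact Or.inl rfl
        · exact Or.inr (Or.inl rfl)
        · exact Or.inr (Or.inr rfl)
      | inner j v w h => cases hp
      | ax j v h => cases hp
      | ay j v h => cases hp
      | bx j v h => cases hp
      | yb j v h => cases hp
      | ca j => cases hp
      | cb j => cases hp
  · rintro (rfl | rfl | rfl)
    · exact Or.inr (Edge.cu 0)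
    · exact Or.inr (Edge.cu 1)
    · exact Or.inr (Edge.cu 2)

theorem n3_c (i : Fin 3) :
    N3 (WG R) (hub R (Hub.c i)) (hub R (Hub.a i)) (hub R (Hub.b i)) (hub R Hub.u) := by
  refine ⟨fun q => ?_, by simp, by simp, by simp⟩
  rw [adj_iff]
  constructor
  · rintro (h | h)
    · generalize hp : hub R (Hub.c i) = p at h
      cases h with
      | ca j =>
        have := Hub.c.inj (Sum.inr_injective hp)
        subst this
        exact Or.inl rfl
      | cb j =>
        have := Hub.c.inj (Sum.inr_injective hp)
        subst this
        exact Or.inr (Or.inl rfl)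
      | cu j => exact Or.inr (Or.inr rfl)
      | inner j v w h => cases hp
      | ax j v h => cases hp
      | ay j v h => cases hp
      | bx j v h => cases hp
      | yb j v h => cases hp
    · generalize hp : hub R (Hub.c i) = p at h
      cases h <;> cases hp
  · rintro (rfl | rfl | rfl)
    · exact Or.inl (Edge.ca i)
    · exact Or.inl (Edge.cb i)
    · exact Or.inl (Edge.cu i)

theorem n3_a (hR : R.Labelled) (i : Fin 3) :
    N3 (WG R) (hub R (Hub.a i)) (vx0 hR (i + 1)) (vy0 hR (i - 1)) (hub R (Hub.c i)) := by
  refine ⟨fun q => ?_, ?_, by simp, by simp⟩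
  · rw [adj_iff]
    constructor
    · rintro (h | h)
      · generalize hp : hub R (Hub.a i) = p at h
        cases h with
        | ax j v h =>
          have := Hub.a.inj (Sum.inr_injective hp)
          subst this
          left
          obtain ⟨v, hv⟩ := v
          have h' : v = R.x0 := h
          subst h'
          rfl
        | ay j v h =>
          have := Hub.a.inj (Sum.inr_injective hp)
          subst this
          right
          left
          obtain ⟨v, hv⟩ := v
          have h' : v = R.y0 := h
          subst h'
          rfl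
        | inner j v w h => cases hp
        | bx j v h => cases hp
        | yb j v h => cases hp
        | ca j => cases hp
        | cb j => cases hp
        | cu j => cases hp
      · generalize hp : hub R (Hub.a i) = p at h
        cases h with
        | ca j =>
          have := Hub.a.inj (Sum.inr_injective hp)
          subst this
          exact Or.inr (Or.inr rfl)
        | inner j v w h => cases hp
        | ax j v h => cases hp
        | ay j v h => cases hp
        | bx j v h => cases hp
        | yb j v h => cases hp
        | cb j => cases hp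
        | cu j => cases hp
    · rintro (rfl | rfl | rfl)
      · exact Or.inl (Edge.ax i _ rfl)
      · exact Or.inl (Edge.ay i _ rfl)
      · exact Or.inr (Edge.ca i)
  · intro e
    have h1 := (Sigma.mk.inj_iff.1 (Sum.inl_injective e)).1
    exact sub_ne_add i h1.symm

theorem n3_b (hR : R.Labelled) (i : Fin 3) :
    N3 (WG R) (hub R (Hub.b i)) (vx1 hR (i + 1)) (vy1 hR (i - 1)) (hub R (Hub.c i)) := by
  refine ⟨fun q => ?_, ?_, by simp, by simp⟩
  · rw [adj_iff]
    constructor
    · rintro (h | h)
      · generalize hp : hub R (Hub.b i) = p at h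
        cases h with
        | bx j v h =>
          have := Hub.b.inj (Sum.inr_injective hp)
          subst this
          left
          obtain ⟨v, hv⟩ := v
          have h' : v = R.x1 := h
          subst h'
          rfl
        | yb j v h =>
          have := Hub.b.inj (Sum.inr_injective hp)
          subst this
          right
          left
          obtain ⟨v, hv⟩ := v
          have h' : v = R.y1 := h
          subst h'
          rfl
        | inner j v w h => cases hp
        | ax j v h => cases hp
        | ay j v h => cases hp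
        | ca j => cases hp
        | cb j => cases hp
        | cu j => cases hp
      · generalize hp : hub R (Hub.b i) = p at h
        cases h with
        | cb j =>
          have := Hub.b.inj (Sum.inr_injective hp)
          subst this
          exact Or.inr (Or.inr rfl)
        | inner j v w h => cases hp
        | ax j v h => cases hp
        | ay j v h => cases hp
        | bx j v h => cases hp
        | yb j v h => cases hp
        | ca j => cases hp
        | cu j => cases hp
    · rintro (rfl | rfl | rfl)
      · exact Or.inl (Edge.bx i _ rfl)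
      · exact Or.inl (Edge.yb i _ rfl)
      · exact Or.inr (Edge.cb i)
  · intro e
    have h1 := (Sigma.mk.inj_iff.1 (Sum.inl_injective e)).1
    exact sub_ne_add i h1.symm

end Pool.Agent.MP_dce662
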