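import Pool.Agent.MP_dce662.Conn

/-!
The cut condition for the windmill.
-/

set_option autoImplicit false

namespace Pool.Agent.MP_dce662

open Finset

variable {V : Type} [Fintype V] {R : Rooted V}

theorem sum_hub (f : Hub → ℕ) : ∑ k, f k =
    f Hub.u + (f (Hub.a 0) + f (Hub.a 1) + f (Hub.a 2)) +
      (f (Hub.b 0) + f (Hub.b 1) + f (Hub.b 2)) + (f (Hub.c 0) + f (Hub.c 1) + f (Hub.c 2)) := by
  have h : (Finset.univ : Finset Hub) = {Hub.u, Hub.a 0, Hub.a 1, Hub.a 2, Hub.b 0, Hub.b 1,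
      Hub.b 2, Hub.c 0, Hub.c 1, Hub.c 2} := by decide
  rw [h]
  rw [Finset.sum_insert (by decide), Finset.sum_insert (by decide), Finset.sum_insert (by decide),
    Finset.sum_insert (by decide), Finset.sum_insert (by decide), Finset.sum_insert (by decide),
    Finset.sum_insert (by decide), Finset.sum_insert (by decide), Finset.sum_insert (by decide),
    Finset.sum_singleton]
  ring

/-- cut indicator -/
def ci (a b : Bool) : ℕ := (a && !b).toNat

theorem mm_ci (a b : Bool) : mm a b = ci a b + ci b a := by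
  cases a <;> cases b <;> rfl

theorem ci_ite (a b : Bool) : (if a = true ∧ b = false then 1 else 0) = ci a b := by
  cases a <;> cases b <;> rfl

open scoped Classical in
/-- restriction of a set of vertices to the `i`-th pole -/
noncomputable def rs (s : WV R → Bool) (i : Fin 3) (v : V) : Bool :=
  if h : v ≠ R.x ∧ v ≠ R.y then s (inn R i v h.1 h.2) else false

omit [Fintype V] in
theorem rs_eq (s : WV R → Bool) (i : Fin 3) {v : V} (hx : v ≠ R.x) (hy : v ≠ R.y) :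
    rs s i v = s (inn R i v hx hy) := by
  unfold rs
  rw [dif_pos ⟨hx, hy⟩]

open scoped Classical in
/-- the contribution of the vertices of the `i`-th pole -/
theorem pole_out (hR : R.Labelled) (hc : Cub R.G) (s : WV R → Bool) (i : Fin 3) :
    (∑ v : {v : V // v ≠ R.x ∧ v ≠ R.y}, ∑ q : WV R,
      if (WG R).Adj (Sum.inl ⟨i, v⟩) q ∧ s (Sum.inl ⟨i, v⟩) = true ∧ s q = false then 1 else 0) =
    inCut R (rs s i) + (ci (rs s i R.x0) (s (hub R (Hub.a (i - 1)))) +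
      ci (rs s i R.x1) (s (hub R (Hub.b (i - 1))))) +
      (ci (rs s i R.y0) (s (hub R (Hub.a (i + 1)))) +
      ci (rs s i R.y1) (s (hub R (Hub.b (i + 1))))) := by
  have h1 : ∀ v : {v : V // v ≠ R.x ∧ v ≠ R.y}, (∑ q : WV R,
      if (WG R).Adj (Sum.inl ⟨i, v⟩) q ∧ s (Sum.inl ⟨i, v⟩) = true ∧ s q = false then 1 else 0) =
      ∑ w, if R.G.Adj v.1 w then ci (rs s i v.1) (s (tau R i v.1 w)) else 0 := by
    rintro ⟨v, hx, hy⟩
    obtain ⟨a, b, c, hn⟩ := hc v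
    rw [out_eq hn (fun w => ci (rs s i v) (s (tau R i v w)))]
    have h2 := out_eq (n3_inn (i := i) (hx := hx) (hy := hy) hR hn)
      (fun q => ci (rs s i v) (s q))
    rw [← h2]
    refine Finset.sum_congr rfl (fun q _ => ?_)
    rw [rs_eq s i hx hy]
    by_cases hq : (WG R).Adj (inn R i v hx hy) q
    · rw [if_pos hq, ← ci_ite]
      refine if_congr ?_ rfl rfl
      exact ⟨fun h => h.2, fun h => ⟨hq, h⟩⟩
    · rw [if_neg hq, if_neg]
      exact fun h => hq h.1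
  simp_rw [h1]
  have h2 : (∑ v : {v : V // v ≠ R.x ∧ v ≠ R.y}, ∑ w,
      if R.G.Adj v.1 w then ci (rs s i v.1) (s (tau R i v.1 w)) else 0) =
      ∑ v, ∑ w, if v ≠ R.x ∧ v ≠ R.y ∧ R.G.Adj v w then ci (rs s i v) (s (tau R i v w)) else 0 := by
    have h3 : ∑ v ∈ Finset.univ.filter (fun v : V => v ≠ R.x ∧ v ≠ R.y),
        (∑ w, if R.G.Adj v w then ci (rs s i v) (s (tau R i v w)) else 0) =
        ∑ v : {v : V // v ≠ R.x ∧ v ≠ R.y},
          ∑ w, if R.G.Adj v.1 w then ci (rs s i v.1) (s (tau R i v.1 w)) else 0 :=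
      Finset.sum_subtype _ (by intro v; simp) _
    rw [← h3, Finset.sum_filter]
    refine Finset.sum_congr rfl (fun v _ => ?_)
    by_cases hv : v ≠ R.x ∧ v ≠ R.y
    · rw [if_pos hv]
      refine Finset.sum_congr rfl (fun w _ => if_congr ?_ rfl rfl)
      exact ⟨fun h => ⟨hv.1, hv.2, h⟩, fun h => h.2.2⟩
    · rw [if_neg hv]
      symm
      refine Finset.sum_eq_zero (fun w _ => if_neg ?_)
      exact fun h => hv ⟨h.1, h.2.1⟩
  rw [h2, split hR (fun v w => ci (rs s i v) (s (tau R i v w)))]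
  rw [tau_x rfl, tau_x' hR.2.1.symm, tau_y hR.1.ne' rfl, tau_y' hR.1.ne' hR.2.2.1.symm]
  congr 2
  unfold inCut
  refine Finset.sum_congr rfl (fun v _ => Finset.sum_congr rfl (fun w _ => ?_))
  by_cases h : v ≠ R.x ∧ v ≠ R.y ∧ w ≠ R.x ∧ w ≠ R.y ∧ R.G.Adj v w
  · rw [if_pos h, if_pos h, ci_ite, tau_inn h.2.2.1 h.2.2.2.1, rs_eq s i h.2.2.1 h.2.2.2.1]
  · rw [if_neg h, if_neg h]

open scoped Classical in
/-- the cut of the windmill -/
theorem wind_cut (hR : R.Labelled) (hc : Cub R.G) (s : WV R → Bool) :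
    cutN (WG R) s = (inCut R (rs s 0) + inCut R (rs s 1) + inCut R (rs s 2)) +
      ((mm (rs s 0 R.x0) (s (hub R (Hub.a 2))) + mm (rs s 0 R.x1) (s (hub R (Hub.b 2))) +
        mm (rs s 0 R.y0) (s (hub R (Hub.a 1))) + mm (rs s 0 R.y1) (s (hub R (Hub.b 1)))) +
      (mm (rs s 1 R.x0) (s (hub R (Hub.a 0))) + mm (rs s 1 R.x1) (s (hub R (Hub.b 0))) +
        mm (rs s 1 R.y0) (s (hub R (Hub.a 2))) + mm (rs s 1 R.y1) (s (hub R (Hub.b 2)))) +
      (mm (rs s 2 R.x0) (s (hub R (Hub.a 1))) + mm (rs s 2 R.x1) (s (hub R (Hub.b 1))) +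
        mm (rs s 2 R.y0) (s (hub R (Hub.a 0))) + mm (rs s 2 R.y1) (s (hub R (Hub.b 0))))) +
      ((mm (s (hub R (Hub.c 0))) (s (hub R (Hub.a 0))) +
        mm (s (hub R (Hub.c 0))) (s (hub R (Hub.b 0))) + mm (s (hub R (Hub.c 0))) (s (hub R Hub.u))) +
      (mm (s (hub R (Hub.c 1))) (s (hub R (Hub.a 1))) +
        mm (s (hub R (Hub.c 1))) (s (hub R (Hub.b 1))) + mm (s (hub R (Hub.c 1))) (s (hub R Hub.u))) +
      (mm (s (hub R (Hub.c 2))) (s (hub R (Hub.a 2))) +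
        mm (s (hub R (Hub.c 2))) (s (hub R (Hub.b 2))) +
        mm (s (hub R (Hub.c 2))) (s (hub R Hub.u)))) := by
  have hhub : ∀ (k : Hub) (p q r : WV R), N3 (WG R) (hub R k) p q r →
      (∑ w : WV R, if (WG R).Adj (Sum.inr k) w ∧ s (Sum.inr k) = true ∧ s w = false then 1 else 0) =
        ci (s (hub R k)) (s p) + ci (s (hub R k)) (s q) + ci (s (hub R k)) (s r) := by
    intro k p q r hn
    rw [← out_eq hn (fun w => ci (s (hub R k)) (s w))]
    refine Finset.sum_congr rfl (fun w _ => ?_)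
    by_cases hq : (WG R).Adj (hub R k) w
    · rw [if_pos hq, ← ci_ite]
      exact if_congr ⟨fun h => h.2, fun h => ⟨hq, h⟩⟩ rfl rfl
    · rw [if_neg hq, if_neg]
      exact fun h => hq h.1
  unfold cutN
  rw [Fintype.sum_sum_type, Fintype.sum_sigma, Fin.sum_univ_three, sum_hub]
  rw [pole_out hR hc s 0, pole_out hR hc s 1, pole_out hR hc s 2]
  rw [hhub _ _ _ _ n3_u, hhub _ _ _ _ (n3_a hR 0), hhub _ _ _ _ (n3_a hR 1),
    hhub _ _ _ _ (n3_a hR 2), hhub _ _ _ _ (n3_b hR 0), hhub _ _ _ _ (n3_b hR 1),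
    hhub _ _ _ _ (n3_b hR 2), hhub _ _ _ _ (n3_c 0), hhub _ _ _ _ (n3_c 1), hhub _ _ _ _ (n3_c 2)]
  have e0 : (0 : Fin 3) - 1 = 2 := rfl
  have e1 : (1 : Fin 3) - 1 = 0 := rfl
  have e2 : (2 : Fin 3) - 1 = 1 := rfl
  have f0 : (0 : Fin 3) + 1 = 1 := rfl
  have f1 : (1 : Fin 3) + 1 = 2 := rfl
  have f2 : (2 : Fin 3) + 1 = 0 := rfl
  have gx0 : ∀ i, s (vx0 hR i) = rs s i R.x0 := fun i => (rs_eq s i _ _).symm
  have gx1 : ∀ i, s (vx1 hR i) = rs s i R.x1 := fun i => (rs_eq s i _ _).symm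
  have gy0 : ∀ i, s (vy0 hR i) = rs s i R.y0 := fun i => (rs_eq s i _ _).symm
  have gy1 : ∀ i, s (vy1 hR i) = rs s i R.y1 := fun i => (rs_eq s i _ _).symm
  simp only [gx0, gx1, gy0, gy1, e0, e1, e2, f0, f1, f2, mm_ci]
  ring

end Pool.Agent.MP_dce662
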